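import Pool.Agent.X328.FD.Indep

/-! # Change of the field of constants -/

set_option autoImplicit false

namespace Pool.Agent.X328.FD

open IntermediateField Module

noncomputable section

variable {A Cc W : Type} [Field A] [Field Cc] [Field W] [Algebra A Cc] [Algebra Cc W]
  [Algebra A W] [IsScalarTower A Cc W]

omit [Algebra A Cc] [IsScalarTower A Cc W] in
/-- polynomial expressions with coefficients in the big field are combinations of constants -/
theorem adjoin_le_span (S : Set W) (x : W) (hx : x ∈ Algebra.adjoin Cc S) :
    x ∈ Submodule.span (adjoin A S) (Set.range (algebraMap Cc W)) := by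
  have h1 : (Algebra.adjoin (adjoin A S) (Set.range (algebraMap Cc W))).toSubmodule =
      Submodule.span (adjoin A S) (Set.range (algebraMap Cc W)) := by
    rw [Algebra.adjoin_eq_span]
    have h2 : Submonoid.closure (Set.range (algebraMap Cc W)) =
        MonoidHom.mrange (algebraMap Cc W : Cc →* W) := by
      apply le_antisymm
      · rw [Submonoid.closure_le]
        rintro _ ⟨y, rfl⟩
        exact ⟨y, rfl⟩
      · rintro _ ⟨y, rfl⟩
        exact Submonoid.subset_closure ⟨y, rfl⟩
    rw [h2]
    rfl
  rw [← h1, Subalgebra.mem_toSubmodule]
  induction hx using Algebra.adjoin_induction with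
  | mem y hy =>
    have h3 : y ∈ adjoin A S := subset_adjoin _ _ hy
    exact Subalgebra.algebraMap_mem (Algebra.adjoin (adjoin A S) (Set.range (algebraMap Cc W)))
      (⟨y, h3⟩ : adjoin A S)
  | algebraMap r => exact Algebra.subset_adjoin ⟨r, rfl⟩
  | add y z _ _ hy hz => exact add_mem hy hz
  | mul y z _ _ hy hz => exact mul_mem hy hz

open scoped IntermediateField.algebraAdjoinAdjoin in
/-- the degree over the subfield generated by `S` does not depend on the constants -/
theorem base_change {ι : Type} (t : ι → W) (ht : AlgebraicIndependent Cc t)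
    (httop : adjoin Cc (Set.range t) = ⊤) (S : Set W) (hS : S ⊆ adjoin A (Set.range t))
    (hfin : FiniteDimensional (adjoin Cc S) W) :
    (adjoin A S).relfinrank (adjoin A (Set.range t)) = finrank (adjoin Cc S) W := by
  classical
  have h : adjoin A S ≤ adjoin A (Set.range t) := adjoin_le_iff.2 hS
  have h' : adjoin A S ≤ (adjoin Cc S).restrictScalars A :=
    adjoin_le_iff.2 (subset_adjoin Cc S)
  let _ : Algebra (adjoin A S) (adjoin Cc S) := (inclusion h').toRingHom.toAlgebra
  have _ : IsScalarTower (adjoin A S) (adjoin Cc S) W := IsScalarTower.of_algebraMap_eq' rfl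
  rw [relfinrank_eq_finrank_of_le h]
  let θ := Basis.ofVectorSpace (adjoin A S) (extendScalars h)
  let β := Basis.ofVectorSpace A Cc
  have hld0 : (adjoin A (Set.range t)).LinearDisjoint Cc :=
    Pool.Agent.Y220.LI.linDisj (R := A) (M := Cc) t ht
  have hβ : LinearIndependent (adjoin A (Set.range t)) (algebraMap Cc W ∘ β) :=
    hld0.linearIndependent_right' β.linearIndependent
  have hβ' : LinearIndependent (extendScalars h) (algebraMap Cc W ∘ β) := hβ
  have hprod := linearIndependent_smul θ.linearIndependent hβ'
  have hspan : ∀ x : Algebra.adjoin Cc S, ∃ c : _ →₀ (adjoin A S),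
      (Finsupp.linearCombination (adjoin A S) (algebraMap Cc W ∘ β)) c = (x : W) := by
    intro x
    have h1 := adjoin_le_span (A := A) S x.1 x.2
    have h2 : Submodule.span (adjoin A S) (Set.range (algebraMap Cc W)) ≤
        Submodule.span (adjoin A S) (Set.range (algebraMap Cc W ∘ β)) := by
      rw [Submodule.span_le]
      rintro _ ⟨y, rfl⟩
      have h4 := β.linearCombination_repr y
      rw [← h4, Finsupp.linearCombination_apply, Finsupp.sum, map_sum]
      refine sum_mem fun s _ => ?_
      rw [Algebra.smul_def, map_mul, ← IsScalarTower.algebraMap_apply A Cc W,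
        IsScalarTower.algebraMap_apply A (adjoin A S) W, ← Algebra.smul_def]
      exact Submodule.smul_mem _ _ (Submodule.subset_span ⟨s, rfl⟩)
    exact (Finsupp.mem_span_range_iff_exists_finsupp.1 (h2 h1))
  choose c hc using hspan
  have hld : (extendScalars h).LinearDisjoint (adjoin Cc S) := by
    refine LinearDisjoint.of_basis_left θ ?_
    refine (LinearIndependent.iff_fractionRing (Algebra.adjoin Cc S) (adjoin Cc S)).1 ?_
    rw [linearIndependent_iff']
    intro s r hr j hj
    set T : Finset _ := s.biUnion fun i => (c (r i)).support with hT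
    have hci : ∀ i ∈ s, ∑ b ∈ T, c (r i) b • algebraMap Cc W (β b) = (r i : W) := by
      intro i hi
      rw [← hc (r i), Finsupp.linearCombination_apply, Finsupp.sum]
      symm
      refine Finset.sum_subset (Finset.subset_biUnion_of_mem (fun i => (c (r i)).support) hi) ?_
      intro b _ hb
      rw [Finsupp.notMem_support_iff.1 hb, zero_smul]
    have hsum : ∑ p ∈ s ×ˢ T, (c (r p.1) p.2) •
        (θ p.1 • (algebraMap Cc W ∘ β) p.2) = 0 := by
      rw [Finset.sum_product, ← hr]
      refine Finset.sum_congr rfl fun i hi => ?_
      have h1 : r i • ((extendScalars h).val ∘ θ) i = (θ i : W) * (r i : W) := by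
        rw [Algebra.smul_def, mul_comm]
        rfl
      rw [h1, ← hci i hi, Finset.mul_sum]
      refine Finset.sum_congr rfl fun b _ => ?_
      rw [Algebra.smul_def, Algebra.smul_def, Algebra.smul_def]
      have h2 : algebraMap (extendScalars h) W (θ i) = (θ i : W) := rfl
      rw [h2]
      simp only [Function.comp_apply]
      ring
    have hz := linearIndependent_iff'.1 hprod (s ×ˢ T) (fun p => c (r p.1) p.2) hsum
    have hcj : c (r j) = 0 := by
      ext b
      by_cases hb : b ∈ T
      · have h3 := hz (j, b) (Finset.mem_product.2 ⟨hj, hb⟩)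
        simp only at h3
        rw [h3]
        rfl
      · have h3 : c (r j) b = 0 := by
          by_contra hne
          exact hb (Finset.mem_biUnion.2 ⟨j, hj, Finsupp.mem_support_iff.2 hne⟩)
        rw [h3]
        rfl
    have h4 := hc (r j)
    rw [hcj, map_zero] at h4
    exact Subtype.ext h4.symm
  -- finiteness
  have hfd : FiniteDimensional (adjoin A S) (extendScalars h) := by
    have h1 := hld.linearIndependent_left θ.linearIndependent
    have h2 : Finite (Basis.ofVectorSpaceIndex (adjoin A S) (extendScalars h)) := h1.finite
    exact Module.Finite.of_basis θ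
  have hr := hld.adjoin_rank_eq_rank_left_of_isAlgebraic_left
  have htop' : adjoin (adjoin Cc S) ((extendScalars h : IntermediateField (adjoin A S) W) :
      Set W) = ⊤ := by
    rw [eq_top_iff]
    intro z _
    have hz : z ∈ adjoin Cc (Set.range t) := by
      rw [httop]
      trivial
    induction hz using IntermediateField.adjoin_induction with
    | mem y hy =>
      refine subset_adjoin _ _ ?_
      exact subset_adjoin A (Set.range t) hy
    | algebraMap y =>
      exact (adjoin (adjoin Cc S) ((extendScalars h : IntermediateField (adjoin A S) W) :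
        Set W)).algebraMap_mem (algebraMap Cc (adjoin Cc S) y)
    | add y z _ _ hy hz => exact add_mem (hy trivial) (hz trivial)
    | inv y _ hy => exact inv_mem (hy trivial)
    | mul y z _ _ hy hz => exact mul_mem (hy trivial) (hz trivial)
  rw [htop', IntermediateField.rank_top'] at hr
  rw [finrank, ← hr]
  rfl

end

end Pool.Agent.X328.FD
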