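import Pool.Agent.X328.FD.Forms

/-! # The two cases of the reduction -/

set_option autoImplicit false

namespace Pool.Agent.X328.FD

open MvPolynomial Pool.Agent.Y201.LI Module

noncomputable section

theorem s_one : S_ONE := Pool.Agent.Y710.LI.one Pool.Agent.Y37.LI.pl

/-- a point reducing to `g = 0` and to the diagonal hypersurface -/
theorem case_C {k B K κ ι : Type} [Field k] [Field B] [CharZero B] [Field K] [Field κ]
    [Algebra k B] [Algebra B K] [Algebra K κ] [Algebra k κ] [FiniteDimensional K κ]
    (htow : algebraMap k κ = ((algebraMap K κ).comp (algebraMap B K)).comp (algebraMap k B))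
    {r e d : ℕ} (he : 1 ≤ e) (Y : Fin r → B) (hY : AlgebraicIndependent k Y)
    (b : Fin r → K) (u : ι → K) (hbu : AlgebraicIndependent B (Sum.elim b u))
    (htop : IntermediateField.adjoin B (Set.range b ∪ Set.range u) = ⊤)
    {g : MvPolynomial (Fin (r + 1)) k} (hg : g.IsHomogeneous d) (hg0 : g ≠ 0)
    (z : Fin (r + 1) → κ) (hz0 : z ≠ 0) (hz : aeval z g = 0)
    (hq : ∑ i, algebraMap K κ (b i) *
      (z i.succ ^ e - algebraMap K κ (algebraMap B K (Y i)) ^ e * z 0 ^ e) = 0) :
    e ∣ finrank K κ := by
  refine s_one B (r + 1) e r {map (algebraMap k B) g}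
    (fun i => X i.succ ^ e - C (Y i ^ e) * X 0 ^ e) ?_ ?_ ?_ ι K κ b u hbu htop z hz0 ?_ ?_
  · rintro G rfl
    exact ⟨d, hg.map _⟩
  · intro i
    have h1 : (X i.succ ^ e : MvPolynomial (Fin (r + 1)) B).IsHomogeneous e := by
      simpa using (isHomogeneous_X B i.succ).pow e
    have h2 : (C (Y i ^ e) * X 0 ^ e : MvPolynomial (Fin (r + 1)) B).IsHomogeneous e := by
      simpa using (isHomogeneous_C _ (Y i ^ e)).mul ((isHomogeneous_X B 0).pow e)
    exact h1.sub h2
  · intro κ' _ φ z' hZ hΦ
    let _ : Algebra k κ' := (φ.comp (algebraMap k B)).toAlgebra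
    let f : B →ₐ[k] κ' := { φ with commutes' := fun _ => rfl }
    have hY' : AlgebraicIndependent k (fun i => φ (Y i)) :=
      hY.map' (f := f) (RingHom.injective φ)
    refine base_point he hY' hg hg0 z' ?_ fun i => ?_
    · have h1 := hZ _ rfl
      rw [eval₂_map] at h1
      exact h1
    · have h1 := hΦ i
      simp only [eval₂_sub, eval₂_mul, eval₂_pow, eval₂_X, eval₂_C, map_pow] at h1
      linear_combination h1
  · rintro G rfl
    rw [eval₂_map, ← htow]
    exact hz
  · rw [← hq]
    refine Finset.sum_congr rfl fun i _ => ?_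
    simp [eval₂_sub, eval₂_mul, eval₂_pow, eval₂_X, eval₂_C]

theorem adjoin_sub_top {k W : Type} [Field k] [Field W] [Algebra k W] (S : Set W)
    (S' : Set (IntermediateField.adjoin k S))
    (h : (IntermediateField.adjoin k S).val '' S' = S) :
    IntermediateField.adjoin k S' = ⊤ := by
  apply IntermediateField.map_injective (IntermediateField.adjoin k S).val
  rw [IntermediateField.adjoin_map, ← AlgHom.fieldRange_eq_map,
    IntermediateField.fieldRange_val, h]

/-- a point of the generic diagonal hypersurface -/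
theorem case_A {k κ : Type} [Field k] [CharZero k] [Field κ] [Algebra k κ] {r e : ℕ}
    (he : 1 ≤ e) (b : Fin r → κ) (hb : AlgebraicIndependent k b) (z : Fin r → κ) (hz0 : z ≠ 0)
    (halg : ∀ i, IsAlgebraic (IntermediateField.adjoin k (Set.range b)) (z i))
    (hq : ∑ i, b i * z i ^ e = 0) :
    (IntermediateField.adjoin k (Set.range b)).relfinrank
      (IntermediateField.adjoin k (Set.range b) ⊔ IntermediateField.adjoin k (Set.range z)) ≠ 0 ∧
    e ∣ (IntermediateField.adjoin k (Set.range b)).relfinrank
      (IntermediateField.adjoin k (Set.range b) ⊔ IntermediateField.adjoin k (Set.range z)) := by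
  set A0 := IntermediateField.adjoin k (Set.range b) with hA0
  rw [← res_adjoin, ← fin_rel]
  have hfd : FiniteDimensional A0 (IntermediateField.adjoin A0 (Set.range z)) :=
    IntermediateField.finiteDimensional_adjoin fun x hx => by
      obtain ⟨i, rfl⟩ := hx
      exact (halg i).isIntegral
  refine ⟨Nat.pos_iff_ne_zero.1 finrank_pos, ?_⟩
  let b' : Fin r → A0 := fun i => ⟨b i, IntermediateField.subset_adjoin _ _ ⟨i, rfl⟩⟩
  let z' : Fin r → IntermediateField.adjoin A0 (Set.range z) :=
    fun i => ⟨z i, IntermediateField.subset_adjoin _ _ ⟨i, rfl⟩⟩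
  have hb' : AlgebraicIndependent k b' := AlgebraicIndependent.of_comp A0.val hb
  refine s_one k r e r ∅ (fun i => X i ^ e) ?_ ?_ ?_ Empty A0
    (IntermediateField.adjoin A0 (Set.range z)) b' Empty.elim ?_ ?_ z' ?_ ?_ ?_
  · intro G hG
    exact absurd hG (Set.notMem_empty G)
  · intro i
    simpa using (isHomogeneous_X k i).pow e
  · intro κ' _ φ z' _ hΦ
    funext i
    have h1 := hΦ i
    simp only [eval₂_pow, eval₂_X] at h1
    exact pow_eq_zero_iff (by omega) |>.1 h1
  · have h1 := hb'.comp (Equiv.sumEmpty (Fin r) Empty) (Equiv.injective _)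
    convert h1 using 1
    funext i
    rcases i with i | i
    · rfl
    · exact i.elim
  · apply adjoin_sub_top
    ext x
    constructor
    · rintro ⟨y, (⟨i, rfl⟩ | ⟨i, rfl⟩), rfl⟩
      · exact ⟨i, rfl⟩
      · exact i.elim
    · rintro ⟨i, rfl⟩
      exact ⟨b' i, Or.inl ⟨i, rfl⟩, rfl⟩
  · intro h
    apply hz0
    funext i
    exact congrArg Subtype.val (congrFun h i)
  · intro G hG
    exact absurd hG (Set.notMem_empty G)
  · apply Subtype.ext
    rw [ZeroMemClass.coe_zero, ← hq]
    simp only [eval₂_pow, eval₂_X]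
    push_cast
    rfl

end

end Pool.Agent.X328.FD
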