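import Pool.Agent.X328.FD.Proj

/-! # Degrees of extensions of the constants -/

set_option autoImplicit false

namespace Pool.Agent.X328.FD

open IntermediateField Module

noncomputable section

theorem res_type {k R W : Type} [Field k] [Field R] [Field W] [Algebra k R] [Algebra R W]
    [Algebra k W] [IsScalarTower k R W] (S : Set W) :
    (adjoin R S).restrictScalars k =
      (IsScalarTower.toAlgHom k R W).fieldRange ⊔ adjoin k S := by
  apply le_antisymm
  · intro z hz
    have hz' : z ∈ adjoin R S := hz
    clear hz
    induction hz' using IntermediateField.adjoin_induction with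
    | mem y hy => exact (le_sup_right : adjoin k S ≤ _) (subset_adjoin _ _ hy)
    | algebraMap y =>
      exact (le_sup_left : (IsScalarTower.toAlgHom k R W).fieldRange ≤ _) ⟨y, rfl⟩
    | add y z _ _ hy hz => exact add_mem hy hz
    | inv y _ hy => exact inv_mem hy
    | mul y z _ _ hy hz => exact mul_mem hy hz
  · refine sup_le ?_ ?_
    · rintro _ ⟨y, rfl⟩
      exact (adjoin R S).algebraMap_mem y
    · rw [adjoin_le_iff]
      exact subset_adjoin R S

variable {k Cc W : Type} [Field k] [Field Cc] [Field W] [Algebra k Cc] [Algebra Cc W]
  [Algebra k W] [IsScalarTower k Cc W]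

theorem range_sub (A : IntermediateField k Cc) :
    (IsScalarTower.toAlgHom k A W).fieldRange = A.map (IsScalarTower.toAlgHom k Cc W) := by
  ext x
  constructor
  · rintro ⟨y, rfl⟩
    exact ⟨y.1, y.2, rfl⟩
  · rintro ⟨y, hy, rfl⟩
    exact ⟨⟨y, hy⟩, rfl⟩

theorem res_sub (A : IntermediateField k Cc) (S : Set W) :
    (adjoin A S).restrictScalars k = A.map (IsScalarTower.toAlgHom k Cc W) ⊔ adjoin k S := by
  rw [res_type, range_sub]

/-- the degree of an extension of the constants does not change -/
theorem rel_const {A B : IntermediateField k Cc} (h : A ≤ B) (hfin : A.relfinrank B ≠ 0)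
    (S : Set W) (hld : (adjoin A S).LinearDisjoint Cc) :
    (A.map (IsScalarTower.toAlgHom k Cc W) ⊔ adjoin k S).relfinrank
      (B.map (IsScalarTower.toAlgHom k Cc W) ⊔ adjoin k S) = A.relfinrank B := by
  have hfd : FiniteDimensional A (extendScalars h) := by
    rw [relfinrank_eq_finrank_of_le h] at hfin
    exact FiniteDimensional.of_finrank_pos (Nat.pos_of_ne_zero hfin)
  have hld' : (adjoin A S).LinearDisjoint (extendScalars h) := hld.of_le_right' _
  have hr := hld'.adjoin_rank_eq_rank_right_of_isAlgebraic_right
  have hr' := congrArg Cardinal.toNat hr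
  have h1 : finrank (adjoin A S) (extendScalars (show adjoin A S ≤
      (adjoin (extendScalars h) ((adjoin A S : IntermediateField A W) : Set W)).restrictScalars A
      from subset_adjoin (extendScalars h) ((adjoin A S : IntermediateField A W) : Set W))) =
      finrank A (extendScalars h) := hr'
  rw [← relfinrank_eq_finrank_of_le, ← relfinrank_eq_finrank_of_le] at h1
  have h2 : relfinrank (F := A) (adjoin A S)
      ((adjoin (extendScalars h) ((adjoin A S : IntermediateField A W) : Set W)).restrictScalars A)
      = relfinrank (F := k) ((adjoin A S).restrictScalars k)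
      (((adjoin (extendScalars h)
        ((adjoin A S : IntermediateField A W) : Set W)).restrictScalars A).restrictScalars k) := rfl
  rw [h2, res_sub] at h1
  rw [← h1]
  congr 1
  apply le_antisymm
  · refine sup_le ?_ ?_
    · rintro _ ⟨y, hy, rfl⟩
      exact (adjoin (extendScalars h) ((adjoin A S : IntermediateField A W) : Set W)).algebraMap_mem
        (⟨y, hy⟩ : extendScalars h)
    · rw [adjoin_le_iff]
      intro y hy
      refine subset_adjoin (extendScalars h) ((adjoin A S : IntermediateField A W) : Set W) ?_
      exact subset_adjoin A S hy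
  · intro z hz
    have hz' : z ∈ adjoin (extendScalars h) ((adjoin A S : IntermediateField A W) : Set W) := hz
    clear hz
    induction hz' using IntermediateField.adjoin_induction with
    | mem y hy =>
      have h3 : y ∈ (adjoin A S).restrictScalars k := hy
      rw [res_sub] at h3
      exact (sup_le_sup_right (IntermediateField.map_mono _ h) _ :
        A.map (IsScalarTower.toAlgHom k Cc W) ⊔ adjoin k S ≤
          B.map (IsScalarTower.toAlgHom k Cc W) ⊔ adjoin k S) h3
    | algebraMap y =>
      exact (le_sup_left : B.map (IsScalarTower.toAlgHom k Cc W) ≤ _) ⟨y.1, y.2, rfl⟩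
    | add y z _ _ hy hz => exact add_mem hy hz
    | inv y _ hy => exact inv_mem hy
    | mul y z _ _ hy hz => exact mul_mem hy hz

end

end Pool.Agent.X328.FD
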