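import Pool.Agent.X328.FD.Cases

/-! # The main argument -/

set_option autoImplicit false

namespace Pool.Agent.X328.FD

open MvPolynomial Pool.Agent.Y201.LI Module FF

noncomputable section

/-- the degree over the image of a field -/
theorem finrank_range {k K W : Type} [Field k] [Field K] [Field W] [Algebra k K] [Algebra K W]
    [Algebra k W] [IsScalarTower k K W] :
    finrank (IsScalarTower.toAlgHom k K W).fieldRange W = finrank K W := by
  let i : K ≃+* (IsScalarTower.toAlgHom k K W).fieldRange :=
    (AlgEquiv.ofInjectiveField (IsScalarTower.toAlgHom k K W)).toRingEquiv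
  refine (Algebra.finrank_eq_of_equiv_equiv i (RingEquiv.refl W) ?_).symm
  ext x
  rfl

/-- the field generated by the images -/
theorem fieldRange_eq {k K W : Type} [Field k] [Field K] [Field W] [Algebra k K] [Algebra K W]
    [Algebra k W] [IsScalarTower k K W] (S : Set K) (hS : IntermediateField.adjoin k S = ⊤) :
    (IsScalarTower.toAlgHom k K W).fieldRange =
      IntermediateField.adjoin k (algebraMap K W '' S) := by
  rw [AlgHom.fieldRange_eq_map, ← hS, IntermediateField.adjoin_map]
  rfl

/-- generators in a tower -/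
theorem tower_top {k B K : Type} [Field k] [Field B] [Field K] [Algebra k B] [Algebra B K]
    [Algebra k K] [IsScalarTower k B K] (S : Set B) (hS : IntermediateField.adjoin k S = ⊤)
    (T : Set K) (hT : IntermediateField.adjoin B T = ⊤) :
    IntermediateField.adjoin k (algebraMap B K '' S ∪ T) = ⊤ := by
  rw [eq_top_iff]
  intro x _
  have hB : ∀ y : B, algebraMap B K y ∈
      IntermediateField.adjoin k (algebraMap B K '' S ∪ T) := by
    intro y
    have h1 : y ∈ IntermediateField.adjoin k S := by rw [hS]; trivial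
    have h2 : algebraMap B K y ∈ (IntermediateField.adjoin k S).map
        (IsScalarTower.toAlgHom k B K) := ⟨y, h1, rfl⟩
    rw [IntermediateField.adjoin_map] at h2
    exact IntermediateField.adjoin.mono _ _ _ Set.subset_union_left h2
  have h3 : x ∈ IntermediateField.adjoin B T := by rw [hT]; trivial
  induction h3 using IntermediateField.adjoin_induction with
  | mem y hy => exact IntermediateField.subset_adjoin _ _ (Or.inr hy)
  | algebraMap y => exact hB y
  | add y z _ _ hy hz => exact add_mem (hy trivial) (hz trivial)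
  | inv y _ hy => exact inv_mem (hy trivial)
  | mul y z _ _ hy hz => exact mul_mem (hy trivial) (hz trivial)

theorem sum_form {R : Type} [CommRing R] {r e : ℕ} (b : Fin r → R) :
    (∑ i, C (b i) * X i ^ e : MvPolynomial (Fin r) R).IsHomogeneous e := by
  refine IsHomogeneous.sum _ _ _ fun i _ => ?_
  simpa using (isHomogeneous_C _ (b i)).mul ((isHomogeneous_X R i).pow e)

section

variable {k B K Ω ι : Type} [Field k] [CharZero k] [Field B] [Field K] [Field Ω] [Algebra k B]
  [Algebra B K] [Algebra k K] [IsScalarTower k B K] [Algebra K Ω] [Algebra k Ω]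
  [IsScalarTower k K Ω] [Finite ι]

theorem place_dvd {n e c m : ℕ} (he : 1 ≤ e)
    (Y : Fin (n + 2) → B) (hY : AlgebraicIndependent k Y)
    (hYtop : IntermediateField.adjoin k (Set.range Y) = ⊤)
    (b' : Fin (n + 2) → K) (u : ι → K) (hbu : AlgebraicIndependent B (Sum.elim b' u))
    (hbutop : IntermediateField.adjoin B (Set.range b' ∪ Set.range u) = ⊤)
    {f g : MvPolynomial (Fin (n + 3)) k} (hf : f.IsHomogeneous (c + e))
    (hg : g.IsHomogeneous c) (hf0 : f ≠ 0) (hg0 : g ≠ 0)
    (a : Fin (n + 3) → Ω) {τ γ : Ω} (hτ0 : τ ≠ 0)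
    (hab : ∀ i : Fin (n + 2), τ * a i.succ = algebraMap K Ω (b' i))
    (hγ : τ * a 0 + ∑ i, algebraMap K Ω (b' i) * algebraMap K Ω (algebraMap B K (Y i)) ^ e = γ)
    (L : IntermediateField k Ω)
    (hL : ∀ z ∈ L, IsAlgebraic (IntermediateField.adjoin k (Set.range a)) z)
    (G : Fin (n + 3) → MvPolynomial (Fin m) Ω) (hGL : ∀ i α, (G i).coeff α ∈ L)
    (hF : aeval G (map (algebraMap k Ω) f + map (algebraMap k Ω) g *
      ∑ i, C (a i) * X i ^ e) = 0)
    (t : Fin m → Ω) (hx0 : eval t (G 0) ≠ 0)
    (hx : ∀ i : Fin (n + 2), eval t (G i.succ) =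
      algebraMap K Ω (algebraMap B K (Y i)) * eval t (G 0))
    (w : Place K Ω) [FiniteDimensional K w.RF] (hw : 0 < w.ord γ) : e ∣ w.deg := by
  have hCK : CharZero K := charZero_of_injective_algebraMap (algebraMap k K).injective
  have hCB : CharZero B := charZero_of_injective_algebraMap (algebraMap k B).injective
  have hCΩ : CharZero Ω := charZero_of_injective_algebraMap (algebraMap k Ω).injective
  let _ : Algebra k w.RF := ((algebraMap K w.RF).comp (algebraMap k K)).toAlgebra
  have _ : IsScalarTower k K w.RF := IsScalarTower.of_algebraMap_eq' rfl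
  -- the point (1, Y)
  set YK : Fin (n + 2) → K := fun i => algebraMap B K (Y i) with hYK
  have hYK' : AlgebraicIndependent k YK :=
    hY.map' (f := IsScalarTower.toAlgHom k B K) (algebraMap B K).injective
  set yy : Fin (n + 3) → K := Fin.cons 1 YK with hyy
  have hgK : aeval yy g ≠ 0 := form_ne hYK' hg hg0
  have hfK : aeval yy f ≠ 0 := form_ne hYK' hf hf0
  have hxy : ∀ i, eval t (G i) = eval t (G 0) * algebraMap K Ω (yy i) := by
    intro i
    refine Fin.cases ?_ (fun j => ?_) i
    · rw [hyy, Fin.cons_zero, map_one, mul_one]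
    · rw [hyy, Fin.cons_succ, hx, mul_comm]
  -- the form
  set F : MvPolynomial (Fin (n + 3)) Ω := map (algebraMap k Ω) f + map (algebraMap k Ω) g *
      ∑ i, C (a i) * X i ^ e with hFdef
  have hFh : F.IsHomogeneous (c + e) := (hf.map _).add ((hg.map _).mul (sum_form a))
  have hFy : aeval (fun i => algebraMap K Ω (yy i)) F = 0 := by
    have h1 := comp_aeval_apply G (aeval t : MvPolynomial (Fin m) Ω →ₐ[Ω] Ω) F
    rw [hF, map_zero] at h1
    have h2 : (fun i => (aeval t : MvPolynomial (Fin m) Ω →ₐ[Ω] Ω) (G i)) =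
        fun i => eval t (G 0) * algebraMap K Ω (yy i) := by
      funext i
      rw [← hxy i, aeval_eq_eval]
    rw [h2, aeval_smul_form _ _ hFh] at h1
    exact (mul_eq_zero.1 h1.symm).resolve_left (pow_ne_zero _ hx0)
  have hmapK : ∀ h : MvPolynomial (Fin (n + 3)) k,
      aeval (fun i => algebraMap K Ω (yy i)) h = algebraMap K Ω (aeval yy h) := by
    intro h
    exact (comp_aeval_apply yy (IsScalarTower.toAlgHom k K Ω) h).symm
  have hrel : τ * algebraMap K Ω (aeval yy f) + algebraMap K Ω (aeval yy g) * γ = 0 := by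
    have h1 := congrArg (fun z => τ * z) hFy
    simp only [mul_zero] at h1
    rw [hFdef, map_add, map_mul, aeval_map_algebraMap, aeval_map_algebraMap, hmapK, hmapK,
      map_sum] at h1
    simp only [map_mul, aeval_C, map_pow, aeval_X] at h1
    rw [Fin.sum_univ_succ] at h1
    simp only [hyy, Fin.cons_zero, Fin.cons_succ, map_one, one_pow, mul_one] at h1
    rw [← h1, ← hγ]
    have h2 : ∑ i, algebraMap K Ω (b' i) * algebraMap K Ω (algebraMap B K (Y i)) ^ e =
        τ * ∑ i : Fin (n + 2), (algebraMap Ω Ω) (a i.succ) * algebraMap K Ω (YK i) ^ e := by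
      rw [Finset.mul_sum]
      refine Finset.sum_congr rfl fun i _ => ?_
      rw [← hab i]
      simp only [Algebra.algebraMap_self, RingHom.id_apply, hYK]
      ring
    rw [h2]
    simp only [Algebra.algebraMap_self, RingHom.id_apply]
    ring
  -- the order of τ
  have hγ0 : γ ≠ 0 := by
    rintro rfl
    rw [w.ord_zero] at hw
    exact lt_irrefl _ hw
  have hgΩ : algebraMap K Ω (aeval yy g) ≠ 0 := by
    rw [Ne, map_eq_zero]
    exact hgK
  have hfΩ : algebraMap K Ω (aeval yy f) ≠ 0 := by
    rw [Ne, map_eq_zero]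
    exact hfK
  have hoτ : 0 < w.ord τ := by
    have h1 : τ * algebraMap K Ω (aeval yy f) = -(algebraMap K Ω (aeval yy g) * γ) := by
      linear_combination hrel
    have h2 := congrArg w.ord h1
    rw [w.ord_neg, w.ord_mul hτ0 hfΩ, w.ord_mul hgΩ hγ0, w.ord_const hfK, w.ord_const hgK] at h2
    omega
  have hτr : w.Reg τ := Or.inr hoτ.le
  have hτ1 : w.red τ = 0 := (w.red_eq_zero_iff hτr).2 (Or.inr hoτ)
  have hγr : w.Reg γ := Or.inr hw.le
  have hγ1 : w.red γ = 0 := (w.red_eq_zero_iff hγr).2 (Or.inr hw)
  -- the coefficients b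
  set b : Fin (n + 3) → Ω := fun i => τ * a i with hb
  have hb' : ∀ i : Fin (n + 2), b i.succ = algebraMap K Ω (b' i) := hab
  have hbr' : ∀ i : Fin (n + 2), w.Reg (b i.succ) := fun i => by
    rw [hb']
    exact w.reg_const _
  have hYr : ∀ i, w.Reg (algebraMap K Ω (YK i) ^ e) := fun i => by
    rw [← map_pow]
    exact w.reg_const _
  have hO : ∀ {x : Ω}, w.Reg x ↔ x ∈ w.O := Iff.rfl
  have hsumr : w.Reg (∑ i, b i.succ * algebraMap K Ω (YK i) ^ e) :=
    hO.2 (sum_mem fun i _ => hO.1 (w.reg_mul (hbr' i) (hYr i)))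
  have hb0 : b 0 = γ - ∑ i, b i.succ * algebraMap K Ω (YK i) ^ e := by
    rw [← hγ]
    simp only [hb', hYK]
    rw [hb]
    ring
  have hb0r : w.Reg (b 0) := by
    rw [hb0, sub_eq_add_neg]
    exact w.reg_add hγr (w.reg_neg hsumr)
  have hbr : ∀ i, w.Reg (b i) := fun i => Fin.cases hb0r hbr' i
  -- residues of sums
  have hredsum : ∀ {r : ℕ} (x : Fin r → Ω), (∀ i, w.Reg (x i)) →
      w.Reg (∑ i, x i) ∧ w.red (∑ i, x i) = ∑ i, w.red (x i) := by
    intro r x hx
    have := red_aeval_k w x hx (∑ i, X i : MvPolynomial (Fin r) k)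
    simpa only [map_sum, aeval_X] using this
  have hredb0 : w.red (b 0) + ∑ i : Fin (n + 2), w.red (b i.succ) *
      algebraMap K w.RF (YK i) ^ e = 0 := by
    have h1 := (hredsum (fun i => b i.succ * algebraMap K Ω (YK i) ^ e)
      fun i => w.reg_mul (hbr' i) (hYr i)).2
    rw [hb0, w.red_sub hγr hsumr, hγ1, h1]
    have h2 : ∀ i, w.red (b i.succ * algebraMap K Ω (YK i) ^ e) =
        w.red (b i.succ) * algebraMap K w.RF (YK i) ^ e := by
      intro i
      rw [w.red_mul (hbr' i) (hYr i), w.red_pow (w.reg_const _)]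
      rfl
    rw [Finset.sum_congr rfl fun i _ => h2 i]
    ring
  -- the curve
  obtain ⟨v, hv, hvL⟩ : ∃ v : Fin m → Ω, eval v (G 0) ≠ 0 ∧ ∀ l, v l ∈ L := by
    by_contra hcon
    push Not at hcon
    have h1 : G 0 = 0 := by
      refine MvPolynomial.funext_set (fun _ => (L : Set Ω)) (fun _ => ?_) fun x hx => ?_
      · refine Set.infinite_of_injective_forall_mem (f := fun n : ℕ => (n : Ω))
          Nat.cast_injective fun n => ?_
        exact natCast_mem L n
      · rw [map_zero]
        by_contra hne
        obtain ⟨l, hl⟩ := hcon x hne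
        exact hl (hx l (Set.mem_univ l))
    rw [h1, map_zero] at hx0
    exact hx0 rfl
  set D : ℕ := Finset.univ.sup fun i => (G i).totalDegree with hD
  have hGD : ∀ i, (G i).totalDegree ≤ D := fun i =>
    Finset.le_sup (f := fun i => (G i).totalDegree) (Finset.mem_univ i)
  have hcurve := curve_form v t hGD hFh hF
  have hlam : ∀ i, eval v (G i) ∈ L := by
    intro i
    rw [eval_eq']
    exact sum_mem fun α _ => mul_mem (hGL i α) (prod_mem fun l _ => pow_mem (hvL l) _)
  have hq : ∀ y : Fin (n + 3) → Ω, aeval y (∑ i, C (b i) * X i ^ e : MvPolynomial (Fin (n + 3)) Ω)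
      = ∑ i, b i * y i ^ e := by
    intro y
    simp only [map_sum, map_mul, aeval_C, map_pow, aeval_X, Algebra.algebraMap_self,
      RingHom.id_apply]
  have hg2r : ∀ α, w.Reg ((∑ i, C (b i) * X i ^ e : MvPolynomial (Fin (n + 3)) Ω).coeff α) := by
    intro α
    rw [coeff_sum]
    refine hO.2 (sum_mem fun i _ => ?_)
    rw [coeff_C_mul, coeff_X_pow]
    split_ifs
    · rw [mul_one]
      exact hO.1 (hbr i)
    · rw [mul_zero]
      exact zero_mem _
  have hid : Polynomial.C τ * aeval (fun i => curve D v t (G i)) (map (algebraMap k Ω) f) +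
      aeval (fun i => curve D v t (G i)) (map (algebraMap k Ω) g) *
      aeval (fun i => curve D v t (G i))
        (∑ i, C (b i) * X i ^ e : MvPolynomial (Fin (n + 3)) Ω) = 0 := by
    have h1 : (∑ i, C (b i) * X i ^ e : MvPolynomial (Fin (n + 3)) Ω) =
        C τ * ∑ i, C (a i) * X i ^ e := by
      rw [Finset.mul_sum]
      refine Finset.sum_congr rfl fun i _ => ?_
      rw [hb, C_mul, mul_assoc]
    have h2 := congrArg (fun z => Polynomial.C τ * z) hcurve
    simp only [mul_zero] at h2
    rw [← h2, hFdef, h1]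
    simp only [map_add, map_mul, aeval_C]
    have h3 : algebraMap Ω (Polynomial Ω) τ = Polynomial.C τ := rfl
    rw [h3]
    ring
  have hzero : ∀ i, (curve D v t (G i)).coeff 0 = eval v (G i) := fun i => curve_zero D v t (G i)
  have htop : ∀ i, (curve D v t (G i)).natDegree ≤ D ∧
      (curve D v t (G i)).coeff D = eval t (G i) := fun i => curve_top v t (hGD i)
  have hpath := place_path w (fun i => curve D v t (G i)) (fun i => (htop i).1)
    (g1 := map (algebraMap k Ω) g) (g2 := ∑ i, C (b i) * X i ^ e) (f3 := map (algebraMap k Ω) f)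
    (hg.map _) (sum_form b) (hf.map _)
    (fun α => by rw [coeff_map]; exact (reg_k w _).1) hg2r
    (fun α => by rw [coeff_map]; exact (reg_k w _).1) τ ⟨hτr, hτ1⟩ hid
    ⟨0, by rw [hzero]; exact hv⟩ ⟨0, by rw [(htop 0).2]; exact hx0⟩
  have hredq : ∀ y : Fin (n + 3) → Ω, (∀ i, w.Reg (y i)) →
      w.red (∑ i, b i * y i ^ e) = ∑ i, w.red (b i) * w.red (y i) ^ e := by
    intro y hy
    have hyr : ∀ i, w.Reg (y i ^ e) := fun i => hO.2 (pow_mem (hO.1 (hy i)) e)
    rw [(hredsum (fun i => b i * y i ^ e) fun i => w.reg_mul (hbr i) (hyr i)).2]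
    refine Finset.sum_congr rfl fun i _ => ?_
    rw [w.red_mul (hbr i) (hyr i), w.red_pow (hy i)]
  rcases hpath with ⟨i0, h0, hr, hred⟩ | ⟨i0, h0, hr, hred⟩ | ⟨y, ⟨i0, hi0⟩, hr, hred1, hred2⟩
  · -- the starting point
    simp only [hzero] at h0 hr hred
    rw [hq, hredq _ hr] at hred
    -- the image of K
    set y' : Fin (n + 2) → w.RF := fun i => algebraMap K w.RF (YK i) with hy'
    set u' : ι → w.RF := fun j => algebraMap K w.RF (u j) with hu'
    have hbK : ∀ i : Fin (n + 2), w.red (b i.succ) = algebraMap K w.RF (b' i) := by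
      intro i
      rw [hb']
      rfl
    have hcomp : Sum.elim (Sum.elim (fun i : Fin (n + 2) => w.red (b i.succ)) y') u' =
        algebraMap K w.RF ∘ Sum.elim (Sum.elim b' YK) u := by
      funext i
      rcases i with (i | i) | i
      · exact hbK i
      · rfl
      · rfl
    have hall : AlgebraicIndependent k (Sum.elim (Sum.elim b' YK) u) := by
      have h1 : AlgebraicIndependent k (Sum.elim (Sum.elim b' u) (algebraMap B K ∘ Y)) :=
        hY.sumElim_comp hbu
      have h2 := h1.comp (Sum.elim (Sum.elim (fun i => Sum.inl (Sum.inl i)) fun i => Sum.inr i)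
        fun i => Sum.inl (Sum.inr i)) (by
          rintro ((i | i) | i) ((j | j) | j) h <;>
            simp only [Sum.elim_inl, Sum.elim_inr, Sum.inl.injEq, Sum.inr.injEq,
              reduceCtorEq] at h <;> rw [h])
      convert h2 using 1
      funext i
      rcases i with (i | i) | i <;> rfl
    have hall' : AlgebraicIndependent k
        (Sum.elim (Sum.elim (fun i : Fin (n + 2) => w.red (b i.succ)) y') u') := by
      rw [hcomp]
      exact hall.map' (f := IsScalarTower.toAlgHom k K w.RF) (algebraMap K w.RF).injective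
    have htopK : IntermediateField.adjoin k (Set.range (Sum.elim (Sum.elim b' YK) u)) = ⊤ := by
      have h1 := tower_top (K := K) (Set.range Y) hYtop (Set.range b' ∪ Set.range u) hbutop
      rw [← h1]
      congr 1
      rw [Set.Sum.elim_range, Set.Sum.elim_range, ← Set.range_comp]
      rw [Set.union_comm (Set.range b'), Set.union_assoc]
      rfl
    have hrange : (IsScalarTower.toAlgHom k K w.RF).fieldRange =
        IntermediateField.adjoin k (Set.range
          (Sum.elim (Sum.elim (fun i : Fin (n + 2) => w.red (b i.succ)) y') u')) := by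
      rw [fieldRange_eq _ htopK, hcomp, Set.range_comp]
    have hfr : finrank (IntermediateField.adjoin k (Set.range
        (Sum.elim (Sum.elim (fun i : Fin (n + 2) => w.red (b i.succ)) y') u'))) w.RF =
        w.deg := by
      rw [← hrange, finrank_range]
      rfl
    have hpos : 0 < w.deg := finrank_pos
    have hfd : FiniteDimensional (IntermediateField.adjoin k (Set.range
        (Sum.elim (Sum.elim (fun i : Fin (n + 2) => w.red (b i.succ)) y') u'))) w.RF :=
      FiniteDimensional.of_finrank_pos (by rw [hfr]; exact hpos)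
    obtain ⟨hbb, hreg⟩ := reg (k := k) (W := w.RF) he (fun i => w.red (b i)) y' u' hredb0 hall'
      (fun z => Algebra.IsAlgebraic.isAlgebraic z)
    rw [hfr] at hreg
    -- the coordinates of the starting point
    set z : Fin (n + 3) → w.RF := fun i => w.red (eval v (G i) / eval v (G i0)) with hz
    have hz0 : z ≠ 0 := by
      intro h
      have h1 := congrFun h i0
      simp only [hz, div_self h0, w.red_one, Pi.zero_apply] at h1
      exact one_ne_zero h1
    have hzalg : ∀ i, IsAlgebraic (IntermediateField.adjoin k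
        (Set.range fun i => w.red (b i))) (z i) := by
      intro i
      refine alg_red w b hbr hbb hτ0 hτr hτ1 (hr i) ?_
      have h1 : (fun i => b i / τ) = a := by
        funext i
        rw [hb]
        field_simp
      rw [h1]
      exact hL _ (div_mem (hlam i) (hlam i0))
    obtain ⟨hne, hdvd⟩ := case_A he (fun i => w.red (b i)) hbb z hz0 hzalg hred
    exact hdvd.trans (hreg _ le_sup_left hne)
  · -- the end point
    exfalso
    simp only [(htop _).2] at h0 hr hred
    have hy0 : yy i0 ≠ 0 := by
      intro h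
      rw [hxy i0, h, map_zero, mul_zero] at h0
      exact h0 rfl
    have h1 : (fun i => eval t (G i) / eval t (G i0)) =
        fun i => algebraMap K Ω (yy i) / algebraMap K Ω (yy i0) := by
      funext i
      rw [hxy i, hxy i0, mul_div_mul_left _ _ hx0]
    rw [h1, aeval_div _ _ (hg.map _), aeval_map_algebraMap, hmapK, ← map_pow, ← map_div₀] at hred
    have h2 : w.red (algebraMap K Ω (aeval yy g / yy i0 ^ c)) =
        algebraMap K w.RF (aeval yy g / yy i0 ^ c) := rfl
    rw [h2, map_eq_zero] at hred
    exact div_ne_zero hgK (pow_ne_zero _ hy0) hred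
  · -- the middle point
    rw [hq] at hred2
    rw [hredq y hr] at hred2
    have hz0 : (fun i => w.red (y i)) ≠ 0 := by
      intro h
      have h1 := congrFun h i0
      simp only [hi0, w.red_one, Pi.zero_apply] at h1
      exact one_ne_zero h1
    have hzg : aeval (fun i => w.red (y i)) g = 0 := by
      have h1 := (red_aeval_k w y hr g).2
      rw [aeval_map_algebraMap] at hred1
      rw [← h1, hred1]
    refine case_C (k := k) (B := B) (K := K) (κ := w.RF) ?_ he Y hY b' u hbu hbutop hg hg0
      (fun i => w.red (y i)) hz0 hzg ?_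
    · ext x
      change algebraMap K w.RF (algebraMap k K x) = _
      rw [IsScalarTower.algebraMap_apply k B K]
      rfl
    · rw [Fin.sum_univ_succ] at hred2
      have h1 : ∀ i : Fin (n + 2), algebraMap K w.RF (b' i) = w.red (b i.succ) := by
        intro i
        rw [hb']
        rfl
      simp only [h1]
      have h2 : ∑ i : Fin (n + 2), w.red (b i.succ) * (w.red (y i.succ) ^ e -
          algebraMap K w.RF (algebraMap B K (Y i)) ^ e * w.red (y 0) ^ e) =
          ∑ i : Fin (n + 2), w.red (b i.succ) * w.red (y i.succ) ^ e -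
          (∑ i : Fin (n + 2), w.red (b i.succ) * algebraMap K w.RF (YK i) ^ e) *
            w.red (y 0) ^ e := by
        rw [Finset.sum_mul, ← Finset.sum_sub_distrib]
        refine Finset.sum_congr rfl fun i _ => ?_
        rw [hYK]
        ring
      rw [h2]
      linear_combination hred2 - w.red (y 0) ^ e * hredb0

/-- **The main divisibility.** -/
theorem core {n e c m : ℕ} (he : 1 ≤ e)
    (Y : Fin (n + 2) → B) (hY : AlgebraicIndependent k Y)
    (hYtop : IntermediateField.adjoin k (Set.range Y) = ⊤)
    (b' : Fin (n + 2) → K) (u : ι → K) (hbu : AlgebraicIndependent B (Sum.elim b' u))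
    (hbutop : IntermediateField.adjoin B (Set.range b' ∪ Set.range u) = ⊤)
    {f g : MvPolynomial (Fin (n + 3)) k} (hf : f.IsHomogeneous (c + e))
    (hg : g.IsHomogeneous c) (hf0 : f ≠ 0) (hg0 : g ≠ 0)
    (a : Fin (n + 3) → Ω) {τ γ : Ω} (hτ0 : τ ≠ 0)
    (hab : ∀ i : Fin (n + 2), τ * a i.succ = algebraMap K Ω (b' i))
    (hγ : τ * a 0 + ∑ i, algebraMap K Ω (b' i) * algebraMap K Ω (algebraMap B K (Y i)) ^ e = γ)
    (L : IntermediateField k Ω)
    (hL : ∀ z ∈ L, IsAlgebraic (IntermediateField.adjoin k (Set.range a)) z)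
    (G : Fin (n + 3) → MvPolynomial (Fin m) Ω) (hGL : ∀ i α, (G i).coeff α ∈ L)
    (hF : aeval G (map (algebraMap k Ω) f + map (algebraMap k Ω) g *
      ∑ i, C (a i) * X i ^ e) = 0)
    (t : Fin m → Ω) (hx0 : eval t (G 0) ≠ 0)
    (hx : ∀ i : Fin (n + 2), eval t (G i.succ) =
      algebraMap K Ω (algebraMap B K (Y i)) * eval t (G 0))
    (hγt : Transcendental K γ) (hfin : FiniteDimensional (IntermediateField.adjoin K {γ}) Ω) :
    e ∣ finrank (IntermediateField.adjoin K {γ}) Ω := by
  have hCK : CharZero K := charZero_of_injective_algebraMap (algebraMap k K).injective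
  have hFF : IsFF K Ω := IsFF.of_finite hγt hfin
  have hγt' : Transcendental K γ⁻¹ := fun h => hγt (by simpa using h.inv)
  have h1 := ddeg_polar (k := K) hγt'
  rw [adjoin_inv] at h1
  have h2 : (e : ℤ) ∣ (finrank (IntermediateField.adjoin K {γ}) Ω : ℤ) := by
    rw [← h1]
    unfold ddeg
    refine Finset.dvd_sum fun w hw => ?_
    rw [Finsupp.mem_support_iff, polar_apply, w.ord_inv, neg_neg] at hw
    have hw' : 0 < w.ord γ := by
      by_contra hcon
      exact hw (max_eq_right (not_lt.1 hcon))
    have h3 := place_dvd he Y hY hYtop b' u hbu hbutop hf hg hf0 hg0 a hτ0 hab hγ L hL G hGL hF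
      t hx0 hx w hw'
    exact (Int.natCast_dvd_natCast.2 h3).mul_left _
  exact_mod_cast h2

end

end

end Pool.Agent.X328.FD
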