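import Pool.Agent.X328.FD.Form

/-! # The curve joining two points of a parametrized variety -/

set_option autoImplicit false

namespace Pool.Agent.X328.FD

open Polynomial

noncomputable section

variable {M : Type} [Field M] {m : ℕ}

/-- the curve `(1 + s) ^ D G ((v + s t) / (1 + s))` -/
def curve (D : ℕ) (v t : Fin m → M) (G : MvPolynomial (Fin m) M) : M[X] :=
  ∑ α ∈ G.support, C (G.coeff α) * ((1 + X) ^ (D - ∑ l, α l) * ∏ l, (C (v l) + X * C (t l)) ^ α l)

theorem curve_zero (D : ℕ) (v t : Fin m → M) (G : MvPolynomial (Fin m) M) :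
    (curve D v t G).coeff 0 = MvPolynomial.eval v G := by
  rw [coeff_zero_eq_eval_zero, curve, eval_finsetSum, MvPolynomial.eval_eq']
  refine Finset.sum_congr rfl fun α _ => ?_
  simp [eval_prod]

theorem sum_le_total {D : ℕ} {G : MvPolynomial (Fin m) M} (hG : G.totalDegree ≤ D)
    {α : Fin m →₀ ℕ} (hα : α ∈ G.support) : ∑ l, α l ≤ D := by
  refine le_trans ?_ hG
  refine le_trans (le_of_eq ?_) (MvPolynomial.le_totalDegree hα)
  rw [Finsupp.sum_fintype]
  simp

theorem curve_top {D : ℕ} (v t : Fin m → M) {G : MvPolynomial (Fin m) M}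
    (hG : G.totalDegree ≤ D) :
    (curve D v t G).natDegree ≤ D ∧ (curve D v t G).coeff D = MvPolynomial.eval t G := by
  have hl : ∀ l, (C (v l) + X * C (t l)).natDegree ≤ 1 := by
    intro l
    compute_degree
  have hl1 : ∀ l, (C (v l) + X * C (t l)).coeff 1 = t l := by
    intro l
    rw [coeff_add, coeff_C, if_neg one_ne_zero, zero_add, coeff_mul_C, coeff_X_one, one_mul]
  have key : ∀ α ∈ G.support,
      (C (G.coeff α) * ((1 + X) ^ (D - ∑ l, α l) *
        ∏ l, (C (v l) + X * C (t l)) ^ α l)).natDegree ≤ D ∧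
      (C (G.coeff α) * ((1 + X) ^ (D - ∑ l, α l) *
        ∏ l, (C (v l) + X * C (t l)) ^ α l)).coeff D = G.coeff α * ∏ l, t l ^ α l := by
    intro α hα
    have h1 := sum_le_total hG hα
    have h2 := prod_top hl α Finset.univ
    have h3 : ((1 + X : M[X]) ^ (D - ∑ l, α l)).natDegree ≤ D - ∑ l, α l := by
      refine (natDegree_pow_le_of_le _ (?_ : (1 + X : M[X]).natDegree ≤ 1)).trans
        (by rw [mul_one])
      compute_degree
    have h4 : ((1 + X : M[X]) ^ (D - ∑ l, α l)).coeff (D - ∑ l, α l) = 1 := by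
      have h5 : (1 + X : M[X]).natDegree ≤ 1 := by compute_degree
      have h6 := coeff_pow_of_natDegree_le (m := D - ∑ l, α l) h5
      rw [mul_one] at h6
      rw [h6, coeff_add, coeff_one, if_neg one_ne_zero, coeff_X_one, zero_add, one_pow]
    rw [mul_one] at h2
    have hD : D = (D - ∑ l, α l) + ∑ l, α l := by omega
    constructor
    · refine (natDegree_C_mul_le _ _).trans (natDegree_mul_le.trans ?_)
      calc _ ≤ (D - ∑ l, α l) + ∑ l, α l := add_le_add h3 h2.1
        _ = D := hD.symm
    · rw [coeff_C_mul]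
      congr 1
      conv_lhs => rw [hD]
      have h7 : D - ∑ l, α l + ∑ l, α l - ∑ l, α l = D - ∑ l, α l := by omega
      rw [h7, coeff_mul_add_eq_of_natDegree_le h3 h2.1, h4, h2.2, one_mul]
      exact Finset.prod_congr rfl fun l _ => by rw [hl1]
  constructor
  · exact natDegree_sum_le_of_forall_le _ _ fun α hα => (key α hα).1
  · rw [curve, finsetSum_coeff, MvPolynomial.eval_eq']
    exact Finset.sum_congr rfl fun α hα => (key α hα).2

theorem curve_eval {D : ℕ} (v t : Fin m → M) {G : MvPolynomial (Fin m) M}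
    (hG : G.totalDegree ≤ D) {s : M} (hs : 1 + s ≠ 0) :
    eval s (curve D v t G) =
      (1 + s) ^ D * MvPolynomial.eval (fun l => (v l + s * t l) / (1 + s)) G := by
  rw [curve, eval_finsetSum, MvPolynomial.eval_eq', Finset.mul_sum]
  refine Finset.sum_congr rfl fun α hα => ?_
  have h1 := sum_le_total hG hα
  have h2 : ∏ l, ((v l + s * t l) / (1 + s)) ^ α l =
      (∏ l, (v l + s * t l) ^ α l) / (1 + s) ^ ∑ l, α l := by
    rw [← Finset.prod_pow_eq_pow_sum, ← Finset.prod_div_distrib]
    exact Finset.prod_congr rfl fun l _ => div_pow _ _ _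
  have h3 : (1 + s) ^ D = (1 + s) ^ (D - ∑ l, α l) * (1 + s) ^ ∑ l, α l := by
    rw [← pow_add, Nat.sub_add_cancel h1]
  rw [h2, h3]
  simp only [eval_mul, eval_C, eval_pow, eval_add, eval_one, eval_X, eval_prod]
  have h4 : (1 + s) ^ ∑ l, α l ≠ 0 := pow_ne_zero _ hs
  field_simp

theorem aeval_smul_form {σ : Type} (y : σ → M) (u : M) {d : ℕ} {G : MvPolynomial σ M}
    (hG : G.IsHomogeneous d) :
    MvPolynomial.aeval (fun i => u * y i) G = u ^ d * MvPolynomial.aeval y G := by
  rw [MvPolynomial.aeval_def, MvPolynomial.aeval_def, MvPolynomial.eval₂_eq,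
    MvPolynomial.eval₂_eq, Finset.mul_sum]
  refine Finset.sum_congr rfl fun m hm => ?_
  have h1 : ∑ i ∈ m.support, m i = d := by
    have := hG (MvPolynomial.mem_support_iff.1 hm)
    rw [Finsupp.weight_apply] at this
    simpa [Finsupp.sum] using this
  have h2 : ∏ i ∈ m.support, (u * y i) ^ m i = (∏ i ∈ m.support, y i ^ m i) * u ^ d := by
    rw [← h1, ← Finset.prod_pow_eq_pow_sum, ← Finset.prod_mul_distrib]
    exact Finset.prod_congr rfl fun i _ => by rw [mul_pow, mul_comm]
  rw [h2]
  ring

/-- a form vanishing at `G` vanishes at the curve -/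
theorem curve_form [Infinite M] {D r d : ℕ} (v t : Fin m → M)
    {G : Fin r → MvPolynomial (Fin m) M} (hG : ∀ i, (G i).totalDegree ≤ D)
    {F : MvPolynomial (Fin r) M} (hF : F.IsHomogeneous d) (h0 : MvPolynomial.aeval G F = 0) :
    MvPolynomial.aeval (fun i => curve D v t (G i)) F = 0 := by
  have h1 : (X + C 1) * MvPolynomial.aeval (fun i => curve D v t (G i)) F = 0 := by
    apply Polynomial.funext
    intro s
    rw [eval_mul, eval_zero]
    by_cases hs : 1 + s = 0
    · rw [eval_add, eval_X, eval_C, add_comm, hs, zero_mul]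
    have h2 := MvPolynomial.comp_aeval_apply (fun i => curve D v t (G i))
      (Polynomial.aeval s : M[X] →ₐ[M] M) F
    rw [Polynomial.coe_aeval_eq_eval] at h2
    have h3 : eval s (MvPolynomial.aeval (fun i => curve D v t (G i)) F) = 0 := by
      rw [h2]
      have h4 : (fun i => eval s (curve D v t (G i))) =
          fun i => (1 + s) ^ D *
            MvPolynomial.eval (fun l => (v l + s * t l) / (1 + s)) (G i) := by
        funext i
        rw [curve_eval v t (hG i) hs]
      rw [h4, aeval_smul_form _ _ hF]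
      have h5 := MvPolynomial.comp_aeval_apply G
        (MvPolynomial.aeval (fun l => (v l + s * t l) / (1 + s)) :
          MvPolynomial (Fin m) M →ₐ[M] M) F
      rw [h0, map_zero] at h5
      have h6 : (fun i => MvPolynomial.eval (fun l => (v l + s * t l) / (1 + s)) (G i)) =
          fun i => (MvPolynomial.aeval (fun l => (v l + s * t l) / (1 + s)) :
          MvPolynomial (Fin m) M →ₐ[M] M) (G i) := by
        funext i
        rw [MvPolynomial.aeval_eq_eval]
      rw [h6, ← h5, mul_zero]
    rw [h3, mul_zero]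
  have h7 : (X + C 1 : M[X]) ≠ 0 := X_add_C_ne_zero 1
  exact (mul_eq_zero.1 h1).resolve_left h7

end

end Pool.Agent.X328.FD
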