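import Pool.Agent.X328.FD.Main

/-! # The final form over the complex numbers -/

set_option autoImplicit false

namespace Pool.Agent.X328.FD

open IntermediateField Module MvPolynomial

noncomputable section

theorem exists_lift {R S σ : Type} [CommRing R] [CommRing S] (φ : R →+* S)
    (p : MvPolynomial σ S) (h : ∀ α, ∃ r, φ r = p.coeff α) : ∃ p', map φ p' = p := by
  choose r hr using h
  refine ⟨∑ α ∈ p.support, monomial α (r α), ?_⟩
  rw [map_sum]
  conv_rhs => rw [← support_sum_monomial_coeff p]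
  refine Finset.sum_congr rfl fun α _ => ?_
  rw [map_monomial, hr]

theorem hom_of_map {R S σ : Type} [CommRing R] [CommRing S] (φ : R →+* S)
    (hφ : Function.Injective φ) {p : MvPolynomial σ R} {d : ℕ} (h : (map φ p).IsHomogeneous d) :
    p.IsHomogeneous d := by
  intro α hα
  refine h (d := α) ?_
  rw [coeff_map]
  intro h0
  exact hα (hφ (by rw [h0, map_zero]))

section frac

variable {m : ℕ}

/-- the field of rational functions -/
abbrev Wf (m : ℕ) : Type := FractionRing (MvPolynomial (Fin m) ℂ)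

/-- the coordinates -/
def tf (m : ℕ) : Fin m → Wf m := fun l => algebraMap (MvPolynomial (Fin m) ℂ) (Wf m) (X l)

theorem aeval_tf (p : MvPolynomial (Fin m) ℂ) :
    aeval (tf m) p = algebraMap (MvPolynomial (Fin m) ℂ) (Wf m) p := by
  have h7 := comp_aeval_apply (X : Fin m → MvPolynomial (Fin m) ℂ)
    (IsScalarTower.toAlgHom ℂ (MvPolynomial (Fin m) ℂ) (Wf m)) p
  rw [aeval_X_left_apply] at h7
  exact h7.symm

theorem tf_indep : AlgebraicIndependent ℂ (tf m) := by
  rw [algebraicIndependent_iff]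
  intro p hp
  rw [aeval_tf] at hp
  exact IsFractionRing.injective (MvPolynomial (Fin m) ℂ) (Wf m) (by rw [map_zero]; exact hp)

theorem tf_top : adjoin ℂ (Set.range (tf m)) = ⊤ := by
  rw [eq_top_iff]
  intro z _
  obtain ⟨p, q, -, rfl⟩ := IsFractionRing.div_surjective (A := MvPolynomial (Fin m) ℂ) z
  have h : ∀ p : MvPolynomial (Fin m) ℂ,
      algebraMap (MvPolynomial (Fin m) ℂ) (Wf m) p ∈ adjoin ℂ (Set.range (tf m)) := by
    intro p
    rw [← aeval_tf, aeval_def, eval₂_eq]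
    exact sum_mem fun α _ => mul_mem ((adjoin ℂ (Set.range (tf m))).algebraMap_mem _)
      (prod_mem fun l _ => pow_mem (subset_adjoin ℂ (Set.range (tf m)) ⟨l, rfl⟩) _)
  exact div_mem (h p) (h q)

end frac

/-- all coefficients of `p` are in the subfield `K` -/
def Over {m : ℕ} (K : Subfield ℂ) (p : MvPolynomial (Fin m) ℂ) : Prop := ∀ α, p.coeff α ∈ K

theorem final_aux {n e c s : ℕ} (he : 1 ≤ e) (hc : 1 ≤ c) (k : Subfield ℂ)
    {f g : MvPolynomial (Fin (n + 3)) ℂ} (hf : f.IsHomogeneous (c + e))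
    (hg : g.IsHomogeneous c) (hg0 : g ≠ 0) (hfk : Over k f) (hgk : Over k g)
    (a : Fin (n + 3) → ℂ) (ha : AlgebraicIndependent k a)
    (K' : IntermediateField k ℂ) (haK : ∀ i, a i ∈ K')
    (G : Fin (n + 3) → MvPolynomial (Fin (n + 1 + s)) ℂ) (hG : ∀ i, Over K'.toSubfield (G i))
    (P Q : Fin s → MvPolynomial (Fin (n + 1 + s)) ℂ) (hP : ∀ j, Over K'.toSubfield (P j))
    (hQ : ∀ j, Over K'.toSubfield (Q j))
    (hGF : aeval G (f + g * ∑ i, C (a i) * X i ^ e) = 0)
    (hdom : ∀ (d : ℕ) (H : MvPolynomial (Fin (n + 3)) ℂ), H.IsHomogeneous d →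
      aeval G H = 0 → f + g * ∑ i, C (a i) * X i ^ e ∣ H) :
    e ∣ (adjoin k (Set.range a)).relfinrank K' *
      finrank (adjoin ℂ ({z : Wf (n + 1 + s) | ∃ i j,
        z = algebraMap (MvPolynomial (Fin (n + 1 + s)) ℂ) (Wf (n + 1 + s)) (G i) /
          algebraMap (MvPolynomial (Fin (n + 1 + s)) ℂ) (Wf (n + 1 + s)) (G j)} ∪
        Set.range fun j =>
          algebraMap (MvPolynomial (Fin (n + 1 + s)) ℂ) (Wf (n + 1 + s)) (P j) /
          algebraMap (MvPolynomial (Fin (n + 1 + s)) ℂ) (Wf (n + 1 + s)) (Q j)))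
          (Wf (n + 1 + s)) := by
  obtain ⟨f', hf'⟩ := exists_lift (algebraMap k ℂ) f (fun α => ⟨⟨f.coeff α, hfk α⟩, rfl⟩)
  obtain ⟨g', hg'⟩ := exists_lift (algebraMap k ℂ) g (fun α => ⟨⟨g.coeff α, hgk α⟩, rfl⟩)
  have hlift : ∀ p : MvPolynomial (Fin (n + 1 + s)) ℂ, Over K'.toSubfield p →
      ∃ p' : MvPolynomial (Fin (n + 1 + s)) K', map (algebraMap K' ℂ) p' = p := fun p hp =>
    exists_lift (algebraMap K' ℂ) p (fun α => ⟨⟨p.coeff α, hp α⟩, rfl⟩)
  choose G' hG' using fun i => hlift (G i) (hG i)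
  choose P' hP' using fun i => hlift (P i) (hP i)
  choose Q' hQ' using fun i => hlift (Q i) (hQ i)
  set t := tf (n + 1 + s) with ht
  set u : Fin s → Wf (n + 1 + s) := fun j =>
    algebraMap (MvPolynomial (Fin (n + 1 + s)) ℂ) (Wf (n + 1 + s)) (P j) /
      algebraMap (MvPolynomial (Fin (n + 1 + s)) ℂ) (Wf (n + 1 + s)) (Q j) with hu
  set x : Fin (n + 3) → Wf (n + 1 + s) := fun i =>
    algebraMap (MvPolynomial (Fin (n + 1 + s)) ℂ) (Wf (n + 1 + s)) (G i) with hx
  have hFh : (f + g * ∑ i, C (a i) * X i ^ e).IsHomogeneous (c + e) :=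
    hf.add (hg.mul (sum_form a))
  have hx0 : x 0 ≠ 0 := by
    intro h
    have h1 : G 0 = 0 := IsFractionRing.injective (MvPolynomial (Fin (n + 1 + s)) ℂ)
      (Wf (n + 1 + s)) (by rw [map_zero]; exact h)
    refine not_dvd_of_deg hFh (isHomogeneous_X ℂ (0 : Fin (n + 3))) (X_ne_zero 0) (by omega)
      (hdom 1 _ (isHomogeneous_X ℂ 0) ?_)
    rw [aeval_X, h1]
  have hfield : adjoin ℂ ({z : Wf (n + 1 + s) | ∃ i j, z = x i / x j} ∪ Set.range u) =
      adjoin ℂ (Set.range (fun i : Fin (n + 2) => x i.succ / x 0) ∪ Set.range u) := by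
    apply le_antisymm
    · rw [adjoin_le_iff]
      have h1 : ∀ i, x i / x 0 ∈ adjoin ℂ
          (Set.range (fun i : Fin (n + 2) => x i.succ / x 0) ∪ Set.range u) := by
        intro i
        refine Fin.cases ?_ (fun j => ?_) i
        · rw [div_self hx0]
          exact one_mem _
        · exact subset_adjoin _ _ (Or.inl ⟨j, rfl⟩)
      rintro _ (⟨i, j, rfl⟩ | ⟨j, rfl⟩)
      · have h2 : x i / x j = (x i / x 0) / (x j / x 0) := by
          rw [div_div_div_cancel_right₀ hx0]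
        rw [h2]
        exact div_mem (h1 i) (h1 j)
      · exact subset_adjoin _ _ (Or.inr ⟨j, rfl⟩)
    · apply adjoin.mono
      rintro _ (⟨i, rfl⟩ | ⟨j, rfl⟩)
      · exact Or.inl ⟨_, _, rfl⟩
      · exact Or.inr ⟨j, rfl⟩
  have hgoal : adjoin ℂ ({z : Wf (n + 1 + s) | ∃ i j,
        z = algebraMap (MvPolynomial (Fin (n + 1 + s)) ℂ) (Wf (n + 1 + s)) (G i) /
          algebraMap (MvPolynomial (Fin (n + 1 + s)) ℂ) (Wf (n + 1 + s)) (G j)} ∪ Set.range u) =
      adjoin ℂ (Set.range (fun i : Fin (n + 2) => x i.succ / x 0) ∪ Set.range u) := hfield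
  rw [hgoal]
  by_cases hfin : finrank (adjoin ℂ (Set.range (fun i : Fin (n + 2) => x i.succ / x 0) ∪
      Set.range u)) (Wf (n + 1 + s)) = 0
  · rw [hfin, mul_zero]
    exact dvd_zero _
  by_cases hfinK : (adjoin k (Set.range a)).relfinrank K' = 0
  · rw [hfinK, zero_mul]
    exact dvd_zero _
  have hmem : ∀ p : MvPolynomial (Fin (n + 1 + s)) K',
      algebraMap (MvPolynomial (Fin (n + 1 + s)) ℂ) (Wf (n + 1 + s))
        (map (algebraMap K' ℂ) p) ∈ adjoin K' (Set.range t) := by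
    intro p
    rw [← aeval_tf, aeval_map_algebraMap, aeval_def, eval₂_eq]
    exact sum_mem fun α _ => mul_mem ((adjoin K' (Set.range t)).algebraMap_mem _)
      (prod_mem fun l _ => pow_mem (subset_adjoin K' (Set.range t) ⟨l, rfl⟩) _)
  refine main_div (k := k) (Cc := ℂ) (W := Wf (n + 1 + s)) (f := f') (g := g') he hc
    (hom_of_map _ (algebraMap k ℂ).injective (by rw [hf']; exact hf))
    (hom_of_map _ (algebraMap k ℂ).injective (by rw [hg']; exact hg)) ?_ a ha K' haK t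
    tf_indep tf_top G' ?_ ?_ u ?_ x ?_ hfin hfinK
  · rintro rfl
    rw [map_zero] at hg'
    exact hg0 hg'.symm
  · rw [hf', hg']
    simp only [hG']
    exact hGF
  · rw [hf', hg']
    simp only [hG']
    exact hdom
  · intro j
    have h1 := hmem (P' j)
    have h2 := hmem (Q' j)
    rw [hP'] at h1
    rw [hQ'] at h2
    exact div_mem h1 h2
  · intro i
    rw [hG', ht, aeval_tf]

theorem final_div {n e c s : ℕ} (hn : 1 ≤ n) (he : 1 ≤ e) (hc : 1 ≤ c) (k : Subfield ℂ)
    {f g : MvPolynomial (Fin (n + 2)) ℂ} (hf : f.IsHomogeneous (c + e))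
    (hg : g.IsHomogeneous c) (hg0 : g ≠ 0) (hfk : Over k f) (hgk : Over k g)
    (a : Fin (n + 2) → ℂ) (ha : AlgebraicIndependent k a)
    (K' : IntermediateField k ℂ) (haK : ∀ i, a i ∈ K')
    (G : Fin (n + 2) → MvPolynomial (Fin (n + s)) ℂ) (hG : ∀ i, Over K'.toSubfield (G i))
    (P Q : Fin s → MvPolynomial (Fin (n + s)) ℂ) (hP : ∀ j, Over K'.toSubfield (P j))
    (hQ : ∀ j, Over K'.toSubfield (Q j))
    (hGF : aeval G (f + g * ∑ i, C (a i) * X i ^ e) = 0)
    (hdom : ∀ (d : ℕ) (H : MvPolynomial (Fin (n + 2)) ℂ), H.IsHomogeneous d →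
      aeval G H = 0 → f + g * ∑ i, C (a i) * X i ^ e ∣ H) :
    e ∣ (adjoin k (Set.range a)).relfinrank K' *
      finrank (adjoin ℂ ({z : Wf (n + s) | ∃ i j,
        z = algebraMap (MvPolynomial (Fin (n + s)) ℂ) (Wf (n + s)) (G i) /
          algebraMap (MvPolynomial (Fin (n + s)) ℂ) (Wf (n + s)) (G j)} ∪
        Set.range fun j => algebraMap (MvPolynomial (Fin (n + s)) ℂ) (Wf (n + s)) (P j) /
          algebraMap (MvPolynomial (Fin (n + s)) ℂ) (Wf (n + s)) (Q j))) (Wf (n + s)) := by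
  obtain ⟨n, rfl⟩ : ∃ n', n = n' + 1 := ⟨n - 1, by omega⟩
  exact final_aux he hc k hf hg hg0 hfk hgk a ha K' haK G hG P Q hP hQ hGF hdom

end

end Pool.Agent.X328.FD
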