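import Pool.Agent.X328.FD.Gn

/-! # Values of forms at vectors of polynomials -/

set_option autoImplicit false

namespace Pool.Agent.X328.FD

open Polynomial

noncomputable section

variable {M : Type} [Field M] {v : AbsoluteValue M ℝ} {σ : Type} [Fintype σ]

theorem aeval_eq_sum (C : σ → M[X]) (h : MvPolynomial σ M) :
    MvPolynomial.aeval C h = ∑ α ∈ h.support, Polynomial.C (h.coeff α) * ∏ i, C i ^ α i := by
  rw [MvPolynomial.aeval_def, MvPolynomial.eval₂_eq']
  rfl

theorem hom_sum {h : MvPolynomial σ M} {d : ℕ} (hh : h.IsHomogeneous d) {α : σ →₀ ℕ}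
    (hα : α ∈ h.support) : ∑ i, α i = d := by
  have h1 := hh (MvPolynomial.mem_support_iff.1 hα)
  rw [Finsupp.weight_apply] at h1
  rw [← h1, Finsupp.sum_fintype]
  · simp
  · simp

theorem gn_one {c : ℝ} : gaussNorm v c (1 : M[X]) = 1 := by
  rw [← Polynomial.C_1, gaussNorm_C, map_one]

theorem gn_neg {c : ℝ} (hna : IsNonarchimedean v) (hc : 0 < c) (p : M[X]) :
    gaussNorm v c (-p) = gaussNorm v c p := by
  have h5 : -p = Polynomial.C (-1) * p := by simp
  rw [h5, gaussNorm_mul hna hc, gaussNorm_C, v.map_neg, v.map_one, one_mul]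

theorem gn_sub_le {c : ℝ} (hna : IsNonarchimedean v) (hc : 0 < c) (p q : M[X]) :
    gaussNorm v c (p - q) ≤ max (gaussNorm v c p) (gaussNorm v c q) := by
  rw [sub_eq_add_neg, ← gn_neg hna hc q]
  exact isNonarchimedean_gaussNorm v hna hc.le _ _

theorem gn_pow {c : ℝ} (hna : IsNonarchimedean v) (hc : 0 < c) (p : M[X]) (n : ℕ) :
    gaussNorm v c (p ^ n) = gaussNorm v c p ^ n := by
  induction n with
  | zero => rw [pow_zero, pow_zero, gn_one]
  | succ n ih => rw [pow_succ, pow_succ, gaussNorm_mul hna hc, ih]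

theorem gn_prod {c : ℝ} (hna : IsNonarchimedean v) (hc : 0 < c) {ι : Type} (s : Finset ι)
    (p : ι → M[X]) : gaussNorm v c (∏ i ∈ s, p i) = ∏ i ∈ s, gaussNorm v c (p i) := by
  classical
  induction s using Finset.induction_on with
  | empty => simpa using gn_one
  | insert i s hi ih =>
    rw [Finset.prod_insert hi, Finset.prod_insert hi, gaussNorm_mul hna hc, ih]

/-- differences of products -/
theorem gn_mul_sub_lt {c : ℝ} (hna : IsNonarchimedean v) (hc : 0 < c) {p q p' q' : M[X]}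
    {A B : ℝ} (hA : 0 < A) (hB : 0 < B) (hp' : gaussNorm v c q ≤ B)
    (hq : gaussNorm v c p' ≤ A)
    (h1 : gaussNorm v c (p - p') < A) (h2 : gaussNorm v c (q - q') < B) :
    gaussNorm v c (p * q - p' * q') < A * B := by
  have e : p * q - p' * q' = (p - p') * q + p' * (q - q') := by ring
  rw [e]
  refine (isNonarchimedean_gaussNorm v hna hc.le _ _).trans_lt (max_lt ?_ ?_)
  · rw [gaussNorm_mul hna hc]
    calc gaussNorm v c (p - p') * gaussNorm v c q ≤ gaussNorm v c (p - p') * B :=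
          mul_le_mul_of_nonneg_left hp' (gn_nonneg _ hc)
      _ < A * B := mul_lt_mul_of_pos_right h1 hB
  · rw [gaussNorm_mul hna hc]
    calc gaussNorm v c p' * gaussNorm v c (q - q') ≤ A * gaussNorm v c (q - q') :=
          mul_le_mul_of_nonneg_right hq (gn_nonneg _ hc)
      _ < A * B := mul_lt_mul_of_pos_left h2 hA

theorem gn_pow_sub_lt {c : ℝ} (hna : IsNonarchimedean v) (hc : 0 < c) {p p' : M[X]}
    {B : ℝ} (hB : 0 < B) (hp : gaussNorm v c p ≤ B) (hp' : gaussNorm v c p' ≤ B)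
    (h1 : gaussNorm v c (p - p') < B) (n : ℕ) :
    gaussNorm v c (p ^ n - p' ^ n) < B ^ n := by
  induction n with
  | zero =>
    simp only [pow_zero, sub_self]
    rw [gaussNorm_zero]
    exact one_pos
  | succ n ih =>
    rw [pow_succ, pow_succ, pow_succ]
    refine gn_mul_sub_lt hna hc (pow_pos hB n) hB hp ?_ ih h1
    · rw [gn_pow hna hc]
      exact pow_le_pow_left₀ (gn_nonneg _ hc) hp' n

omit [Fintype σ] in
theorem gn_prod_sub_lt {c : ℝ} (hna : IsNonarchimedean v) (hc : 0 < c) {B : ℝ} (hB : 0 < B)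
    {C C' : σ → M[X]} (hC : ∀ i, gaussNorm v c (C i) ≤ B) (hC' : ∀ i, gaussNorm v c (C' i) ≤ B)
    (h : ∀ i, gaussNorm v c (C i - C' i) < B) (α : σ →₀ ℕ) (s : Finset σ) :
    gaussNorm v c (∏ i ∈ s, C i ^ α i - ∏ i ∈ s, C' i ^ α i) < B ^ ∑ i ∈ s, α i := by
  classical
  induction s using Finset.induction_on with
  | empty =>
    simp only [Finset.prod_empty, sub_self, Finset.sum_empty, pow_zero]
    rw [gaussNorm_zero]
    exact one_pos
  | insert i s hi ih =>
    rw [Finset.prod_insert hi, Finset.prod_insert hi, Finset.sum_insert hi, pow_add]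
    refine gn_mul_sub_lt hna hc (pow_pos hB _) (pow_pos hB _) ?_ ?_
      (gn_pow_sub_lt hna hc hB (hC i) (hC' i) (h i) _) ih
    · rw [gn_prod hna hc, ← Finset.prod_pow_eq_pow_sum]
      refine Finset.prod_le_prod (fun j _ => gn_nonneg _ hc) fun j _ => ?_
      rw [gn_pow hna hc]
      exact pow_le_pow_left₀ (gn_nonneg _ hc) (hC j) _
    · rw [gn_pow hna hc]
      exact pow_le_pow_left₀ (gn_nonneg _ hc) (hC' i) _

/-- a form whose coefficients have absolute value at most one -/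
def Int1 (v : AbsoluteValue M ℝ) (h : MvPolynomial σ M) : Prop := ∀ α, v (h.coeff α) ≤ 1

theorem form_le {c : ℝ} (hna : IsNonarchimedean v) (hc : 0 < c) {B : ℝ} (hB : 0 < B)
    {C : σ → M[X]} (hC : ∀ i, gaussNorm v c (C i) ≤ B) {h : MvPolynomial σ M} {d : ℕ}
    (hh : h.IsHomogeneous d) (hi : Int1 v h) :
    gaussNorm v c (MvPolynomial.aeval C h) ≤ B ^ d := by
  rw [aeval_eq_sum]
  refine gn_sum_le hna hc _ _ (pow_pos hB d).le fun α hα => ?_
  rw [gaussNorm_mul hna hc, gaussNorm_C, gn_prod hna hc, ← hom_sum hh hα,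
    ← Finset.prod_pow_eq_pow_sum]
  calc v (h.coeff α) * ∏ i, gaussNorm v c (C i ^ α i)
      ≤ 1 * ∏ i, B ^ α i := by
        refine mul_le_mul (hi α) ?_ (Finset.prod_nonneg fun i _ => gn_nonneg _ hc) zero_le_one
        refine Finset.prod_le_prod (fun j _ => gn_nonneg _ hc) fun j _ => ?_
        rw [gn_pow hna hc]
        exact pow_le_pow_left₀ (gn_nonneg _ hc) (hC j) _
    _ = _ := one_mul _

theorem form_lt {c : ℝ} (hna : IsNonarchimedean v) (hc : 0 < c) {B : ℝ} (hB : 0 < B)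
    {C C' : σ → M[X]} (hC : ∀ i, gaussNorm v c (C i) ≤ B) (hC' : ∀ i, gaussNorm v c (C' i) ≤ B)
    (hd : ∀ i, gaussNorm v c (C i - C' i) < B) {h : MvPolynomial σ M} {d : ℕ}
    (hh : h.IsHomogeneous d) (hi : Int1 v h) :
    gaussNorm v c (MvPolynomial.aeval C h - MvPolynomial.aeval C' h) < B ^ d := by
  rw [aeval_eq_sum, aeval_eq_sum, ← Finset.sum_sub_distrib]
  refine gn_sum_lt hna hc _ _ (pow_pos hB d) fun α hα => ?_
  rw [← mul_sub, gaussNorm_mul hna hc, gaussNorm_C]
  have h1 := gn_prod_sub_lt hna hc hB hC hC' hd α Finset.univ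
  rw [hom_sum hh hα] at h1
  refine lt_of_le_of_lt ?_ h1
  exact mul_le_of_le_one_left (gn_nonneg _ hc) (hi α)

omit [Fintype σ] in
theorem coeff_zero_aeval (C : σ → M[X]) (h : MvPolynomial σ M) :
    (MvPolynomial.aeval C h).coeff 0 = MvPolynomial.aeval (fun i => (C i).coeff 0) h := by
  have h1 := MvPolynomial.comp_aeval_apply C (Polynomial.aeval (0 : M) : M[X] →ₐ[M] M) h
  rw [Polynomial.coeff_zero_eq_aeval_zero]
  rw [h1]
  congr 2
  funext i
  rw [Polynomial.coeff_zero_eq_aeval_zero]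

omit [Fintype σ] in
theorem prod_top {C : σ → M[X]} {D : ℕ} (hD : ∀ i, (C i).natDegree ≤ D) (α : σ →₀ ℕ)
    (s : Finset σ) : (∏ i ∈ s, C i ^ α i).natDegree ≤ (∑ i ∈ s, α i) * D ∧
      (∏ i ∈ s, C i ^ α i).coeff ((∑ i ∈ s, α i) * D) = ∏ i ∈ s, (C i).coeff D ^ α i := by
  classical
  induction s using Finset.induction_on with
  | empty => simp
  | insert i s hi ih =>
    rw [Finset.prod_insert hi, Finset.prod_insert hi, Finset.sum_insert hi, add_mul]
    have h1 : (C i ^ α i).natDegree ≤ α i * D := natDegree_pow_le_of_le _ (hD i)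
    refine ⟨natDegree_mul_le.trans (add_le_add h1 ih.1), ?_⟩
    rw [coeff_mul_add_eq_of_natDegree_le h1 ih.1, coeff_pow_of_natDegree_le (hD i), ih.2]

theorem coeff_top_aeval {C : σ → M[X]} {D : ℕ} (hD : ∀ i, (C i).natDegree ≤ D)
    {h : MvPolynomial σ M} {d : ℕ} (hh : h.IsHomogeneous d) :
    (MvPolynomial.aeval C h).coeff (d * D) =
      MvPolynomial.aeval (fun i => (C i).coeff D) h := by
  rw [aeval_eq_sum, finsetSum_coeff, MvPolynomial.aeval_def, MvPolynomial.eval₂_eq']
  refine Finset.sum_congr rfl fun α hα => ?_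
  rw [coeff_C_mul, ← hom_sum hh hα, (prod_top hD α Finset.univ).2]
  rfl

theorem aeval_monomial_pow (z : σ → M) (j : ℕ) {h : MvPolynomial σ M} {d : ℕ}
    (hh : h.IsHomogeneous d) :
    MvPolynomial.aeval (fun i => Polynomial.C (z i) * X ^ j : σ → M[X]) h =
      Polynomial.C (MvPolynomial.aeval z h) * X ^ (j * d) := by
  rw [aeval_eq_sum, MvPolynomial.aeval_def, MvPolynomial.eval₂_eq', map_sum, Finset.sum_mul]
  refine Finset.sum_congr rfl fun α hα => ?_
  simp only [mul_pow, Finset.prod_mul_distrib, ← pow_mul]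
  rw [Finset.prod_pow_eq_pow_sum, ← Finset.mul_sum, hom_sum hh hα, C_mul, map_prod]
  simp only [C_pow]
  rw [mul_assoc]
  rfl

end

end Pool.Agent.X328.FD
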