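import Pool.Agent.X328.FD.PlacePath
import Pool.Agent.Y37.LI.Pl

/-! # Algebraic independence and residues -/

set_option autoImplicit false

namespace Pool.Agent.X328.FD

open MvPolynomial FF IntermediateField

noncomputable section

open scoped IntermediateField.algebraAdjoinAdjoin in
/-- algebraic over the ring generated iff algebraic over the field generated -/
theorem alg_ring_iff {k Ω : Type} [Field k] [Field Ω] [Algebra k Ω] (s : Set Ω) (y : Ω) :
    IsAlgebraic (Algebra.adjoin k s) y ↔ IsAlgebraic (adjoin k s) y :=
  IsFractionRing.isAlgebraic_iff (Algebra.adjoin k s) (adjoin k s) Ω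

theorem alg_mono {k Ω : Type} [Field k] [Field Ω] [Algebra k Ω] {A B : IntermediateField k Ω}
    (h : A ≤ B) {y : Ω} (hy : IsAlgebraic A y) : IsAlgebraic B y :=
  IsAlgebraic.tower_top_of_subalgebra_le (A := A.toSubalgebra) (B := B.toSubalgebra) h hy

variable {k K₂ Ω : Type} [Field k] [Field K₂] [Field Ω] [Algebra k K₂] [Algebra K₂ Ω]
  [Algebra k Ω] [IsScalarTower k K₂ Ω] (w : Place K₂ Ω) [Algebra k w.RF]
  [IsScalarTower k K₂ w.RF]

theorem reg_k (c : k) : w.Reg (algebraMap k Ω c) ∧
    w.red (algebraMap k Ω c) = algebraMap k w.RF c := by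
  rw [IsScalarTower.algebraMap_apply k K₂ Ω, IsScalarTower.algebraMap_apply k K₂ w.RF]
  exact ⟨w.reg_const _, rfl⟩

/-- reduction of the value of a polynomial at regular arguments -/
theorem red_aeval_k {ι : Type} (z : ι → Ω) (hz : ∀ i, w.Reg (z i)) (G : MvPolynomial ι k) :
    w.Reg (aeval z G) ∧ w.red (aeval z G) = aeval (fun i => w.red (z i)) G := by
  induction G using MvPolynomial.induction_on with
  | C a =>
    rw [aeval_C, aeval_C]
    exact reg_k w a
  | add p q hp hq =>
    rw [map_add, map_add]
    exact ⟨w.reg_add hp.1 hq.1, by rw [w.red_add hp.1 hq.1, hp.2, hq.2]⟩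
  | mul_X p i hp =>
    rw [map_mul, map_mul, aeval_X, aeval_X]
    exact ⟨w.reg_mul hp.1 (hz i), by rw [w.red_mul hp.1 (hz i), hp.2]⟩

/-- regular elements with algebraically independent residues, and an element with residue
zero, are algebraically independent -/
theorem indep_lift {ι : Type} (z : ι → Ω) (hz : ∀ i, w.Reg (z i))
    (hi : AlgebraicIndependent k fun i => w.red (z i)) {τ : Ω} (h0 : τ ≠ 0) (hτ : w.Reg τ)
    (hτ0 : w.red τ = 0) : AlgebraicIndependent k (fun o : Option ι => o.elim τ z) := by
  have hz' : AlgebraicIndependent k z := by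
    rw [algebraicIndependent_iff] at hi ⊢
    intro p hp
    apply hi
    rw [← (red_aeval_k w z hz p).2, hp, w.red_zero]
  rw [hz'.option_iff_transcendental]
  have hA : ∀ a : Algebra.adjoin k (Set.range z), w.Reg (a : Ω) ∧
      (w.red (a : Ω) = 0 → a = 0) := by
    intro a
    obtain ⟨p, hp⟩ : ∃ p : MvPolynomial ι k, aeval z p = (a : Ω) := by
      have h5 : ∀ x ∈ Algebra.adjoin k (Set.range z), ∃ p : MvPolynomial ι k, aeval z p = x := by
        intro x hx
        rw [Algebra.adjoin_range_eq_range_aeval] at hx
        exact hx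
      exact h5 _ a.2
    rw [← hp]
    refine ⟨(red_aeval_k w z hz p).1, fun h => ?_⟩
    rw [(red_aeval_k w z hz p).2] at h
    have h1 := (algebraicIndependent_iff.1 hi) p h
    apply Subtype.ext
    rw [← hp, h1, map_zero]
    rfl
  have hev : ∀ q : Polynomial (Algebra.adjoin k (Set.range z)),
      w.Reg (Polynomial.aeval τ q) := by
    intro q
    induction q using Polynomial.induction_on' with
    | add p q hp hq => rw [map_add]; exact w.reg_add hp hq
    | monomial n a =>
      rw [Polynomial.aeval_monomial]
      refine w.reg_mul (hA a).1 ?_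
      induction n with
      | zero => rw [pow_zero]; exact w.reg_one
      | succ n ih => rw [pow_succ]; exact w.reg_mul ih hτ
  have key : ∀ (n : ℕ) (q : Polynomial (Algebra.adjoin k (Set.range z))), q.natDegree ≤ n →
      Polynomial.aeval τ q = 0 → q = 0 := by
    have hc : ∀ q : Polynomial (Algebra.adjoin k (Set.range z)), Polynomial.aeval τ q = 0 →
        q.coeff 0 = 0 ∧ Polynomial.aeval τ q.divX = 0 := by
      intro q hq
      have e := Polynomial.divX_mul_X_add q
      have e1 : Polynomial.aeval τ q.divX * τ + (q.coeff 0 : Ω) = 0 := by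
        rw [← hq]
        conv_rhs => rw [← e]
        rw [map_add, map_mul, Polynomial.aeval_X, Polynomial.aeval_C]
        rfl
      have e2 : w.red ((q.coeff 0 : Algebra.adjoin k (Set.range z)) : Ω) = 0 := by
        have e3 : ((q.coeff 0 : Algebra.adjoin k (Set.range z)) : Ω) =
            -(Polynomial.aeval τ q.divX * τ) := by linear_combination e1
        rw [e3, w.red_neg (w.reg_mul (hev _) hτ), w.red_mul (hev _) hτ, hτ0, mul_zero, neg_zero]
      have e4 := (hA _).2 e2
      refine ⟨e4, ?_⟩
      rw [e4] at e1
      have e5 : Polynomial.aeval τ q.divX * τ = 0 := by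
        rw [← e1]
        simp
      exact (mul_eq_zero.1 e5).resolve_right h0
    intro n
    induction n with
    | zero =>
      intro q hq h
      rw [Polynomial.eq_C_of_natDegree_le_zero hq, (hc q h).1, Polynomial.C_0]
    | succ n ih =>
      intro q hq h
      have h1 : q.divX = 0 := ih _ (by rw [Polynomial.natDegree_divX_eq_natDegree_tsub_one]; omega)
        (hc q h).2
      rw [← Polynomial.divX_mul_X_add q, h1, (hc q h).1, zero_mul, Polynomial.C_0, add_zero]
  rw [transcendental_iff]
  intro p hp
  exact key _ p le_rfl hp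

/-- residues of elements which are algebraic over `k(b_i / τ)` are algebraic over the field
generated by the residues of the `b_i` -/
theorem alg_red {ι : Type} (b : ι → Ω) (hb : ∀ i, w.Reg (b i))
    (hi : AlgebraicIndependent k fun i => w.red (b i)) {τ : Ω} (h0 : τ ≠ 0) (hτ : w.Reg τ)
    (hτ0 : w.red τ = 0) {y : Ω} (hy : w.Reg y)
    (halg : IsAlgebraic (adjoin k (Set.range fun i => b i / τ)) y) :
    IsAlgebraic (adjoin k (Set.range fun i => w.red (b i))) (w.red y) := by
  rw [← alg_ring_iff]
  by_contra hcon
  have h1 : AlgebraicIndependent k (fun o : Option ι => o.elim (w.red y) fun i => w.red (b i)) :=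
    (hi.option_iff_transcendental _).2 hcon
  have h2 : AlgebraicIndependent k
      (fun o : Option ι => w.red ((fun o : Option ι => o.elim y b) o)) := by
    convert h1 using 1
    funext o
    cases o <;> rfl
  have h3 := indep_lift w (fun o : Option ι => o.elim y b) (fun o => by
    cases o
    · exact hy
    · exact hb _) h2 h0 hτ hτ0
  have h4 := h3.transcendental_adjoin (s := {some none}ᶜ) (i := some none) (by simp)
  apply h4
  rw [alg_ring_iff]
  refine alg_mono ?_ halg
  rw [adjoin_le_iff]
  rintro _ ⟨i, rfl⟩
  refine div_mem (subset_adjoin _ _ ?_) (subset_adjoin _ _ ?_)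
  · exact ⟨some (some i), by simp, rfl⟩
  · exact ⟨none, by simp, rfl⟩

end

end Pool.Agent.X328.FD
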