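import Pool.Agent.X328.FD.Reg
import Pool.Agent.X328.FD.Lift
import Pool.Agent.X328.FD.Curve
import Pool.Agent.Y710.LI.One

/-! # Forms at algebraically independent points, and base points -/

set_option autoImplicit false

namespace Pool.Agent.X328.FD

open MvPolynomial Pool.Agent.Y201.LI

noncomputable section

/-- a form does not vanish at a generic point -/
theorem form_ne {k W : Type} [Field k] [Field W] [Algebra k W] {r : ℕ} {w : Fin r → W}
    (hw : AlgebraicIndependent k w) {d : ℕ} {g : MvPolynomial (Fin (r + 1)) k}
    (hg : g.IsHomogeneous d) (hg0 : g ≠ 0) :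
    aeval (Fin.cons 1 w : Fin (r + 1) → W) g ≠ 0 := by
  intro h
  apply hg0
  -- the dehomogenized form is zero
  have h1 : aeval (Fin.cons 1 X : Fin (r + 1) → MvPolynomial (Fin r) k) g = 0 := by
    apply (algebraicIndependent_iff.1 hw)
    have h2 := comp_aeval_apply (Fin.cons 1 X : Fin (r + 1) → MvPolynomial (Fin r) k)
      (aeval w : MvPolynomial (Fin r) k →ₐ[k] W) g
    rw [h2, ← h]
    refine congrArg (fun y : Fin (r + 1) → W => aeval y g) ?_
    funext i
    refine Fin.cases ?_ (fun j => ?_) i
    · rw [Fin.cons_zero, Fin.cons_zero, map_one]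
    · rw [Fin.cons_succ, Fin.cons_succ, aeval_X]
  let F0 := FractionRing (MvPolynomial (Fin (r + 1)) k)
  let xx : Fin (r + 1) → F0 := fun i => algebraMap (MvPolynomial (Fin (r + 1)) k) F0 (X i)
  have hx0 : xx 0 ≠ 0 := by
    intro h0
    have : (X 0 : MvPolynomial (Fin (r + 1)) k) = 0 :=
      IsFractionRing.injective (MvPolynomial (Fin (r + 1)) k) F0 (by rw [map_zero]; exact h0)
    exact X_ne_zero 0 this
  have h3 : aeval xx g = 0 := by
    have h4 : aeval (fun i => xx i / xx 0) (map (algebraMap k F0) g) = 0 := by
      rw [aeval_map_algebraMap]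
      have h5 := comp_aeval_apply (Fin.cons 1 X : Fin (r + 1) → MvPolynomial (Fin r) k)
        (aeval (fun j : Fin r => xx j.succ / xx 0) : MvPolynomial (Fin r) k →ₐ[k] F0) g
      rw [h1, map_zero] at h5
      rw [h5]
      refine congrArg (fun y : Fin (r + 1) → F0 => aeval y g) ?_
      funext i
      refine Fin.cases ?_ (fun j => ?_) i
      · rw [Fin.cons_zero, map_one, div_self hx0]
      · rw [Fin.cons_succ, aeval_X]
    rw [aeval_div xx (xx 0) (hg.map _), aeval_map_algebraMap, div_eq_zero_iff] at h4
    exact h4.resolve_right (pow_ne_zero _ hx0)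
  have h6 : aeval xx g = algebraMap (MvPolynomial (Fin (r + 1)) k) F0 g := by
    have h7 := comp_aeval_apply (X : Fin (r + 1) → MvPolynomial (Fin (r + 1)) k)
      (IsScalarTower.toAlgHom k (MvPolynomial (Fin (r + 1)) k) F0) g
    rw [aeval_X_left_apply] at h7
    exact h7.symm
  rw [h6] at h3
  exact IsFractionRing.injective (MvPolynomial (Fin (r + 1)) k) F0 (by rw [map_zero]; exact h3)

/-- elements with algebraically independent powers -/
theorem indep_of_pow {k W : Type} [Field k] [Field W] [Algebra k W] {r e : ℕ} {w : Fin r → W}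
    (h : AlgebraicIndependent k fun i => w i ^ e) : AlgebraicIndependent k w := by
  let W' : IntermediateField k W := IntermediateField.adjoin k (Set.range w)
  let w' : Fin r → W' := fun i => ⟨w i, IntermediateField.subset_adjoin _ _ ⟨i, rfl⟩⟩
  have h1 : AlgebraicIndependent k fun i => w' i ^ e := by
    refine AlgebraicIndependent.of_comp W'.val ?_
    exact h
  have htop : IntermediateField.adjoin k (Set.range w') = ⊤ := by
    have h3 := IntermediateField.adjoin_map k (Set.range w') W'.val
    apply IntermediateField.map_injective W'.val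
    rw [IntermediateField.adjoin_map, ← AlgHom.fieldRange_eq_map,
      IntermediateField.fieldRange_val, ← Set.range_comp]
    rfl
  have h2 : AlgebraicIndependent k w' := by
    refine indep_count (fun z => ?_) h1 le_rfl
    rw [htop]
    exact isAlgebraic_algebraMap (⟨z, trivial⟩ : (⊤ : IntermediateField k W'))
  exact h2.map' (f := W'.val) W'.val.injective

/-- base points: `z_i ^ e = Y_i ^ e z_0 ^ e` and `g(z) = 0` imply `z = 0` -/
theorem base_point {k κ : Type} [Field k] [Field κ] [Algebra k κ] {r e d : ℕ} (he : 1 ≤ e)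
    {Y : Fin r → κ} (hY : AlgebraicIndependent k Y) {g : MvPolynomial (Fin (r + 1)) k}
    (hg : g.IsHomogeneous d) (hg0 : g ≠ 0) (z : Fin (r + 1) → κ) (hz : aeval z g = 0)
    (h : ∀ i : Fin r, z i.succ ^ e = Y i ^ e * z 0 ^ e) : z = 0 := by
  by_contra hne
  have hz0 : z 0 ≠ 0 := by
    intro h0
    apply hne
    funext i
    refine Fin.cases h0 (fun j => ?_) i
    have h1 := h j
    rw [h0, zero_pow (by omega), mul_zero] at h1
    exact pow_eq_zero_iff (by omega) |>.1 h1
  have hY' : AlgebraicIndependent k fun i => Y i ^ e := by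
    have := hY.polynomial_aeval_of_transcendental
      (f := fun _ : Fin r => (Polynomial.X : Polynomial k) ^ e) ?_
    · simpa using this
    · intro i
      exact Polynomial.transcendental_X k |>.pow (by omega)
  have hw : AlgebraicIndependent k fun i : Fin r => z i.succ / z 0 := by
    apply indep_of_pow (e := e)
    convert hY' using 1
    funext i
    rw [div_pow, h i, mul_div_assoc, div_self (pow_ne_zero _ hz0), mul_one]
  refine form_ne hw hg hg0 ?_
  have h2 : (Fin.cons 1 (fun i : Fin r => z i.succ / z 0) : Fin (r + 1) → κ) =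
      fun i => z i / z 0 := by
    funext i
    refine Fin.cases ?_ (fun j => ?_) i
    · simp [div_self hz0]
    · simp
  rw [h2, ← aeval_map_algebraMap κ, aeval_div z (z 0) (hg.map _), aeval_map_algebraMap, hz,
    zero_div]

end

end Pool.Agent.X328.FD
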