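import Mathlib

/-! # The path argument

A polynomial curve over a field `M` with a nonarchimedean absolute value which lies on the
hypersurface `τ f + ℓ q = 0`, `|τ| < 1`, and which joins a point reducing to `ℓ = 0` only to a
point reducing to `q = 0` only, has a coefficient vector which reduces to `ℓ = q = 0`. -/

set_option autoImplicit false

namespace Pool.Agent.X328.FD

open Polynomial

noncomputable section

variable {M : Type} [Field M] {v : AbsoluteValue M ℝ}

theorem gn_nonneg (p : M[X]) {c : ℝ} (hc : 0 < c) : 0 ≤ gaussNorm v c p :=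
  gaussNorm_nonneg v p hc.le

theorem gn_sum_lt (hna : IsNonarchimedean v) {c : ℝ} (hc : 0 < c) {ι : Type} (s : Finset ι)
    (t : ι → M[X]) {B : ℝ} (hB : 0 < B) (h : ∀ i ∈ s, gaussNorm v c (t i) < B) :
    gaussNorm v c (∑ i ∈ s, t i) < B := by
  classical
  induction s using Finset.induction_on with
  | empty => simpa using hB
  | insert i s hi ih =>
    rw [Finset.sum_insert hi]
    refine (isNonarchimedean_gaussNorm v hna hc.le _ _).trans_lt (max_lt ?_ ?_)
    · exact h i (Finset.mem_insert_self i s)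
    · exact ih fun j hj => h j (Finset.mem_insert_of_mem hj)

theorem gn_sum_le (hna : IsNonarchimedean v) {c : ℝ} (hc : 0 < c) {ι : Type} (s : Finset ι)
    (t : ι → M[X]) {B : ℝ} (hB : 0 ≤ B) (h : ∀ i ∈ s, gaussNorm v c (t i) ≤ B) :
    gaussNorm v c (∑ i ∈ s, t i) ≤ B := by
  classical
  induction s using Finset.induction_on with
  | empty => simpa using hB
  | insert i s hi ih =>
    rw [Finset.sum_insert hi]
    refine (isNonarchimedean_gaussNorm v hna hc.le _ _).trans (max_le ?_ ?_)
    · exact h i (Finset.mem_insert_self i s)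
    · exact ih fun j hj => h j (Finset.mem_insert_of_mem hj)

theorem gn_continuous (p : M[X]) : Continuous fun c : ℝ => gaussNorm v c p := by
  unfold gaussNorm
  by_cases h : p.support.Nonempty
  · simp only [h, ↓reduceDIte]
    exact Continuous.finset_sup'_apply h fun i _ => by fun_prop
  · simp only [h, ↓reduceDIte]
    exact continuous_const

variable {r : ℕ}

/-- the norm of a vector of polynomials -/
def mn (v : AbsoluteValue M ℝ) (C : Fin (r + 1) → M[X]) (c : ℝ) : ℝ :=
  Finset.univ.sup' Finset.univ_nonempty fun i => gaussNorm v c (C i)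

theorem mn_continuous (C : Fin (r + 1) → M[X]) : Continuous (mn v C) := by
  unfold mn
  exact Continuous.finset_sup'_apply Finset.univ_nonempty fun i _ => gn_continuous (C i)

theorem le_mn (C : Fin (r + 1) → M[X]) (c : ℝ) (i : Fin (r + 1)) :
    gaussNorm v c (C i) ≤ mn v C c :=
  Finset.le_sup' (fun i => gaussNorm v c (C i)) (Finset.mem_univ i)

theorem mn_le {C : Fin (r + 1) → M[X]} {c B : ℝ} (h : ∀ i, gaussNorm v c (C i) ≤ B) :
    mn v C c ≤ B :=
  Finset.sup'_le _ _ fun i _ => h i

theorem exists_mn (C : Fin (r + 1) → M[X]) (c : ℝ) : ∃ i, mn v C c = gaussNorm v c (C i) := by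
  obtain ⟨i, -, hi⟩ := Finset.exists_mem_eq_sup' Finset.univ_nonempty
    fun i => gaussNorm v c (C i)
  exact ⟨i, hi⟩

/-- bounds for the Gauss norm -/
theorem gn_le {p : M[X]} {c B : ℝ} (h : ∀ j, v (p.coeff j) * c ^ j ≤ B) :
    gaussNorm v c p ≤ B := by
  obtain ⟨j, hj⟩ := exists_eq_gaussNorm v c p
  rw [hj]
  exact h j

theorem gn_lt {p : M[X]} {c B : ℝ} (h : ∀ j, v (p.coeff j) * c ^ j < B) :
    gaussNorm v c p < B := by
  obtain ⟨j, hj⟩ := exists_eq_gaussNorm v c p
  rw [hj]
  exact h j

theorem coeff_le (p : M[X]) {c : ℝ} (hc : 0 < c) (j : ℕ) :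
    v (p.coeff j) * c ^ j ≤ gaussNorm v c p :=
  le_gaussNorm v p hc.le j


/-- at most one positive radius at which two monomials have the same norm -/
theorem tie_subsingleton {a b : ℝ} (ha : 0 < a) (hb : 0 < b) {i j : ℕ} (hij : i ≠ j) :
    {c : ℝ | 0 < c ∧ a * c ^ i = b * c ^ j}.Subsingleton := by
  intro x hx y hy
  obtain ⟨hx0, hx1⟩ := hx
  obtain ⟨hy0, hy1⟩ := hy
  have key : ∀ {a b : ℝ} {i j : ℕ}, 0 < a → 0 < b → i < j → ∀ {x y : ℝ}, 0 < x → 0 < y →
      a * x ^ i = b * x ^ j → a * y ^ i = b * y ^ j → x = y := by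
    intro a b i j ha hb hij x y hx hy h1 h2
    obtain ⟨k, rfl⟩ := Nat.exists_eq_add_of_lt hij
    have e1 : x ^ (k + 1) = a / b := by
      rw [eq_div_iff hb.ne']
      have h3 : x ^ i ≠ 0 := (pow_pos hx i).ne'
      apply mul_left_cancel₀ h3
      rw [add_assoc, pow_add] at h1
      linear_combination -h1
    have e2 : y ^ (k + 1) = a / b := by
      rw [eq_div_iff hb.ne']
      have h3 : y ^ i ≠ 0 := (pow_pos hy i).ne'
      apply mul_left_cancel₀ h3
      rw [add_assoc, pow_add] at h2
      linear_combination -h2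
    exact (pow_left_inj₀ hx.le hy.le (Nat.succ_ne_zero k)).1 (e1.trans e2.symm)
  rcases lt_or_gt_of_ne hij with h | h
  · exact key ha hb h hx0 hy0 hx1 hy1
  · exact key hb ha h hx0 hy0 hx1.symm hy1.symm


end

end Pool.Agent.X328.FD
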