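import Pool.Agent.X328.FD.Rel

/-! # Algebraic independence over intermediate fields -/

set_option autoImplicit false

namespace Pool.Agent.X328.FD

open IntermediateField Module

noncomputable section

variable {k W : Type} [Field k] [Field W] [Algebra k W]

open scoped IntermediateField.algebraAdjoinAdjoin in
theorem indep_field {ι : Type} {S : Set W} {x : ι → W}
    (h : AlgebraicIndependent (Algebra.adjoin k S) x) :
    AlgebraicIndependent (adjoin k S) x :=
  h.extendScalars (adjoin k S)

theorem indep_over {ι ι' : Type} {x : ι → W} {y : ι' → W}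
    (h : AlgebraicIndependent k (Sum.elim y x)) :
    AlgebraicIndependent (adjoin k (Set.range x)) y :=
  indep_field (AlgebraicIndependent.sumElim_iff.1 h).2

theorem indep_ext {ι : Type} {A B : IntermediateField k W} (h : A ≤ B)
    (halg : ∀ z ∈ B, IsAlgebraic A z) {x : ι → W} (hx : AlgebraicIndependent A x) :
    AlgebraicIndependent B x := by
  have h1 : Algebra.IsAlgebraic A (extendScalars h) := by
    refine ⟨fun z => ?_⟩
    have h2 := halg z.1 z.2
    exact (isAlgebraic_algebraMap_iff (A := W) (algebraMap (extendScalars h) W).injective).1 h2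
  exact hx.extendScalars (extendScalars h)

theorem alg_of_relfinrank {A B : IntermediateField k W} (h : A ≤ B)
    (hfin : A.relfinrank B ≠ 0) : ∀ z ∈ B, IsAlgebraic A z := by
  have hfd : FiniteDimensional A (extendScalars h) := by
    rw [relfinrank_eq_finrank_of_le h] at hfin
    exact FiniteDimensional.of_finrank_pos (Nat.pos_of_ne_zero hfin)
  intro z hz
  have h2 : IsAlgebraic A (⟨z, hz⟩ : extendScalars h) := Algebra.IsAlgebraic.isAlgebraic _
  exact h2.algebraMap

theorem alg_trans {A B : IntermediateField k W} (h : A ≤ B)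
    (halg : ∀ z ∈ B, IsAlgebraic A z) {z : W} (hz : IsAlgebraic B z) : IsAlgebraic A z := by
  have h1 : Algebra.IsAlgebraic A (extendScalars h) := by
    refine ⟨fun z => ?_⟩
    have h2 := halg z.1 z.2
    exact (isAlgebraic_algebraMap_iff (A := W) (algebraMap (extendScalars h) W).injective).1 h2
  have h2 : IsAlgebraic (extendScalars h) z := hz
  exact h2.restrictScalars A

theorem alg_sup {A : IntermediateField k W} {S : Set W} (hS : ∀ z ∈ S, IsAlgebraic A z) :
    ∀ z ∈ (A ⊔ adjoin k S : IntermediateField k W), IsAlgebraic A z := by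
  intro z hz
  rw [← res_adjoin] at hz
  have h1 : Algebra.IsAlgebraic A (adjoin A S) :=
    isAlgebraic_adjoin fun x hx => (hS x hx).isIntegral
  have h2 : IsAlgebraic A (⟨z, hz⟩ : adjoin A S) := Algebra.IsAlgebraic.isAlgebraic _
  exact h2.algebraMap

open scoped IntermediateField.algebraAdjoinAdjoin in
theorem alg_ring_iff' (s : Set W) (y : W) :
    IsAlgebraic (Algebra.adjoin k s) y ↔ IsAlgebraic (adjoin k s) y :=
  IsFractionRing.isAlgebraic_iff (Algebra.adjoin k s) (adjoin k s) W

theorem trans_field {ι : Type} {A : IntermediateField k W} {x : ι → W}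
    (hx : AlgebraicIndependent A x) {s : Set ι} {i : ι} (hi : i ∉ s) :
    Transcendental (A ⊔ adjoin k (x '' s) : IntermediateField k W) (x i) := by
  rw [← res_adjoin]
  intro h
  refine hx.transcendental_adjoin hi ?_
  rw [alg_ring_iff']
  exact h

theorem indep_count {ι ι' : Type} [Finite ι] {x : ι → W}
    (halg : ∀ z : W, IsAlgebraic (adjoin k (Set.range x)) z) {y : ι' → W}
    (hy : AlgebraicIndependent k y) (hc : Cardinal.mk ι ≤ Cardinal.mk ι') :
    AlgebraicIndependent k x := by
  have h1 : Algebra.IsAlgebraic (Algebra.adjoin k (Set.range x)) W :=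
    ⟨fun z => (alg_ring_iff' _ _).2 (halg z)⟩
  exact (Algebra.IsAlgebraic.isTranscendenceBasis_of_le_trdeg_of_finite k x
    (hc.trans hy.cardinalMk_le_trdeg)).1

end

end Pool.Agent.X328.FD
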