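import Mathlib

/-! # The degree of `L(s, y)` over `L(s)` for `y ^ e = c + d s ^ e` -/

set_option autoImplicit false

namespace Pool.Agent.X328.FD

open Polynomial IntermediateField Module

noncomputable section

variable {L W : Type} [Field L] [Field W] [Algebra L W]

/-- the polynomial `c + d X ^ e` is divisible by a prime element exactly once -/
theorem exists_prime_factor [CharZero L] {c d : L} (hc : c ≠ 0) (hd : d ≠ 0) {e : ℕ}
    (he : 1 ≤ e) : ∃ p : L[X], Prime p ∧ p ∣ (C c + C d * X ^ e) ∧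
      ¬ p ^ 2 ∣ (C c + C d * X ^ e) := by
  have h1 : C c + C d * X ^ e = C d * (X ^ e - C (-c / d)) := by
    rw [mul_sub, ← C_mul]
    have : d * (-c / d) = -c := by field_simp
    rw [this, C_neg]
    ring
  have hsep : (X ^ e - C (-c / d) : L[X]).Separable :=
    separable_X_pow_sub_C _ (by exact_mod_cast (by omega : e ≠ 0))
      (div_ne_zero (neg_ne_zero.2 hc) hd)
  have hdeg : (X ^ e - C (-c / d) : L[X]).natDegree = e := natDegree_X_pow_sub_C
  have hnu : ¬ IsUnit (X ^ e - C (-c / d) : L[X]) := by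
    intro h
    have := natDegree_eq_zero_of_isUnit h
    omega
  have hne : (X ^ e - C (-c / d) : L[X]) ≠ 0 := by
    intro h
    rw [h] at hdeg
    simp at hdeg
    omega
  obtain ⟨p, hp, hpd⟩ := WfDvdMonoid.exists_irreducible_factor hnu hne
  refine ⟨p, hp.prime, ?_, ?_⟩
  · rw [h1]
    exact hpd.mul_left _
  · intro h2
    have hu : IsUnit (C d : L[X]) := isUnit_C.2 (isUnit_iff_ne_zero.2 hd)
    rw [h1] at h2
    have h3 : p ^ 2 ∣ (X ^ e - C (-c / d) : L[X]) := (hu.dvd_mul_left).1 h2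
    have h4 := hsep.squarefree p (by rwa [← sq])
    exact hp.not_isUnit h4

theorem irr_poly [CharZero L] {c d : L} (hc : c ≠ 0) (hd : d ≠ 0) {e : ℕ} (he : 1 ≤ e) :
    Irreducible (X ^ e - C (C c + C d * X ^ e) : L[X][X]) := by
  obtain ⟨p, hp, hpd, hpd2⟩ := exists_prime_factor hc hd he
  have hmon : (X ^ e - C (C c + C d * X ^ e) : L[X][X]).Monic :=
    monic_X_pow_sub_C _ (by omega)
  have hdeg : (X ^ e - C (C c + C d * X ^ e) : L[X][X]).natDegree = e := natDegree_X_pow_sub_C
  have hdeg' : (X ^ e - C (C c + C d * X ^ e) : L[X][X]).degree = e :=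
    degree_X_pow_sub_C (by omega) _
  have hprime : (Ideal.span {p}).IsPrime := (Ideal.span_singleton_prime hp.ne_zero).2 hp
  refine irreducible_of_eisenstein_criterion hprime ?_ ?_ ?_ ?_ hmon.isPrimitive
  · rw [hmon.leadingCoeff]
    exact fun h => hprime.ne_top ((Ideal.eq_top_iff_one _).2 h)
  · intro n hn
    rw [hdeg'] at hn
    have hn' : n < e := by exact_mod_cast hn
    rw [coeff_sub, coeff_X_pow, if_neg (by omega), zero_sub, coeff_C]
    split_ifs with h0
    · exact neg_mem (Ideal.mem_span_singleton.2 hpd)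
    · rw [neg_zero]
      exact zero_mem _
  · rw [hdeg']
    exact_mod_cast he
  · rw [coeff_sub, coeff_X_pow, if_neg (by omega), zero_sub, coeff_C_zero,
      Ideal.span_singleton_pow, Ideal.mem_span_singleton, dvd_neg]
    exact hpd2

/-- `y ^ e = c + d s ^ e` with `s` transcendental over `L`: then `y` has degree `e` over `L(s)` -/
theorem kummer_deg [CharZero L] {s y : W} (hs : Transcendental L s) {c d : L} (hc : c ≠ 0)
    (hd : d ≠ 0) {e : ℕ} (he : 1 ≤ e)
    (hy : y ^ e = algebraMap L W c + algebraMap L W d * s ^ e) :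
    finrank L⟮s⟯ (L⟮s⟯)⟮y⟯ = e := by
  let φ : L[X] →ₐ[L] L⟮s⟯ := Polynomial.aeval (AdjoinSimple.gen L s)
  have key : ∀ q : L[X], ((φ q : L⟮s⟯) : W) = Polynomial.aeval s q := fun q =>
    (Polynomial.aeval_algHom_apply (L⟮s⟯).val (AdjoinSimple.gen L s) q).symm
  have hφinj : Function.Injective φ := by
    intro p q h
    rw [← sub_eq_zero] at h ⊢
    rw [← map_sub] at h
    by_contra hne
    refine hs ⟨p - q, hne, ?_⟩
    rw [← key, h]
    rfl
  let _ : Algebra L[X] L⟮s⟯ := φ.toRingHom.toAlgebra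
  have hmap : ∀ q : L[X], algebraMap L[X] L⟮s⟯ q = φ q := fun q => rfl
  have _ : FaithfulSMul L[X] L⟮s⟯ := (faithfulSMul_iff_algebraMap_injective _ _).2 hφinj
  have _ : IsFractionRing L[X] L⟮s⟯ := by
    refine IsFractionRing.of_field _ _ fun z => ?_
    obtain ⟨p, q, h⟩ := (mem_adjoin_simple_iff L _).1 z.2
    refine ⟨p, q, ?_⟩
    apply Subtype.ext
    rw [h, hmap, hmap, ← key p, ← key q]
    rfl
  have hirr := (Monic.irreducible_iff_irreducible_map_fraction_map (K := L⟮s⟯)
    (monic_X_pow_sub_C (C c + C d * X ^ e) (by omega : e ≠ 0))).1 (irr_poly hc hd he)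
  rw [Polynomial.map_sub, Polynomial.map_pow, map_X, map_C, hmap] at hirr
  have hroot : Polynomial.aeval y (X ^ e - C (φ (C c + C d * X ^ e)) : (L⟮s⟯)[X]) = 0 := by
    rw [map_sub, map_pow, aeval_X, aeval_C, hy, sub_eq_zero]
    have h1 : algebraMap L⟮s⟯ W (φ (C c + C d * X ^ e)) =
        ((φ (C c + C d * X ^ e) : L⟮s⟯) : W) := rfl
    rw [h1, key, map_add, map_mul, map_pow, aeval_X, aeval_C, aeval_C]
  have hmon : (X ^ e - C (φ (C c + C d * X ^ e)) : (L⟮s⟯)[X]).Monic :=
    monic_X_pow_sub_C _ (by omega)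
  have hmin := minpoly.eq_of_irreducible_of_monic hirr hroot hmon
  rw [adjoin.finrank ⟨_, hmon, by rwa [aeval_def] at hroot⟩, ← hmin]
  exact natDegree_X_pow_sub_C

end

end Pool.Agent.X328.FD
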