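import Pool.Agent.X328.FD.Sub

/-! # The divisibility over a big field of constants -/

set_option autoImplicit false

namespace Pool.Agent.X328.FD

open IntermediateField Module MvPolynomial

noncomputable section

variable {k Cc W : Type} [Field k] [CharZero k] [Field Cc] [Field W] [Algebra k Cc]
  [Algebra Cc W] [Algebra k W] [IsScalarTower k Cc W]

/-- transport of the equation along a homomorphism -/
theorem push_eq {k K M : Type} [Field k] [Field K] [Field M] [Algebra k K] [Algebra k M]
    (ψ : K →+* M) (hψ : ψ.comp (algebraMap k K) = algebraMap k M) {r m e : ℕ}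
    (f g : MvPolynomial (Fin r) k) (aK : Fin r → K) (aM : Fin r → M) (ha : ∀ i, ψ (aK i) = aM i)
    (G : Fin r → MvPolynomial (Fin m) K)
    (h : aeval G (map (algebraMap k K) f + map (algebraMap k K) g *
        ∑ i, C (aK i) * X i ^ e) = 0) :
    aeval (fun i => map ψ (G i)) (map (algebraMap k M) f + map (algebraMap k M) g *
        ∑ i, C (aM i) * X i ^ e) = 0 := by
  have h1 := congrArg (map ψ) h
  rw [map_aeval', map_zero] at h1
  rw [← h1]
  congr 1
  simp only [map_add, map_mul, MvPolynomial.map_map, hψ, map_sum, map_C, map_pow, map_X, ha]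

/-- and back -/
theorem pull_eq {k K M : Type} [Field k] [Field K] [Field M] [Algebra k K] [Algebra k M]
    (ψ : K →+* M) (hψ : ψ.comp (algebraMap k K) = algebraMap k M) {r m e : ℕ}
    (f g : MvPolynomial (Fin r) k) (aK : Fin r → K) (aM : Fin r → M) (ha : ∀ i, ψ (aK i) = aM i)
    (G : Fin r → MvPolynomial (Fin m) K)
    (h : aeval (fun i => map ψ (G i)) (map (algebraMap k M) f + map (algebraMap k M) g *
        ∑ i, C (aM i) * X i ^ e) = 0) :
    aeval G (map (algebraMap k K) f + map (algebraMap k K) g *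
        ∑ i, C (aK i) * X i ^ e) = 0 := by
  apply map_injective ψ ψ.injective
  rw [map_aeval', map_zero, ← h]
  congr 1
  simp only [map_add, map_mul, MvPolynomial.map_map, hψ, map_sum, map_C, map_pow, map_X, ha]

omit [CharZero k] [Field Cc] [Algebra k Cc] [Algebra Cc W] [IsScalarTower k Cc W] in
theorem top_of_image {N : IntermediateField k W} (S : Set N) (h : N ≤ adjoin k (N.val '' S)) :
    adjoin k S = ⊤ := by
  apply IntermediateField.map_injective N.val
  rw [adjoin_map, ← AlgHom.fieldRange_eq_map, fieldRange_val]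
  refine le_antisymm ?_ h
  rw [adjoin_le_iff]
  rintro _ ⟨y, _, rfl⟩
  exact y.2

theorem main_div {n e c s : ℕ} (he : 1 ≤ e) (hc : 1 ≤ c)
    {f g : MvPolynomial (Fin (n + 3)) k} (hf : f.IsHomogeneous (c + e))
    (hg : g.IsHomogeneous c) (hg0 : g ≠ 0)
    (a : Fin (n + 3) → Cc) (ha : AlgebraicIndependent k a)
    (K' : IntermediateField k Cc) (haK : ∀ i, a i ∈ K')
    (t : Fin (n + 1 + s) → W) (ht : AlgebraicIndependent Cc t)
    (httop : adjoin Cc (Set.range t) = ⊤)
    (G : Fin (n + 3) → MvPolynomial (Fin (n + 1 + s)) K')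
    (hGF : aeval (fun i => map (algebraMap K' Cc) (G i)) (map (algebraMap k Cc) f +
      map (algebraMap k Cc) g * ∑ i, C (a i) * X i ^ e) = 0)
    (hdom : ∀ (d : ℕ) (H : MvPolynomial (Fin (n + 3)) Cc), H.IsHomogeneous d →
      aeval (fun i => map (algebraMap K' Cc) (G i)) H = 0 →
      map (algebraMap k Cc) f + map (algebraMap k Cc) g * ∑ i, C (a i) * X i ^ e ∣ H)
    (u : Fin s → W) (hu : ∀ j, u j ∈ adjoin K' (Set.range t))
    (x : Fin (n + 3) → W) (hx : ∀ i, x i = aeval t (map (algebraMap K' Cc) (G i)))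
    (hfin : finrank (adjoin Cc (Set.range (fun i : Fin (n + 2) => x i.succ / x 0) ∪
      Set.range u)) W ≠ 0)
    (hfinK : (adjoin k (Set.range a)).relfinrank K' ≠ 0) :
    e ∣ (adjoin k (Set.range a)).relfinrank K' *
      finrank (adjoin Cc (Set.range (fun i : Fin (n + 2) => x i.succ / x 0) ∪
        Set.range u)) W := by
  have hcC : CharZero Cc := charZero_of_injective_algebraMap (algebraMap k Cc).injective
  have hcomp0 : (algebraMap K' Cc).comp (algebraMap k K') = algebraMap k Cc := rfl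
  have hFK := pull_eq (e := e) (algebraMap K' Cc) hcomp0 f g (fun i => (⟨a i, haK i⟩ : K')) a
    (fun i => rfl) G hGF
  set φ : Cc →ₐ[k] W := IsScalarTower.toAlgHom k Cc W with hφ
  set A0 : IntermediateField k Cc := adjoin k (Set.range a) with hA0
  have hA0K : A0 ≤ K' := adjoin_le_iff.2 (by rintro _ ⟨i, rfl⟩; exact haK i)
  set q : MvPolynomial (Fin (n + 3)) Cc := ∑ i, C (a i) * X i ^ e with hq
  set F : MvPolynomial (Fin (n + 3)) Cc := map (algebraMap k Cc) f + map (algebraMap k Cc) g * q
    with hF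
  have hqh : q.IsHomogeneous e := sum_form a
  have hgh : (map (algebraMap k Cc) g).IsHomogeneous c := hg.map _
  have hFh : F.IsHomogeneous (c + e) := (hf.map _).add (hgh.mul hqh)
  have ha0 : a 0 ≠ 0 := ha.ne_zero 0
  have hq0 : q ≠ 0 := by
    intro h
    have h1 := congrArg (aeval (Pi.single 0 1 : Fin (n + 3) → Cc)) h
    rw [hq, map_zero, map_sum, Finset.sum_eq_single 0] at h1
    · rw [map_mul, aeval_C, map_pow, aeval_X, Pi.single_eq_same, one_pow, mul_one] at h1
      exact ha0 h1
    · intro i _ hi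
      rw [map_mul, map_pow, aeval_X, Pi.single_eq_of_ne hi, zero_pow (by omega), mul_zero]
    · intro h
      exact absurd (Finset.mem_univ _) h
  have hgC0 : map (algebraMap k Cc) g ≠ 0 := by
    intro h
    exact hg0 (map_injective _ (algebraMap k Cc).injective (by rw [h, map_zero]))
  -- values at the point `x`
  have hxev : ∀ H : MvPolynomial (Fin (n + 3)) Cc,
      aeval x H = aeval t (aeval (fun i => map (algebraMap K' Cc) (G i)) H) := by
    intro H
    have h1 := comp_aeval_apply (fun i => map (algebraMap K' Cc) (G i))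
      (aeval t : MvPolynomial (Fin (n + 1 + s)) Cc →ₐ[Cc] W) H
    rw [h1]
    congr 2
    funext i
    exact hx i
  have hFx : aeval x F = 0 := by rw [hxev, hGF, map_zero]
  have hdomx : ∀ (d : ℕ) (H : MvPolynomial (Fin (n + 3)) Cc), H.IsHomogeneous d →
      aeval x H = 0 → F ∣ H := by
    intro d H hH h
    rw [hxev] at h
    exact hdom d H hH ((algebraicIndependent_iff.1 ht) _ h)
  have hx0 : x 0 ≠ 0 := by
    intro h
    refine not_dvd_of_deg hFh (isHomogeneous_X Cc (0 : Fin (n + 3))) (X_ne_zero 0) (by omega)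
      (hdomx 1 _ (isHomogeneous_X Cc 0) ?_)
    rw [aeval_X, h]
  have hgx : aeval x (map (algebraMap k Cc) g) ≠ 0 := fun h =>
    not_dvd_of_deg hFh hgh hgC0 (by omega) (hdomx c _ hgh h)
  have hqx : aeval x q ≠ 0 := fun h =>
    not_dvd_of_deg hFh hqh hq0 (by omega) (hdomx e _ hqh h)
  have hf0 : f ≠ 0 := by
    rintro rfl
    rw [hF, map_zero, zero_add, map_mul] at hFx
    rcases mul_eq_zero.1 hFx with h | h
    · exact hgx h
    · exact hqx h
  -- the fields
  set Y : Fin (n + 2) → W := fun i => x i.succ / x 0 with hYdef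
  have hYx : ∀ i : Fin (n + 2), x i.succ = Y i * x 0 := fun i => by
    rw [hYdef]
    field_simp
  set aW : Fin (n + 3) → W := fun i => φ (a i) with haW
  have hA1 : A0.map φ = adjoin k (Set.range aW) := by
    rw [hA0, adjoin_map, ← Set.range_comp]
    rfl
  set K1 : IntermediateField k W := K'.map φ with hK1
  have hA1K1 : A0.map φ ≤ K1 := IntermediateField.map_mono _ hA0K
  -- the degree of the extension of the constants
  let a' : Fin (n + 3) → A0 := fun i => ⟨a i, subset_adjoin _ _ ⟨i, rfl⟩⟩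
  have hmapA : map (algebraMap A0 Cc) (map (algebraMap k A0) f +
      map (algebraMap k A0) g * ∑ i, C (a' i) * X i ^ e) = F := by
    have h1 : (algebraMap A0 Cc).comp (algebraMap k A0) = algebraMap k Cc := rfl
    simp only [map_add, map_mul, MvPolynomial.map_map, h1, map_sum, map_C, map_pow, map_X, hF, hq]
    rfl
  have hld : (adjoin A0 (Set.range Y)).LinearDisjoint Cc := by
    refine proj_disj (map (algebraMap k A0) f +
      map (algebraMap k A0) g * ∑ i, C (a' i) * X i ^ e) x hx0 Y hYx ?_ ?_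
    · rw [← aeval_map_algebraMap Cc, hmapA, hFx]
    · intro d H hH h
      rw [hmapA]
      exact hdomx d H hH h
  have hdeg0 := rel_const (W := W) hA0K hfinK (Set.range Y) hld
  rw [← hφ, ← hK1] at hdeg0
  set N0 : IntermediateField k W := A0.map φ ⊔ adjoin k (Set.range Y) with hN0
  set N0' : IntermediateField k W := K1 ⊔ adjoin k (Set.range Y) with hN0'
  have hN00 : N0 ≤ N0' := sup_le_sup_right hA1K1 _
  -- change of the constants
  have hfd : FiniteDimensional (adjoin Cc (Set.range Y ∪ Set.range u)) W :=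
    FiniteDimensional.of_finrank_pos (Nat.pos_of_ne_zero hfin)
  have htmem : ∀ l, t l ∈ adjoin K' (Set.range t) := fun l => subset_adjoin _ _ ⟨l, rfl⟩
  have hxmem : ∀ i, x i ∈ adjoin K' (Set.range t) := by
    intro i
    rw [hx i, aeval_map_algebraMap, aeval_def, eval₂_eq]
    exact sum_mem fun α _ => mul_mem ((adjoin K' (Set.range t)).algebraMap_mem _)
      (prod_mem fun l _ => pow_mem (htmem l) _)
  have hSmem : Set.range Y ∪ Set.range u ⊆ adjoin K' (Set.range t) := by
    rintro _ (⟨i, rfl⟩ | ⟨j, rfl⟩)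
    · exact div_mem (hxmem _) (hxmem _)
    · exact hu j
  have hdeg1 := base_change (A := K') t ht httop (Set.range Y ∪ Set.range u) hSmem hfd
  have e1 : relfinrank (F := K') (adjoin K' (Set.range Y ∪ Set.range u))
      (adjoin K' (Set.range t)) = relfinrank (F := k)
      ((adjoin K' (Set.range Y ∪ Set.range u)).restrictScalars k)
      ((adjoin K' (Set.range t)).restrictScalars k) := rfl
  rw [e1, res_sub, res_sub, ← hφ, ← hK1, adjoin_union, ← sup_assoc, ← hN0'] at hdeg1
  set N1' : IntermediateField k W := N0' ⊔ adjoin k (Set.range u) with hN1'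
  set M1 : IntermediateField k W := K1 ⊔ adjoin k (Set.range t) with hM1
  set N1 : IntermediateField k W := N0 ⊔ adjoin k (Set.range u) with hN1
  have hN11 : N1 ≤ N1' := sup_le_sup_right hN00 _
  have hN1M : N1' ≤ M1 := by
    have h1 : adjoin K' (Set.range Y ∪ Set.range u) ≤ adjoin K' (Set.range t) :=
      adjoin_le_iff.2 hSmem
    have h2 : (adjoin K' (Set.range Y ∪ Set.range u)).restrictScalars k ≤
        (adjoin K' (Set.range t)).restrictScalars k := h1
    rw [res_sub, res_sub, ← hφ, ← hK1, adjoin_union, ← sup_assoc, ← hN0'] at h2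
    exact h2
  -- the relation
  have hyy : ∀ h : MvPolynomial (Fin (n + 3)) k, ∀ d, h.IsHomogeneous d →
      aeval (Fin.cons 1 Y : Fin (n + 3) → W) h = aeval x (map (algebraMap k Cc) h) / x 0 ^ d := by
    intro h d hh
    rw [aeval_map_algebraMap, ← aeval_map_algebraMap W, ← aeval_map_algebraMap W (x := x),
      ← aeval_div x (x 0) (hh.map _)]
    congr 2
    funext i
    refine Fin.cases ?_ (fun j => ?_) i
    · rw [Fin.cons_zero, div_self hx0]
    · rw [Fin.cons_succ]
  have hg1 : aeval (Fin.cons 1 Y : Fin (n + 3) → W) g ≠ 0 := by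
    rw [hyy g c hg]
    exact div_ne_zero hgx (pow_ne_zero _ hx0)
  have hqx' : aeval x q = x 0 ^ e * (aW 0 + ∑ i : Fin (n + 2), aW i.succ * Y i ^ e) := by
    rw [hq, map_sum, Fin.sum_univ_succ, mul_add, Finset.mul_sum]
    have h0 : aeval x (C (a 0) * X 0 ^ e : MvPolynomial (Fin (n + 3)) Cc) = x 0 ^ e * aW 0 := by
      rw [map_mul, aeval_C, map_pow, aeval_X, mul_comm]
      rfl
    rw [h0]
    congr 1
    refine Finset.sum_congr rfl fun i _ => ?_
    rw [map_mul, aeval_C, map_pow, aeval_X, hYx i, mul_pow]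
    have h1 : algebraMap Cc W (a i.succ) = aW i.succ := rfl
    rw [h1]
    ring
  have ha0rel : aW 0 = -(aeval (Fin.cons 1 Y : Fin (n + 3) → W) f /
      aeval (Fin.cons 1 Y : Fin (n + 3) → W) g) - ∑ i : Fin (n + 2), aW i.succ * Y i ^ e := by
    have h1 : aeval x (map (algebraMap k Cc) f) + aeval x (map (algebraMap k Cc) g) *
        (x 0 ^ e * (aW 0 + ∑ i : Fin (n + 2), aW i.succ * Y i ^ e)) = 0 := by
      rw [← hqx', ← map_mul, ← map_add]
      exact hFx
    have h2 : aeval (Fin.cons 1 Y : Fin (n + 3) → W) f + aeval (Fin.cons 1 Y : Fin (n + 3) → W) g *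
        (aW 0 + ∑ i : Fin (n + 2), aW i.succ * Y i ^ e) = 0 := by
      rw [hyy f (c + e) hf, hyy g c hg, pow_add]
      have hxc : x 0 ^ c ≠ 0 := pow_ne_zero _ hx0
      have hxe : x 0 ^ e ≠ 0 := pow_ne_zero _ hx0
      field_simp
      linear_combination h1
    field_simp
    linear_combination h2
  -- the generators
  set x1 : (Fin (n + 2) ⊕ Fin (n + 2)) ⊕ Fin s → W :=
    Sum.elim (Sum.elim (fun i : Fin (n + 2) => aW i.succ) Y) u with hx1
  have hform : ∀ (E : IntermediateField k W), (∀ i, Y i ∈ E) → ∀ h : MvPolynomial (Fin (n + 3)) k,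
      aeval (Fin.cons 1 Y : Fin (n + 3) → W) h ∈ E := by
    intro E hE h
    rw [aeval_def, eval₂_eq]
    refine sum_mem fun α _ => mul_mem (E.algebraMap_mem _) (prod_mem fun i _ => pow_mem ?_ _)
    refine Fin.cases ?_ (fun j => ?_) i
    · rw [Fin.cons_zero]
      exact one_mem _
    · rw [Fin.cons_succ]
      exact hE j
  have ha0mem : ∀ (E : IntermediateField k W), (∀ i, Y i ∈ E) →
      (∀ i : Fin (n + 2), aW i.succ ∈ E) → aW 0 ∈ E := by
    intro E hE hE'
    rw [ha0rel]
    exact sub_mem (neg_mem (div_mem (hform E hE f) (hform E hE g)))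
      (sum_mem fun i _ => mul_mem (hE' i) (pow_mem (hE i) e))
  have hN0eq : adjoin k (Set.range (Sum.elim (fun i : Fin (n + 2) => aW i.succ) Y)) = N0 := by
    apply le_antisymm
    · rw [adjoin_le_iff]
      rintro _ ⟨(i | i), rfl⟩
      · refine (le_sup_left : A0.map φ ≤ N0) ?_
        rw [hA1]
        exact subset_adjoin _ _ ⟨i.succ, rfl⟩
      · exact (le_sup_right : adjoin k (Set.range Y) ≤ N0) (subset_adjoin _ _ ⟨i, rfl⟩)
    · have hY1 : ∀ i, Y i ∈ adjoin k (Set.range
          (Sum.elim (fun i : Fin (n + 2) => aW i.succ) Y)) := fun i =>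
        subset_adjoin _ _ ⟨Sum.inr i, rfl⟩
      have ha1 : ∀ i : Fin (n + 2), aW i.succ ∈ adjoin k (Set.range
          (Sum.elim (fun i : Fin (n + 2) => aW i.succ) Y)) := fun i =>
        subset_adjoin _ _ ⟨Sum.inl i, rfl⟩
      refine sup_le ?_ ?_
      · rw [hA1, adjoin_le_iff]
        rintro _ ⟨i, rfl⟩
        exact Fin.cases (ha0mem _ hY1 ha1) ha1 i
      · rw [adjoin_le_iff]
        rintro _ ⟨i, rfl⟩
        exact hY1 i
  have hN1eq : adjoin k (Set.range x1) = N1 := by
    rw [hx1, Set.Sum.elim_range, adjoin_union, hN0eq]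
  -- algebraic over `N1`
  have hK1alg : ∀ z ∈ K1, IsAlgebraic N1 z := by
    rintro _ ⟨ζ, hζ, rfl⟩
    have h1 := alg_of_relfinrank hA0K hfinK ζ hζ
    have h2 := alg_map φ (Set.range a) h1
    refine alg_mono ?_ h2
    rw [← adjoin_map, ← hA0]
    exact le_sup_left.trans le_sup_left
  have hN1'alg : ∀ z ∈ N1', IsAlgebraic N1 z := by
    have h1 : N1' ≤ N1 ⊔ adjoin k (K1 : Set W) := by
      rw [adjoin_self]
      refine sup_le (sup_le ?_ ?_) ?_
      · exact le_sup_right
      · exact (le_sup_right.trans le_sup_left : adjoin k (Set.range Y) ≤ N1).trans le_sup_left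
      · exact (le_sup_right : adjoin k (Set.range u) ≤ N1).trans le_sup_left
    intro z hz
    exact alg_sup hK1alg z (h1 hz)
  have hM1alg : ∀ z ∈ M1, IsAlgebraic N1 z := by
    intro z hz
    have h1 : N1'.relfinrank M1 ≠ 0 := by
      rw [hdeg1]
      exact hfin
    exact alg_trans hN11 hN1'alg (alg_of_relfinrank hN1M h1 z hz)
  have htM : ∀ l, t l ∈ M1 := fun l =>
    (le_sup_right : adjoin k (Set.range t) ≤ M1) (subset_adjoin _ _ ⟨l, rfl⟩)
  have haWK1 : ∀ i, aW i ∈ K1 := fun i => ⟨a i, haK i, rfl⟩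
  have haM : ∀ i, aW i ∈ M1 := fun i => (le_sup_left : K1 ≤ M1) (haWK1 i)
  have hN1M1 : N1 ≤ M1 := hN11.trans hN1M
  have hYN1 : ∀ i, Y i ∈ N1 := fun i =>
    (le_sup_right.trans le_sup_left : adjoin k (Set.range Y) ≤ N1) (subset_adjoin _ _ ⟨i, rfl⟩)
  have huN1 : ∀ i, u i ∈ N1 := fun i =>
    (le_sup_right : adjoin k (Set.range u) ≤ N1) (subset_adjoin _ _ ⟨i, rfl⟩)
  have haN1 : ∀ i, aW i ∈ N1 := fun i => by
    refine (le_sup_left.trans le_sup_left : A0.map φ ≤ N1) ?_
    rw [hA1]
    exact subset_adjoin _ _ ⟨i, rfl⟩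
  have hind1 : AlgebraicIndependent k x1 := by
    have h1 : AlgebraicIndependent k (Sum.elim t (algebraMap Cc W ∘ a)) := ha.sumElim_comp ht
    refine indep_count_sub M1 ?_ ?_ ?_ h1 ?_
    · rintro ((i | i) | i)
      · exact haM _
      · exact hN1M1 (hYN1 i)
      · exact hN1M1 (huN1 i)
    · intro z hz
      rw [hN1eq]
      exact hM1alg z hz
    · rintro (i | i)
      · exact htM i
      · exact haM i
    · simp only [Cardinal.mk_sum, Cardinal.lift_id, Cardinal.mk_fin]
      push_cast
      apply le_of_eq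
      ring
  -- the degree of `M1` over `N1`
  have huN0 : AlgebraicIndependent N0 u := by
    have h1 : AlgebraicIndependent k
        (Sum.elim u (Sum.elim (fun i : Fin (n + 2) => aW i.succ) Y)) := by
      have h2 := hind1.comp (Sum.elim (fun i => Sum.inr i) fun i => Sum.inl i) (by
        rintro (i | i) (j | j) h <;>
            simp only [Sum.elim_inl, Sum.elim_inr, Sum.inl.injEq, Sum.inr.injEq,
              reduceCtorEq] at h <;> rw [h])
      convert h2 using 1
      funext i
      rcases i with i | i <;> rfl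
    have h3 := indep_over h1
    rw [hN0eq] at h3
    exact h3
  have hdeg0' : N0.relfinrank N0' ≠ 0 := by
    rw [hdeg0]
    exact hfinK
  have huN0' : AlgebraicIndependent N0' u :=
    indep_ext hN00 (alg_of_relfinrank hN00 hdeg0') huN0
  have hdeg2 := rel_ext hN00 hdeg0' u huN0'
  rw [hdeg0, ← hN1, ← hN1'] at hdeg2
  have hdeg3 : N1.relfinrank M1 = A0.relfinrank K' *
      finrank (adjoin Cc (Set.range Y ∪ Set.range u)) W := by
    rw [← relfinrank_mul_relfinrank hN11 hN1M, hdeg2, hdeg1]
  rw [← hdeg3]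
  have hpos : N1.relfinrank M1 ≠ 0 := by
    rw [hdeg3]
    exact mul_ne_zero hfinK hfin
  rw [relfinrank_eq_finrank_of_le hN1M1] at hpos ⊢
  have hfdM : FiniteDimensional N1 (extendScalars hN1M1) :=
    FiniteDimensional.of_finrank_pos (Nat.pos_of_ne_zero hpos)
  let aN : Fin (n + 3) → N1 := fun i => ⟨aW i, haN1 i⟩
  let YN : Fin (n + 2) → N1 := fun i => ⟨Y i, hYN1 i⟩
  let uN : Fin s → N1 := fun i => ⟨u i, huN1 i⟩
  have hψmem : ∀ z : K', ((algebraMap Cc W).comp (algebraMap K' Cc)) z ∈ extendScalars hN1M1 :=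
    fun z => (le_sup_left : K1 ≤ M1) ⟨z.1, z.2, rfl⟩
  let ψ : K' →+* extendScalars hN1M1 :=
    ((algebraMap Cc W).comp (algebraMap K' Cc)).codRestrict (extendScalars hN1M1) hψmem
  let v : extendScalars hN1M1 →ₐ[k] W := (extendScalars hN1M1).val.restrictScalars k
  let tM : Fin (n + 1 + s) → extendScalars hN1M1 := fun l => ⟨t l, htM l⟩
  have hval : ∀ i, v (eval tM (map ψ (G i))) = x i := by
    intro i
    have h1 := eval_map' (v : extendScalars hN1M1 →+* W) tM (map ψ (G i))
    rw [MvPolynomial.map_map] at h1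
    have h2 : (v : extendScalars hN1M1 →+* W) (eval tM (map ψ (G i))) = v (eval tM (map ψ (G i))) :=
      rfl
    rw [← h2, ← h1, hx i, aeval_map_algebraMap, eval_map]
    rfl
  refine transfer (k := k) (N := N1) (M := extendScalars hN1M1) he aN YN uN ?_ ?_ hf hg hf0 hg0
    (K1.comap v) ?_ (fun i => map ψ (G i)) ?_ ?_ tM ?_ ?_
  · refine AlgebraicIndependent.of_comp N1.val ?_
    convert hind1 using 1
    funext i
    rcases i with (i | i) | i <;> rfl
  · apply top_of_image
    refine (le_of_eq hN1eq.symm).trans ?_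
    rw [adjoin_le_iff]
    rintro _ ⟨((i | i) | i), rfl⟩
    · exact subset_adjoin _ _ ⟨aN i.succ, Or.inl (Or.inl ⟨_, rfl⟩), rfl⟩
    · exact subset_adjoin _ _ ⟨YN i, Or.inl (Or.inr ⟨_, rfl⟩), rfl⟩
    · exact subset_adjoin _ _ ⟨uN i, Or.inr ⟨_, rfl⟩, rfl⟩
  · intro z hz
    apply alg_comap v
    obtain ⟨ζ, hζ, hζz⟩ := hz
    have h1 := alg_map φ (Set.range a) (alg_of_relfinrank hA0K hfinK ζ hζ)
    have h2 : φ '' Set.range a = v '' Set.range fun i =>
        algebraMap N1 (extendScalars hN1M1) (aN i) := by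
      rw [← Set.range_comp, ← Set.range_comp]
      rfl
    rw [h2] at h1
    have h3 : φ ζ = v z := hζz
    rw [h3] at h1
    exact h1
  · intro i α
    rw [coeff_map]
    exact ⟨_, (coeff α (G i)).2, rfl⟩
  · have hψk : ψ.comp (algebraMap k K') = algebraMap k (extendScalars hN1M1) :=
      RingHom.ext fun z => Subtype.ext (IsScalarTower.algebraMap_apply k Cc W z).symm
    have h3 : ∀ i, ψ (⟨a i, haK i⟩ : K') = algebraMap N1 (extendScalars hN1M1) (aN i) := fun i =>
      Subtype.ext rfl
    exact push_eq (e := e) ψ hψk f g _ _ h3 G hFK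
  · intro h
    have h1 := hval 0
    rw [h, map_zero] at h1
    exact hx0 h1.symm
  · intro i
    apply v.injective
    rw [map_mul]
    change v (eval tM (map ψ (G i.succ))) = v _ * v (eval tM (map ψ (G 0)))
    rw [hval, hval]
    exact hYx i

end

end Pool.Agent.X328.FD
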