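import Pool.Agent.X328.FD.Form

/-! # The path argument

A polynomial curve over a field `M` with a nonarchimedean absolute value on which the product of
two forms `g1`, `g2` is small, and which joins a point reducing to no point of `g2 = 0` to a
point reducing to no point of `g1 = 0`, has a coefficient vector which reduces to
`g1 = g2 = 0`. -/

set_option autoImplicit false

namespace Pool.Agent.X328.FD

open Polynomial

noncomputable section

variable {M : Type} [Field M] {v : AbsoluteValue M ℝ} {r : ℕ}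

/-- **The path argument.** -/
theorem path_main (hna : IsNonarchimedean v) {D : ℕ} (C : Fin (r + 1) → M[X])
    (hD : ∀ i, (C i).natDegree ≤ D) {c1 c2 : ℕ} {g1 g2 : MvPolynomial (Fin (r + 1)) M}
    (hh1 : g1.IsHomogeneous c1) (hh2 : g2.IsHomogeneous c2) (hI1 : Int1 v g1) (hI2 : Int1 v g2)
    (hP : ∀ c, 0 < c → gaussNorm v c (MvPolynomial.aeval C g1 * MvPolynomial.aeval C g2) <
      mn v C c ^ (c1 + c2))
    {i0 i1 : Fin (r + 1)} (h00 : (C i0).coeff 0 ≠ 0)
    (h01 : ∀ i, v ((C i).coeff 0) ≤ v ((C i0).coeff 0))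
    (h02 : v ((C i0).coeff 0) ^ c2 ≤ v (MvPolynomial.aeval (fun i => (C i).coeff 0) g2))
    (h10 : (C i1).coeff D ≠ 0) (h11 : ∀ i, v ((C i).coeff D) ≤ v ((C i1).coeff D))
    (h12 : v ((C i1).coeff D) ^ c1 ≤ v (MvPolynomial.aeval (fun i => (C i).coeff D) g1)) :
    ∃ (j : ℕ) (i2 : Fin (r + 1)), (C i2).coeff j ≠ 0 ∧
      (∀ i, v ((C i).coeff j) ≤ v ((C i2).coeff j)) ∧
      v (MvPolynomial.aeval (fun i => (C i).coeff j) g1) < v ((C i2).coeff j) ^ c1 ∧
      v (MvPolynomial.aeval (fun i => (C i).coeff j) g2) < v ((C i2).coeff j) ^ c2 := by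
  classical
  set Lp : M[X] := MvPolynomial.aeval C g1 with hLp
  set Qp : M[X] := MvPolynomial.aeval C g2 with hQp
  have hQ0 : Qp.coeff 0 = MvPolynomial.aeval (fun i => (C i).coeff 0) g2 := coeff_zero_aeval C g2
  have hLD : Lp.coeff (c1 * D) = MvPolynomial.aeval (fun i => (C i).coeff D) g1 :=
    coeff_top_aeval hD hh1
  have ha0 : 0 < v ((C i0).coeff 0) := v.pos h00
  have ha1 : 0 < v ((C i1).coeff D) := v.pos h10
  have hm0 : ∀ c, 0 < c → 0 < mn v C c := by
    intro c hc
    refine lt_of_lt_of_le ?_ (le_mn C c i0)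
    refine lt_of_lt_of_le ?_ (coeff_le (C i0) hc 0)
    rw [pow_zero, mul_one]
    exact ha0
  -- the two sets
  set U : Set ℝ := {c | gaussNorm v c Lp < mn v C c ^ c1} with hU
  set V : Set ℝ := {c | gaussNorm v c Qp < mn v C c ^ c2} with hV
  have hUo : IsOpen U := isOpen_lt (gn_continuous Lp) ((mn_continuous C).pow c1)
  have hVo : IsOpen V := isOpen_lt (gn_continuous Qp) ((mn_continuous C).pow c2)
  have hcover : Set.Ioi (0 : ℝ) ⊆ U ∪ V := by
    intro c hc
    have hc' : 0 < c := hc
    by_contra hcon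
    rw [Set.mem_union, not_or] at hcon
    obtain ⟨h1, h2⟩ := hcon
    have h1' : mn v C c ^ c1 ≤ gaussNorm v c Lp := not_lt.1 h1
    have h2' : mn v C c ^ c2 ≤ gaussNorm v c Qp := not_lt.1 h2
    have h4 := hP c hc'
    rw [gaussNorm_mul hna hc', pow_add] at h4
    have h5 : mn v C c ^ c1 * mn v C c ^ c2 ≤ gaussNorm v c Lp * gaussNorm v c Qp :=
      mul_le_mul h1' h2' (pow_pos (hm0 c hc') _).le (gn_nonneg Lp hc')
    exact absurd h4 (not_lt.2 h5)
  -- a bound for all the coefficients
  set B : ℝ := 1 + ∑ i, ∑ j ∈ Finset.range (D + 1), v ((C i).coeff j) with hB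
  have hBle : ∀ i j, v ((C i).coeff j) ≤ B := by
    intro i j
    have hs : ∀ i, 0 ≤ ∑ j ∈ Finset.range (D + 1), v ((C i).coeff j) :=
      fun i => Finset.sum_nonneg fun j _ => v.nonneg _
    by_cases hj : j ≤ D
    · have h1 : v ((C i).coeff j) ≤ ∑ j ∈ Finset.range (D + 1), v ((C i).coeff j) :=
        Finset.single_le_sum (f := fun j => v ((C i).coeff j)) (fun j _ => v.nonneg _)
          (Finset.mem_range.2 (Nat.lt_succ_of_le hj))
      have h2 : ∑ j ∈ Finset.range (D + 1), v ((C i).coeff j) ≤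
          ∑ i, ∑ j ∈ Finset.range (D + 1), v ((C i).coeff j) :=
        Finset.single_le_sum (f := fun i => ∑ j ∈ Finset.range (D + 1), v ((C i).coeff j))
          (fun i _ => hs i) (Finset.mem_univ i)
      rw [hB]
      linarith
    · rw [coeff_eq_zero_of_natDegree_lt (lt_of_le_of_lt (hD i) (not_le.1 hj)), map_zero, hB]
      have : 0 ≤ ∑ i, ∑ j ∈ Finset.range (D + 1), v ((C i).coeff j) :=
        Finset.sum_nonneg fun i _ => hs i
      linarith
  have hB1 : 1 ≤ B := by
    rw [hB]
    have : 0 ≤ ∑ i, ∑ j ∈ Finset.range (D + 1), v ((C i).coeff j) :=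
      Finset.sum_nonneg fun i _ => Finset.sum_nonneg fun j _ => v.nonneg _
    linarith
  have hB0 : 0 < B := by linarith
  -- small radius
  have hUn : (Set.Ioi (0 : ℝ) ∩ U).Nonempty := by
    set c : ℝ := min 1 (v ((C i0).coeff 0) / B) with hc
    have hc0 : 0 < c := lt_min one_pos (div_pos ha0 hB0)
    refine ⟨c, hc0, ?_⟩
    have hcV : c ∉ V := by
      intro hcV
      have h1 : mn v C c ≤ v ((C i0).coeff 0) := by
        refine mn_le fun i => gn_le fun j => ?_
        rcases Nat.eq_zero_or_pos j with rfl | hj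
        · rw [pow_zero, mul_one]
          exact h01 i
        · obtain ⟨k, rfl⟩ := Nat.exists_eq_succ_of_ne_zero hj.ne'
          have h2 : c ^ (k + 1) ≤ c := by
            rw [pow_succ]
            exact mul_le_of_le_one_left hc0.le (pow_le_one₀ hc0.le (min_le_left _ _))
          calc v ((C i).coeff (k + 1)) * c ^ (k + 1) ≤ B * c :=
                mul_le_mul (hBle i _) h2 (by positivity) hB0.le
            _ ≤ B * (v ((C i0).coeff 0) / B) :=
                mul_le_mul_of_nonneg_left (min_le_right _ _) hB0.le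
            _ = v ((C i0).coeff 0) := by field_simp
      have h2 : gaussNorm v c Qp < mn v C c ^ c2 := hcV
      have h3 := coeff_le (v := v) Qp hc0 0
      rw [pow_zero, mul_one, hQ0] at h3
      have h4 : mn v C c ^ c2 ≤ v ((C i0).coeff 0) ^ c2 :=
        pow_le_pow_left₀ (hm0 c hc0).le h1 c2
      linarith
    exact (hcover hc0).resolve_right hcV
  -- large radius
  have hVn : (Set.Ioi (0 : ℝ) ∩ V).Nonempty := by
    set c : ℝ := max 1 (B / v ((C i1).coeff D)) with hc
    have hc1 : 1 ≤ c := le_max_left _ _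
    have hc0 : 0 < c := by linarith
    refine ⟨c, hc0, ?_⟩
    have hcU : c ∉ U := by
      intro hcU
      have h1 : mn v C c ≤ v ((C i1).coeff D) * c ^ D := by
        refine mn_le fun i => gn_le fun j => ?_
        rcases lt_trichotomy j D with hj | rfl | hj
        · obtain ⟨k, rfl⟩ := Nat.exists_eq_add_of_lt hj
          have h2 : B ≤ v ((C i1).coeff (j + k + 1)) * c := by
            have h3 : B / v ((C i1).coeff (j + k + 1)) ≤ c := le_max_right _ _
            rw [div_le_iff₀ ha1] at h3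
            linarith
          calc v ((C i).coeff j) * c ^ j ≤ B * c ^ j :=
                mul_le_mul_of_nonneg_right (hBle i j) (by positivity)
            _ ≤ (v ((C i1).coeff (j + k + 1)) * c) * c ^ j :=
                mul_le_mul_of_nonneg_right h2 (by positivity)
            _ = v ((C i1).coeff (j + k + 1)) * (c ^ (j + 1) * 1) := by ring
            _ ≤ v ((C i1).coeff (j + k + 1)) * (c ^ (j + 1) * c ^ k) := by
                refine mul_le_mul_of_nonneg_left ?_ ha1.le
                exact mul_le_mul_of_nonneg_left (one_le_pow₀ hc1) (by positivity)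
            _ = v ((C i1).coeff (j + k + 1)) * c ^ (j + k + 1) := by ring
        · exact mul_le_mul_of_nonneg_right (h11 i) (by positivity)
        · rw [coeff_eq_zero_of_natDegree_lt (lt_of_le_of_lt (hD i) hj), map_zero, zero_mul]
          positivity
      have h2 : gaussNorm v c Lp < mn v C c ^ c1 := hcU
      have h3 := coeff_le (v := v) Lp hc0 (c1 * D)
      rw [hLD] at h3
      have h4 : mn v C c ^ c1 ≤ (v ((C i1).coeff D) * c ^ D) ^ c1 :=
        pow_le_pow_left₀ (hm0 c hc0).le h1 c1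
      have h5 : (v ((C i1).coeff D) * c ^ D) ^ c1 ≤
          v (MvPolynomial.aeval (fun i => (C i).coeff D) g1) * c ^ (c1 * D) := by
        rw [mul_pow, ← pow_mul, mul_comm D c1]
        exact mul_le_mul_of_nonneg_right h12 (by positivity)
      linarith
    exact (hcover hc0).resolve_left hcU
  -- a common radius without ties
  obtain ⟨c₁, hc₁, hc₁UV⟩ := isPreconnected_Ioi U V hUo hVo hcover hUn hVn
  have hWo : IsOpen (Set.Ioi (0 : ℝ) ∩ (U ∩ V)) := isOpen_Ioi.inter (hUo.inter hVo)
  have hWinf : (Set.Ioi (0 : ℝ) ∩ (U ∩ V)).Infinite :=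
    infinite_of_mem_nhds c₁ (hWo.mem_nhds ⟨hc₁, hc₁UV⟩)
  set T : Set ℝ := ⋃ x ∈ (((Finset.univ : Finset (Fin (r + 1))) ×ˢ Finset.range (D + 1)) ×ˢ
      ((Finset.univ : Finset (Fin (r + 1))) ×ˢ Finset.range (D + 1))).filter
        (fun x => x.1.2 ≠ x.2.2 ∧ (C x.1.1).coeff x.1.2 ≠ 0 ∧ (C x.2.1).coeff x.2.2 ≠ 0),
      {c : ℝ | 0 < c ∧ v ((C x.1.1).coeff x.1.2) * c ^ x.1.2 =
        v ((C x.2.1).coeff x.2.2) * c ^ x.2.2} with hT
  have hTfin : T.Finite := by
    refine Set.Finite.biUnion (Finset.finite_toSet _) fun x hx => ?_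
    rw [Finset.mem_coe, Finset.mem_filter] at hx
    exact (tie_subsingleton (v.pos hx.2.2.1) (v.pos hx.2.2.2) hx.2.1).finite
  obtain ⟨c, ⟨hc0, hcU, hcV⟩, hcT⟩ := (hWinf.sdiff hTfin).nonempty
  have hc0' : 0 < c := hc0
  obtain ⟨i2, hi2⟩ := exists_mn (v := v) C c
  obtain ⟨j, hj⟩ := exists_eq_gaussNorm v c (C i2)
  have hmj : mn v C c = v ((C i2).coeff j) * c ^ j := hi2.trans hj
  have hne : (C i2).coeff j ≠ 0 := by
    intro h
    have h1 := hm0 c hc0'
    rw [hmj, h, map_zero, zero_mul] at h1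
    exact lt_irrefl _ h1
  have hjD : j ≤ D := by
    by_contra hcon
    exact hne (coeff_eq_zero_of_natDegree_lt (lt_of_le_of_lt (hD i2) (not_le.1 hcon)))
  have hle : ∀ i k, v ((C i).coeff k) * c ^ k ≤ mn v C c := fun i k =>
    (coeff_le (C i) hc0' k).trans (le_mn C c i)
  have hlt : ∀ i k, k ≠ j → v ((C i).coeff k) * c ^ k < mn v C c := by
    intro i k hk
    refine lt_of_le_of_ne (hle i k) fun heq => hcT ?_
    have hik : (C i).coeff k ≠ 0 := by
      intro h
      have h1 := hm0 c hc0'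
      rw [← heq, h, map_zero, zero_mul] at h1
      exact lt_irrefl _ h1
    have hkD : k ≤ D := by
      by_contra hcon
      exact hik (coeff_eq_zero_of_natDegree_lt (lt_of_le_of_lt (hD i) (not_le.1 hcon)))
    rw [hT, Set.mem_iUnion₂]
    refine ⟨((i, k), (i2, j)), ?_, hc0', heq.trans hmj⟩
    rw [Finset.mem_filter, Finset.mem_product, Finset.mem_product, Finset.mem_product]
    exact ⟨⟨⟨Finset.mem_univ _, Finset.mem_range.2 (Nat.lt_succ_of_le hkD)⟩,
      ⟨Finset.mem_univ _, Finset.mem_range.2 (Nat.lt_succ_of_le hjD)⟩⟩, hk, hik, hne⟩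
  have hcj : 0 < c ^ j := pow_pos hc0' j
  -- the remainders
  set z : Fin (r + 1) → M := fun i => (C i).coeff j with hz
  have hRlt : ∀ i, gaussNorm v c (Polynomial.C (z i) * X ^ j - C i) < mn v C c := by
    intro i
    refine gn_lt fun k => ?_
    simp only [coeff_sub, coeff_C_mul, coeff_X_pow]
    by_cases hk : k = j
    · subst hk
      simp only [if_true, mul_one, hz, sub_self, map_zero, zero_mul]
      exact hm0 c hc0'
    · simp only [if_neg hk, mul_zero, zero_sub, v.map_neg]
      exact hlt i k hk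
  have hmon : ∀ i, gaussNorm v c (Polynomial.C (z i) * X ^ j) ≤ mn v C c := by
    intro i
    rw [C_mul_X_pow_eq_monomial, gaussNorm_monomial]
    exact hle i j
  have key : ∀ {h : MvPolynomial (Fin (r + 1)) M} {d : ℕ}, h.IsHomogeneous d → Int1 v h →
      gaussNorm v c (MvPolynomial.aeval C h) < mn v C c ^ d →
      v (MvPolynomial.aeval z h) < v ((C i2).coeff j) ^ d := by
    intro h d hh hi hlt
    have e1 := form_lt hna hc0' (hm0 c hc0') hmon (fun i => le_mn C c i) hRlt hh hi
    have e2 : gaussNorm v c (MvPolynomial.aeval (fun i => Polynomial.C (z i) * X ^ j) h) <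
        mn v C c ^ d := by
      have e3 : MvPolynomial.aeval (fun i => Polynomial.C (z i) * X ^ j) h =
          (MvPolynomial.aeval (fun i => Polynomial.C (z i) * X ^ j) h -
            MvPolynomial.aeval C h) + MvPolynomial.aeval C h := by ring
      rw [e3]
      exact (isNonarchimedean_gaussNorm v hna hc0'.le _ _).trans_lt (max_lt e1 hlt)
    rw [aeval_monomial_pow z j hh, C_mul_X_pow_eq_monomial, gaussNorm_monomial, hmj, mul_pow,
      ← pow_mul] at e2
    exact lt_of_mul_lt_mul_right e2 (pow_pos hc0' _).le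
  refine ⟨j, i2, hne, fun i => ?_, key hh1 hI1 hcU, key hh2 hI2 hcV⟩
  have h1 := hle i j
  rw [hmj] at h1
  exact le_of_mul_le_mul_right h1 hcj

end

end Pool.Agent.X328.FD
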