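import Pool.Agent.X328.FD.Path
import Pool.Agent.Helper386.D5V.Helper386_FF_RR

/-! # The path argument at a place -/

set_option autoImplicit false

namespace Pool.Agent.X328.FD

open Polynomial FF

noncomputable section

variable {k N : Type} [Field k] [Field N] [Algebra k N]

open Classical in
/-- the absolute value of a place -/
def absv (w : Place k N) : AbsoluteValue N ℝ where
  toFun x := if x = 0 then 0 else (2 : ℝ) ^ (-w.ord x)
  map_mul' x y := by
    by_cases hx : x = 0
    · simp [hx]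
    by_cases hy : y = 0
    · simp [hy]
    rw [if_neg hx, if_neg hy, if_neg (mul_ne_zero hx hy), w.ord_mul hx hy, neg_add,
      zpow_add₀ (by norm_num)]
  nonneg' x := by
    by_cases hx : x = 0
    · simp [hx]
    rw [if_neg hx]
    positivity
  eq_zero' x := by
    by_cases hx : x = 0
    · simp [hx]
    rw [if_neg hx]
    constructor
    · intro h
      exact absurd h (by positivity)
    · intro h
      exact absurd h hx
  add_le' x y := by
    by_cases hx : x = 0
    · simp [hx]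
    by_cases hy : y = 0
    · simp [hy]
    rw [if_neg hx, if_neg hy]
    by_cases hxy : x + y = 0
    · rw [if_pos hxy]
      positivity
    rw [if_neg hxy]
    have h1 := w.ord_add hx hy hxy
    rcases min_le_iff.1 h1 with h | h
    · have h2 : (2 : ℝ) ^ (-w.ord (x + y)) ≤ 2 ^ (-w.ord x) :=
        zpow_le_zpow_right₀ (by norm_num) (by omega)
      have h3 : (0 : ℝ) < 2 ^ (-w.ord y) := by positivity
      linarith
    · have h2 : (2 : ℝ) ^ (-w.ord (x + y)) ≤ 2 ^ (-w.ord y) :=
        zpow_le_zpow_right₀ (by norm_num) (by omega)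
      have h3 : (0 : ℝ) < 2 ^ (-w.ord x) := by positivity
      linarith

theorem absv_of_ne (w : Place k N) {x : N} (hx : x ≠ 0) : absv w x = (2 : ℝ) ^ (-w.ord x) :=
  if_neg hx

theorem absv_na (w : Place k N) : IsNonarchimedean (absv w) := by
  intro x y
  by_cases hx : x = 0
  · simp [hx]
  by_cases hy : y = 0
  · simp [hy]
  by_cases hxy : x + y = 0
  · rw [hxy, map_zero]
    exact le_max_of_le_left ((absv w).nonneg x)
  rw [absv_of_ne w hx, absv_of_ne w hy, absv_of_ne w hxy]
  have h1 := w.ord_add hx hy hxy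
  rcases min_le_iff.1 h1 with h | h
  · exact le_max_of_le_left (zpow_le_zpow_right₀ (by norm_num) (by omega))
  · exact le_max_of_le_right (zpow_le_zpow_right₀ (by norm_num) (by omega))

theorem absv_le_one (w : Place k N) {x : N} : absv w x ≤ 1 ↔ w.Reg x := by
  by_cases hx : x = 0
  · subst hx
    rw [map_zero]
    exact ⟨fun _ => w.reg_zero, fun _ => zero_le_one⟩
  rw [w.reg_iff hx, absv_of_ne w hx]
  constructor
  · intro h
    by_contra hcon
    have : (1 : ℝ) < 2 ^ (-w.ord x) := one_lt_zpow₀ (by norm_num) (by omega)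
    linarith
  · intro h
    exact zpow_le_one_of_nonpos₀ (by norm_num) (by omega)

theorem absv_lt_one (w : Place k N) {x : N} : absv w x < 1 ↔ (w.Reg x ∧ w.red x = 0) := by
  by_cases hx : x = 0
  · subst hx
    rw [map_zero]
    exact ⟨fun _ => ⟨w.reg_zero, w.red_zero⟩, fun _ => zero_lt_one⟩
  rw [absv_of_ne w hx]
  constructor
  · intro h
    have h1 : 0 < w.ord x := by
      by_contra hcon
      have : (1 : ℝ) ≤ 2 ^ (-w.ord x) := one_le_zpow₀ (by norm_num) (by omega)
      linarith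
    have h2 : w.Reg x := (w.reg_iff hx).2 h1.le
    exact ⟨h2, (w.red_eq_zero_iff h2).2 (Or.inr h1)⟩
  · rintro ⟨h1, h2⟩
    have h3 := ((w.red_eq_zero_iff h1).1 h2).resolve_left hx
    exact zpow_lt_one_of_neg₀ (by norm_num) (by omega)

theorem aeval_div {σ : Type} {M : Type} [Field M] (y : σ → M) (u : M) {d : ℕ}
    {G : MvPolynomial σ M} (hG : G.IsHomogeneous d) :
    MvPolynomial.aeval (fun i => y i / u) G = MvPolynomial.aeval y G / u ^ d := by
  rw [MvPolynomial.aeval_def, MvPolynomial.aeval_def, MvPolynomial.eval₂_eq,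
    MvPolynomial.eval₂_eq, Finset.sum_div]
  refine Finset.sum_congr rfl fun m hm => ?_
  have h1 : ∑ i ∈ m.support, m i = d := by
    have := hG (MvPolynomial.mem_support_iff.1 hm)
    rw [Finsupp.weight_apply] at this
    simpa [Finsupp.sum] using this
  have h2 : ∏ i ∈ m.support, (y i / u) ^ m i = (∏ i ∈ m.support, y i ^ m i) / u ^ d := by
    rw [← h1, ← Finset.prod_pow_eq_pow_sum, ← Finset.prod_div_distrib]
    exact Finset.prod_congr rfl fun i _ => div_pow _ _ _
  rw [h2, mul_div_assoc]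

theorem exists_max {r : ℕ} (v : N → ℝ) (y : Fin (r + 1) → N) :
    ∃ i0, ∀ i, v (y i) ≤ v (y i0) := by
  obtain ⟨i0, -, h⟩ := Finset.exists_max_image Finset.univ (fun i => v (y i))
    Finset.univ_nonempty
  exact ⟨i0, fun i => h i (Finset.mem_univ i)⟩

theorem norm_small (w : Place k N) {r d : ℕ} {g : MvPolynomial (Fin (r + 1)) N}
    (hg : g.IsHomogeneous d) (y : Fin (r + 1) → N) (i0 : Fin (r + 1)) (h0 : y i0 ≠ 0)
    (hmax : ∀ i, absv w (y i) ≤ absv w (y i0)) :
    (∀ i, w.Reg (y i / y i0)) ∧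
      (absv w (MvPolynomial.aeval y g) < absv w (y i0) ^ d →
        w.Reg (MvPolynomial.aeval (fun i => y i / y i0) g) ∧
          w.red (MvPolynomial.aeval (fun i => y i / y i0) g) = 0) := by
  have hp : 0 < absv w (y i0) := (absv w).pos h0
  constructor
  · intro i
    rw [← absv_le_one, map_div₀, div_le_one hp]
    exact hmax i
  · intro h
    rw [← absv_lt_one, aeval_div y _ hg, map_div₀, map_pow, div_lt_one (pow_pos hp d)]
    exact h

/-- **The path argument at a place.** -/
theorem place_path (w : Place k N) {r D c1 c2 : ℕ} (C : Fin (r + 1) → N[X])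
    (hD : ∀ i, (C i).natDegree ≤ D) {g1 g2 f3 : MvPolynomial (Fin (r + 1)) N}
    (hh1 : g1.IsHomogeneous c1) (hh2 : g2.IsHomogeneous c2) (hh3 : f3.IsHomogeneous (c1 + c2))
    (hr1 : ∀ α, w.Reg (g1.coeff α)) (hr2 : ∀ α, w.Reg (g2.coeff α))
    (hr3 : ∀ α, w.Reg (f3.coeff α)) (τ : N) (hτ : w.Reg τ ∧ w.red τ = 0)
    (hid : Polynomial.C τ * MvPolynomial.aeval C f3 +
      MvPolynomial.aeval C g1 * MvPolynomial.aeval C g2 = 0)
    (hC0 : ∃ i, (C i).coeff 0 ≠ 0) (hCD : ∃ i, (C i).coeff D ≠ 0) :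
    (∃ i0, (C i0).coeff 0 ≠ 0 ∧ (∀ i, w.Reg ((C i).coeff 0 / (C i0).coeff 0)) ∧
      w.red (MvPolynomial.aeval (fun i => (C i).coeff 0 / (C i0).coeff 0) g2) = 0) ∨
    (∃ i0, (C i0).coeff D ≠ 0 ∧ (∀ i, w.Reg ((C i).coeff D / (C i0).coeff D)) ∧
      w.red (MvPolynomial.aeval (fun i => (C i).coeff D / (C i0).coeff D) g1) = 0) ∨
    (∃ y : Fin (r + 1) → N, (∃ i, y i = 1) ∧ (∀ i, w.Reg (y i)) ∧
      w.red (MvPolynomial.aeval y g1) = 0 ∧ w.red (MvPolynomial.aeval y g2) = 0) := by
  set v := absv w with hv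
  have hna : IsNonarchimedean v := absv_na w
  obtain ⟨i0, h01⟩ := exists_max v fun i => (C i).coeff 0
  obtain ⟨i1, h11⟩ := exists_max v fun i => (C i).coeff D
  have h00 : (C i0).coeff 0 ≠ 0 := by
    obtain ⟨i, hi⟩ := hC0
    intro h
    have h1 := h01 i
    rw [h, map_zero] at h1
    exact absurd h1 (not_le.2 (v.pos hi))
  have h10 : (C i1).coeff D ≠ 0 := by
    obtain ⟨i, hi⟩ := hCD
    intro h
    have h1 := h11 i
    rw [h, map_zero] at h1
    exact absurd h1 (not_le.2 (v.pos hi))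
  have e0 := norm_small w hh2 (fun i => (C i).coeff 0) i0 h00 h01
  have e1 := norm_small w hh1 (fun i => (C i).coeff D) i1 h10 h11
  by_cases h02 : v ((C i0).coeff 0) ^ c2 ≤ v (MvPolynomial.aeval (fun i => (C i).coeff 0) g2)
  swap
  · left
    exact ⟨i0, h00, e0.1, (e0.2 (not_le.1 h02)).2⟩
  right
  by_cases h12 : v ((C i1).coeff D) ^ c1 ≤ v (MvPolynomial.aeval (fun i => (C i).coeff D) g1)
  swap
  · left
    exact ⟨i1, h10, e1.1, (e1.2 (not_le.1 h12)).2⟩
  right
  have hI1 : Int1 v g1 := fun α => (absv_le_one w).2 (hr1 α)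
  have hI2 : Int1 v g2 := fun α => (absv_le_one w).2 (hr2 α)
  have hI3 : Int1 v f3 := fun α => (absv_le_one w).2 (hr3 α)
  have hP : ∀ c, 0 < c → gaussNorm v c (MvPolynomial.aeval C g1 * MvPolynomial.aeval C g2) <
      mn v C c ^ (c1 + c2) := by
    intro c hc
    have hm0 : 0 < mn v C c := by
      refine lt_of_lt_of_le ?_ (le_mn C c i0)
      refine lt_of_lt_of_le ?_ (coeff_le (C i0) hc 0)
      rw [pow_zero, mul_one]
      exact v.pos h00
    have h1 : MvPolynomial.aeval C g1 * MvPolynomial.aeval C g2 =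
        -(Polynomial.C τ * MvPolynomial.aeval C f3) := by
      linear_combination hid
    rw [h1, gn_neg hna hc, gaussNorm_mul hna hc, gaussNorm_C]
    have h2 := form_le hna hc hm0 (fun i => le_mn (v := v) C c i) hh3 hI3
    have h3 : v τ < 1 := (absv_lt_one w).2 hτ
    calc v τ * gaussNorm v c (MvPolynomial.aeval C f3)
        ≤ v τ * mn v C c ^ (c1 + c2) := mul_le_mul_of_nonneg_left h2 (v.nonneg _)
      _ < 1 * mn v C c ^ (c1 + c2) := mul_lt_mul_of_pos_right h3 (pow_pos hm0 _)
      _ = _ := one_mul _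
  obtain ⟨j, i2, hne, hmax, hlt1, hlt2⟩ :=
    path_main hna C hD hh1 hh2 hI1 hI2 hP h00 h01 h02 h10 h11 h12
  have f1 := norm_small w hh1 (fun i => (C i).coeff j) i2 hne hmax
  have f2 := norm_small w hh2 (fun i => (C i).coeff j) i2 hne hmax
  exact ⟨fun i => (C i).coeff j / (C i2).coeff j, ⟨i2, div_self hne⟩, f1.1,
    (f1.2 hlt1).2, (f2.2 hlt2).2⟩

end

end Pool.Agent.X328.FD
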