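import Pool.Agent.X328.FD.Base

/-! # The function field of a hypersurface is linearly disjoint from the constants -/

set_option autoImplicit false

namespace Pool.Agent.X328.FD

open IntermediateField Module MvPolynomial

noncomputable section

variable {A Cc W : Type} [Field A] [Field Cc] [Field W] [Algebra A Cc] [Algebra Cc W]
  [Algebra A W] [IsScalarTower A Cc W]

omit [Field Cc] [Algebra A Cc] [Algebra Cc W] [IsScalarTower A Cc W] in
/-- homogenization of a polynomial expression in the affine coordinates -/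
theorem homog {r : ℕ} (x : Fin (r + 1) → W) (Y : Fin r → W) (hY : ∀ i, x i.succ = Y i * x 0)
    (z : W) (hz : z ∈ Algebra.adjoin A (Set.range Y)) :
    ∃ D0 : ℕ, ∀ D, D0 ≤ D → ∃ H : MvPolynomial (Fin (r + 1)) A, H.IsHomogeneous D ∧
      aeval x H = x 0 ^ D * z := by
  induction hz using Algebra.adjoin_induction with
  | mem y hy =>
    obtain ⟨i, rfl⟩ := hy
    refine ⟨1, fun D hD => ⟨X i.succ * X 0 ^ (D - 1), ?_, ?_⟩⟩
    · have h1 := (isHomogeneous_X A i.succ).mul ((isHomogeneous_X A (0 : Fin (r + 1))).pow (D - 1))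
      have h2 : 1 + 1 * (D - 1) = D := by omega
      rwa [h2] at h1
    · rw [map_mul, map_pow, aeval_X, aeval_X, hY i]
      have h2 : x 0 ^ D = x 0 * x 0 ^ (D - 1) := by
        rw [← pow_succ']
        congr 1
        omega
      rw [h2]
      ring
  | algebraMap a =>
    refine ⟨0, fun D _ => ⟨C a * X 0 ^ D, ?_, ?_⟩⟩
    · have h1 := (isHomogeneous_C (Fin (r + 1)) a).mul ((isHomogeneous_X A 0).pow D)
      rwa [zero_add, one_mul] at h1
    · rw [map_mul, map_pow, aeval_X, aeval_C, mul_comm]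
  | add y z _ _ hy hz =>
    obtain ⟨D1, h1⟩ := hy
    obtain ⟨D2, h2⟩ := hz
    refine ⟨max D1 D2, fun D hD => ?_⟩
    obtain ⟨H1, hh1, he1⟩ := h1 D ((le_max_left _ _).trans hD)
    obtain ⟨H2, hh2, he2⟩ := h2 D ((le_max_right _ _).trans hD)
    exact ⟨H1 + H2, hh1.add hh2, by rw [map_add, he1, he2]; ring⟩
  | mul y z _ _ hy hz =>
    obtain ⟨D1, h1⟩ := hy
    obtain ⟨D2, h2⟩ := hz
    refine ⟨D1 + D2, fun D hD => ?_⟩
    obtain ⟨H1, hh1, he1⟩ := h1 D1 le_rfl
    obtain ⟨H2, hh2, he2⟩ := h2 (D - D1) (by omega)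
    refine ⟨H1 * H2, ?_, ?_⟩
    · have h3 := hh1.mul hh2
      have h4 : D1 + (D - D1) = D := by omega
      rwa [h4] at h3
    · rw [map_mul, he1, he2]
      have h4 : x 0 ^ D = x 0 ^ D1 * x 0 ^ (D - D1) := by
        rw [← pow_add]
        congr 1
        omega
      rw [h4]
      ring

/-- applying a linear functional to the coefficients -/
theorem exists_proj {σ : Type} (π : Cc →ₗ[A] A) (Q : MvPolynomial σ Cc) :
    ∃ Q' : MvPolynomial σ A, ∀ α, Q'.coeff α = π (Q.coeff α) := by
  classical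
  refine ⟨∑ β ∈ Q.support, monomial β (π (Q.coeff β)), fun α => ?_⟩
  rw [coeff_sum]
  simp only [coeff_monomial]
  rw [Finset.sum_ite_eq' Q.support α fun β => π (Q.coeff β)]
  split_ifs with h
  · rfl
  · rw [notMem_support_iff.1 h, map_zero]

theorem proj_mul {σ : Type} (π : Cc →ₗ[A] A) (F : MvPolynomial σ A) (Q : MvPolynomial σ Cc)
    {Q' : MvPolynomial σ A} (hQ' : ∀ α, Q'.coeff α = π (Q.coeff α)) (α : σ →₀ ℕ) :
    (F * Q').coeff α = π ((map (algebraMap A Cc) F * Q).coeff α) := by
  classical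
  rw [coeff_mul, coeff_mul, map_sum]
  refine Finset.sum_congr rfl fun p _ => ?_
  rw [coeff_map, hQ', ← Algebra.smul_def, map_smul, smul_eq_mul]

open scoped IntermediateField.algebraAdjoinAdjoin in
/-- **Linear disjointness.** -/
theorem proj_disj {r : ℕ} (F : MvPolynomial (Fin (r + 1)) A) (x : Fin (r + 1) → W)
    (hx0 : x 0 ≠ 0) (Y : Fin r → W) (hY : ∀ i, x i.succ = Y i * x 0) (hF : aeval x F = 0)
    (hdom : ∀ (d : ℕ) (H : MvPolynomial (Fin (r + 1)) Cc), H.IsHomogeneous d →
      aeval x H = 0 → map (algebraMap A Cc) F ∣ H) :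
    (adjoin A (Set.range Y)).LinearDisjoint Cc := by
  classical
  let b := Basis.ofVectorSpace A Cc
  refine LinearDisjoint.of_basis_right' b ?_
  refine (LinearIndependent.iff_fractionRing (Algebra.adjoin A (Set.range Y))
    (adjoin A (Set.range Y))).1 ?_
  rw [linearIndependent_iff']
  intro s c hc j hj
  choose D0 hD0 using fun i => homog x Y hY (c i : W) (c i).2
  set D := s.sup D0 with hD
  have hH : ∀ i ∈ s, ∃ H : MvPolynomial (Fin (r + 1)) A, H.IsHomogeneous D ∧
      aeval x H = x 0 ^ D * (c i : W) := fun i hi => hD0 i D (Finset.le_sup hi)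
  choose! H hHh hHe using hH
  have hh : (∑ i ∈ s, C (b i) * map (algebraMap A Cc) (H i)).IsHomogeneous D := by
    refine IsHomogeneous.sum _ _ _ fun i hi => ?_
    have h1 := (isHomogeneous_C (Fin (r + 1)) (b i)).mul ((hHh i hi).map (algebraMap A Cc))
    rwa [zero_add] at h1
  have hz : aeval x (∑ i ∈ s, C (b i) * map (algebraMap A Cc) (H i)) = 0 := by
    have h1 : ∀ i ∈ s, aeval x (C (b i) * map (algebraMap A Cc) (H i)) =
        x 0 ^ D * (c i • (algebraMap Cc W ∘ b) i) := by
      intro i hi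
      rw [map_mul, aeval_C, aeval_map_algebraMap, hHe i hi, Algebra.smul_def]
      have h2 : algebraMap (Algebra.adjoin A (Set.range Y)) W (c i) = (c i : W) := rfl
      rw [h2]
      simp only [Function.comp_apply]
      ring
    rw [map_sum, Finset.sum_congr rfl h1, ← Finset.mul_sum, hc, mul_zero]
  obtain ⟨Q, hQ⟩ := hdom D _ hh hz
  obtain ⟨Q', hQ'⟩ := exists_proj (b.coord j) Q
  have hHj : H j = F * Q' := by
    ext α
    rw [proj_mul (b.coord j) F Q hQ' α, ← hQ, coeff_sum, map_sum, Finset.sum_eq_single j]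
    · rw [coeff_C_mul, coeff_map, mul_comm, ← Algebra.smul_def, map_smul, Basis.coord_apply,
        Basis.repr_self, Finsupp.single_eq_same, smul_eq_mul, mul_one]
    · intro i _ hij
      rw [coeff_C_mul, coeff_map, mul_comm, ← Algebra.smul_def, map_smul, Basis.coord_apply,
        Basis.repr_self, Finsupp.single_eq_of_ne hij.symm, smul_zero]
    · intro h
      exact absurd hj h
  have h5 := hHe j hj
  rw [hHj, map_mul, hF, zero_mul] at h5
  have h6 : (c j : W) = 0 := (mul_eq_zero.1 h5.symm).resolve_left (pow_ne_zero _ hx0)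
  exact Subtype.ext h6

end

end Pool.Agent.X328.FD
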