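import Pool.Agent.X328.FD.Indep

/-! # The generic diagonal hypersurface and a finite extension of its field of definition -/

set_option autoImplicit false

namespace Pool.Agent.X328.FD

open IntermediateField Module

noncomputable section

variable {k W : Type} [Field k] [Field W] [Algebra k W]

/-- the Kummer step -/
theorem reg_step [CharZero k] {n e : ℕ} (he : 1 ≤ e) {ι : Type} (A : IntermediateField k W)
    (b : Fin (n + 3) → W) (hb : ∀ i, b i ∈ A) (hb1 : b 1 ≠ 0) (hb2 : b 2 ≠ 0)
    (y : Fin (n + 2) → W) (u : ι → W)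
    (hrel : b 0 + ∑ i, b i.succ * y i ^ e = 0)
    (hne : b 0 + ∑ i : Fin n, b i.succ.succ.succ * y i.succ.succ ^ e ≠ 0)
    (hind : AlgebraicIndependent A (Sum.elim (fun i : Fin (n + 1) => y i.succ) u)) :
    (A ⊔ adjoin k (Set.range (Sum.elim (fun i : Fin (n + 1) => y i.succ) u))).relfinrank
      (A ⊔ adjoin k (Set.range (Sum.elim (fun i : Fin (n + 1) => y i.succ) u)) ⊔
        adjoin k {y 0}) = e := by
  set x := Sum.elim (fun i : Fin (n + 1) => y i.succ) u with hx
  set s : Set (Fin (n + 1) ⊕ ι) := {Sum.inl 0}ᶜ with hs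
  have h1 : Transcendental (A ⊔ adjoin k (x '' s) : IntermediateField k W) (y 1) :=
    trans_field hind (s := s) (i := Sum.inl 0) (by simp [hs])
  have hA : ∀ i, b i ∈ (A ⊔ adjoin k (x '' s) : IntermediateField k W) :=
    fun i => (le_sup_left : A ≤ _) (hb i)
  have hy : ∀ i : Fin n, y i.succ.succ ∈ (A ⊔ adjoin k (x '' s) : IntermediateField k W) := by
    intro i
    refine (le_sup_right : adjoin k (x '' s) ≤ _) (subset_adjoin _ _ ?_)
    exact ⟨Sum.inl i.succ, by simp [hs], rfl⟩
  have h2 := rel_kummer (A ⊔ adjoin k (x '' s)) h1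
    (c := -(b 0 + ∑ i : Fin n, b i.succ.succ.succ * y i.succ.succ ^ e) / b 1)
    (d := -b 2 / b 1) ?_ (div_ne_zero (neg_ne_zero.2 hne) hb1) ?_
    (div_ne_zero (neg_ne_zero.2 hb2) hb1) he (y := y 0) ?_
  · have h3 : A ⊔ adjoin k (x '' s) ⊔ adjoin k {y 1} = A ⊔ adjoin k (Set.range x) := by
      rw [sup_assoc, ← adjoin_union]
      congr 2
      ext z
      constructor
      · rintro (⟨i, -, rfl⟩ | h)
        · exact ⟨i, rfl⟩
        · rw [Set.mem_singleton_iff] at h
          exact ⟨Sum.inl 0, h.symm⟩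
      · rintro ⟨i, rfl⟩
        by_cases hi : i = Sum.inl 0
        · right
          rw [hi]
          rfl
        · left
          exact ⟨i, hi, rfl⟩
    rw [h3] at h2
    exact h2
  · exact div_mem (neg_mem (add_mem (hA 0) (sum_mem fun i _ =>
      mul_mem (hA _) (pow_mem (hy i) e)))) (hA 1)
  · exact div_mem (neg_mem (hA 2)) (hA 1)
  · rw [Fin.sum_univ_succ, Fin.sum_univ_succ] at hrel
    have e1 : b (Fin.succ 0) = b 1 := rfl
    have e2 : b (Fin.succ (Fin.succ 0)) = b 2 := rfl
    have e3 : y (Fin.succ 0) = y 1 := rfl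
    rw [e1, e2, e3] at hrel
    field_simp
    linear_combination hrel

/-- **Regularity.** -/
theorem reg [CharZero k] {n e : ℕ} (he : 1 ≤ e) {ι : Type} [Finite ι]
    (b : Fin (n + 3) → W) (y : Fin (n + 2) → W) (u : ι → W)
    (hrel : b 0 + ∑ i, b i.succ * y i ^ e = 0)
    (hind : AlgebraicIndependent k (Sum.elim (Sum.elim (fun i : Fin (n + 2) => b i.succ) y) u))
    (halg : ∀ z : W, IsAlgebraic (adjoin k
      (Set.range (Sum.elim (Sum.elim (fun i : Fin (n + 2) => b i.succ) y) u))) z) :
    AlgebraicIndependent k b ∧ ∀ E : IntermediateField k W, adjoin k (Set.range b) ≤ E →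
      (adjoin k (Set.range b)).relfinrank E ≠ 0 →
      (adjoin k (Set.range b)).relfinrank E ∣ finrank (adjoin k
        (Set.range (Sum.elim (Sum.elim (fun i : Fin (n + 2) => b i.succ) y) u))) W := by
  set A0 := adjoin k (Set.range b) with hA0
  set T1 := adjoin k (Set.range (Sum.elim (Sum.elim (fun i : Fin (n + 2) => b i.succ) y) u))
    with hT1
  set x := Sum.elim (fun i : Fin (n + 1) => y i.succ) u with hx
  have hbA : ∀ i, b i ∈ A0 := fun i => subset_adjoin _ _ ⟨i, rfl⟩
  have hbT : ∀ i : Fin (n + 2), b i.succ ∈ T1 :=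
    fun i => subset_adjoin _ _ ⟨Sum.inl (Sum.inl i), rfl⟩
  have hyT : ∀ i, y i ∈ T1 := fun i => subset_adjoin _ _ ⟨Sum.inl (Sum.inr i), rfl⟩
  have huT : ∀ i, u i ∈ T1 := fun i => subset_adjoin _ _ ⟨Sum.inr i, rfl⟩
  have hb0T : b 0 ∈ T1 := by
    have : b 0 = -∑ i, b i.succ * y i ^ e := by linear_combination hrel
    rw [this]
    exact neg_mem (sum_mem fun i _ => mul_mem (hbT i) (pow_mem (hyT i) e))
  have hne : ∀ i, (Sum.elim (Sum.elim (fun i : Fin (n + 2) => b i.succ) y) u) i ≠ 0 :=
    fun i => hind.ne_zero i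
  have hb1 : b 1 ≠ 0 := hne (Sum.inl (Sum.inl 0))
  have hb2 : b 2 ≠ 0 := hne (Sum.inl (Sum.inl 1))
  have hT : A0 ⊔ adjoin k (Set.range x) ⊔ adjoin k {y 0} = T1 := by
    apply le_antisymm
    · refine sup_le (sup_le ?_ ?_) ?_
      · rw [hA0, adjoin_le_iff]
        rintro _ ⟨i, rfl⟩
        refine Fin.cases ?_ (fun j => ?_) i
        · exact hb0T
        · exact hbT j
      · rw [adjoin_le_iff]
        rintro _ ⟨i, rfl⟩
        rcases i with i | i
        · exact hyT _
        · exact huT _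
      · rw [adjoin_le_iff]
        rintro _ h
        rw [Set.mem_singleton_iff] at h
        rw [h]
        exact hyT _
    · rw [hT1, adjoin_le_iff]
      rintro _ ⟨i, rfl⟩
      rcases i with (i | i) | i
      · exact (le_sup_left.trans le_sup_left : A0 ≤ _) (hbA _)
      · refine Fin.cases ?_ (fun j => ?_) i
        · exact (le_sup_right : adjoin k {y 0} ≤ _) (subset_adjoin _ _ rfl)
        · exact (le_sup_right.trans le_sup_left : adjoin k (Set.range x) ≤ _)
            (subset_adjoin _ _ ⟨Sum.inl j, rfl⟩)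
      · exact (le_sup_right.trans le_sup_left : adjoin k (Set.range x) ≤ _)
            (subset_adjoin _ _ ⟨Sum.inr i, rfl⟩)
  -- another transcendence basis
  have hxb : adjoin k (Set.range (Sum.elim x b)) = A0 ⊔ adjoin k (Set.range x) := by
    rw [Set.Sum.elim_range, adjoin_union, sup_comm]
  have hy0 : IsAlgebraic (A0 ⊔ adjoin k (Set.range x) : IntermediateField k W) (y 0) := by
    have hmem : y 0 ^ e ∈ (A0 ⊔ adjoin k (Set.range x) : IntermediateField k W) := by
      have h1 : y 0 ^ e = -(b 0 + ∑ i : Fin (n + 1), b i.succ.succ * y i.succ ^ e) / b 1 := by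
        rw [Fin.sum_univ_succ] at hrel
        have e1 : b (Fin.succ 0) = b 1 := rfl
        rw [e1] at hrel
        field_simp
        linear_combination hrel
      rw [h1]
      have hA : ∀ i, b i ∈ (A0 ⊔ adjoin k (Set.range x) : IntermediateField k W) :=
        fun i => (le_sup_left : A0 ≤ _) (hbA i)
      have hy' : ∀ i : Fin (n + 1),
          y i.succ ∈ (A0 ⊔ adjoin k (Set.range x) : IntermediateField k W) := fun i =>
        (le_sup_right : adjoin k (Set.range x) ≤ _) (subset_adjoin _ _ ⟨Sum.inl i, rfl⟩)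
      exact div_mem (neg_mem (add_mem (hA 0) (sum_mem fun i _ =>
        mul_mem (hA _) (pow_mem (hy' i) e)))) (hA 1)
    refine IsAlgebraic.of_pow (by omega : 0 < e) ?_
    exact isAlgebraic_algebraMap
      (⟨y 0 ^ e, hmem⟩ : (A0 ⊔ adjoin k (Set.range x) : IntermediateField k W))
  have hind2 : AlgebraicIndependent k (Sum.elim x b) := by
    refine indep_count ?_ hind ?_
    · intro z
      rw [hxb]
      refine alg_trans (B := T1) (hT ▸ le_sup_left) ?_ (halg z)
      rw [← hT]
      apply alg_sup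
      intro z hz
      rw [Set.mem_singleton_iff] at hz
      rw [hz]
      exact hy0
    · simp only [Cardinal.mk_sum, Cardinal.lift_id, Cardinal.mk_fin]
      push_cast
      apply le_of_eq
      ring
  have hind3 : AlgebraicIndependent A0 x := indep_over hind2
  have hc : b 0 + ∑ i : Fin n, b i.succ.succ.succ * y i.succ.succ ^ e ≠ 0 := by
    intro h
    refine hind2.transcendental_adjoin (s := {Sum.inr 0}ᶜ) (i := Sum.inr 0) (by simp) ?_
    have h1 : b 0 = -∑ i : Fin n, b i.succ.succ.succ * y i.succ.succ ^ e := by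
      linear_combination h
    have h2 : b 0 ∈ Algebra.adjoin k (Sum.elim x b '' {Sum.inr 0}ᶜ) := by
      rw [h1]
      refine neg_mem (sum_mem fun i _ => mul_mem ?_ (pow_mem ?_ e))
      · exact Algebra.subset_adjoin ⟨Sum.inr i.succ.succ.succ, by simp, rfl⟩
      · exact Algebra.subset_adjoin ⟨Sum.inl (Sum.inl i.succ), by simp, rfl⟩
    exact isAlgebraic_algebraMap (⟨b 0, h2⟩ : Algebra.adjoin k (Sum.elim x b '' {Sum.inr 0}ᶜ))
  refine ⟨hind2.comp Sum.inr Sum.inr_injective, fun E hE hEf => ?_⟩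
  have hind4 : AlgebraicIndependent E x := indep_ext hE (alg_of_relfinrank hE hEf) hind3
  -- the degrees
  have d1 := rel_ext hE hEf x hind4
  have d2 := reg_step he A0 b hbA hb1 hb2 y u hrel hc hind3
  have d3 := reg_step he E b (fun i => hE (hbA i)) hb1 hb2 y u hrel hc hind4
  rw [← hx] at d2 d3
  set T := A0 ⊔ adjoin k (Set.range x) with hTdef
  set ET := E ⊔ adjoin k (Set.range x) with hETdef
  have l1 : T ≤ ET := sup_le_sup_right hE _
  have l2 : T ≤ T ⊔ adjoin k {y 0} := le_sup_left
  have l3 : ET ≤ ET ⊔ adjoin k {y 0} := le_sup_left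
  have l4 : T ⊔ adjoin k {y 0} ≤ ET ⊔ adjoin k {y 0} := sup_le_sup_right l1 _
  have m1 := relfinrank_mul_relfinrank l1 l3
  have m2 := relfinrank_mul_relfinrank l2 l4
  rw [d1, d3, ← m2, d2, mul_comm] at m1
  have m3 := Nat.eq_of_mul_eq_mul_left he m1
  have m4 := relfinrank_mul_finrank_top l4
  rw [hT] at m3 m4
  rw [← m4, ← m3]
  exact dvd_mul_right _ _

end

end Pool.Agent.X328.FD
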