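import Pool.Agent.X328.FD.Kummer
import Pool.Agent.Y220.LI.Ext

/-! # Relative degrees of intermediate fields -/

set_option autoImplicit false

namespace Pool.Agent.X328.FD

open IntermediateField Module

noncomputable section

variable {k W : Type} [Field k] [Field W] [Algebra k W]

theorem fin_rel (A : IntermediateField k W) (B : IntermediateField A W) :
    finrank A B = A.relfinrank (B.restrictScalars k) := by
  have h : A ≤ B.restrictScalars k := fun x hx => B.algebraMap_mem ⟨x, hx⟩
  rw [relfinrank_eq_finrank_of_le h]
  have h1 : extendScalars h = B := by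
    ext x
    rfl
  rw [h1]

theorem res_adjoin (A : IntermediateField k W) (S : Set W) :
    (adjoin A S).restrictScalars k = A ⊔ adjoin k S := by
  rw [restrictScalars_adjoin, adjoin_union, adjoin_self]

/-- degree of a simple Kummer type extension -/
theorem rel_kummer [CharZero k] (A : IntermediateField k W) {s y : W} (hs : Transcendental A s)
    {c d : W} (hcA : c ∈ A) (hc : c ≠ 0) (hdA : d ∈ A) (hd : d ≠ 0) {e : ℕ} (he : 1 ≤ e)
    (hy : y ^ e = c + d * s ^ e) :
    (A ⊔ adjoin k {s}).relfinrank (A ⊔ adjoin k {s} ⊔ adjoin k {y}) = e := by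
  have h1 := kummer_deg (L := A) hs (c := ⟨c, hcA⟩) (d := ⟨d, hdA⟩)
    (fun h => hc (congrArg Subtype.val h)) (fun h => hd (congrArg Subtype.val h)) he
    (y := y) hy
  rw [fin_rel] at h1
  have h2 : relfinrank (F := A) A⟮s⟯ ((A⟮s⟯⟮y⟯).restrictScalars A) =
      relfinrank (F := k) ((A⟮s⟯).restrictScalars k)
        (((A⟮s⟯⟮y⟯).restrictScalars A).restrictScalars k) := rfl
  rw [h2] at h1
  have h3 : ((A⟮s⟯⟮y⟯).restrictScalars A).restrictScalars k =
      A ⊔ adjoin k {s} ⊔ adjoin k {y} := by
    rw [res_adjoin (k := A) A⟮s⟯ {y}, ← adjoin_union, res_adjoin A ({s} ∪ {y}), adjoin_union,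
      sup_assoc]
  rw [h3, res_adjoin] at h1
  exact h1

/-- the degree does not change after adjoining algebraically independent elements -/
theorem rel_ext {A B : IntermediateField k W} (h : A ≤ B) (hfin : A.relfinrank B ≠ 0)
    {ι : Type} (τ : ι → W) (hτ : AlgebraicIndependent B τ) :
    (A ⊔ adjoin k (Set.range τ)).relfinrank (B ⊔ adjoin k (Set.range τ)) =
      A.relfinrank B := by
  have hfd : FiniteDimensional A (extendScalars h) := by
    rw [relfinrank_eq_finrank_of_le h] at hfin
    exact FiniteDimensional.of_finrank_pos (Nat.pos_of_ne_zero hfin)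
  have hτ' : AlgebraicIndependent (extendScalars h) τ := hτ
  have hld : (adjoin A (Set.range τ)).LinearDisjoint (extendScalars h) :=
    Pool.Agent.Y220.LI.linDisj (R := A) (M := extendScalars h) τ hτ'
  have hld' := hld.symm
  have hr := hld'.adjoin_rank_eq_rank_left_of_isAlgebraic_left
  have hr' : finrank (adjoin A (Set.range τ)) (adjoin (adjoin A (Set.range τ))
      ((extendScalars h : IntermediateField A W) : Set W)) = finrank A (extendScalars h) := by
    rw [finrank, finrank, hr]
  rw [fin_rel, fin_rel] at hr'
  have h2 : relfinrank (F := A) (adjoin A (Set.range τ)) ((adjoin (adjoin A (Set.range τ))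
      ((extendScalars h : IntermediateField A W) : Set W)).restrictScalars A) =
      relfinrank (F := k) ((adjoin A (Set.range τ)).restrictScalars k)
        (((adjoin (adjoin A (Set.range τ))
      ((extendScalars h : IntermediateField A W) : Set W)).restrictScalars A).restrictScalars k) :=
    rfl
  have h3 : (extendScalars h).restrictScalars k = B := by
    ext x
    rfl
  rw [h2, res_adjoin A, res_adjoin (k := A), adjoin_self, h3] at hr'
  have h4 : (adjoin A (Set.range τ) ⊔ extendScalars h).restrictScalars k =
      B ⊔ adjoin k (Set.range τ) := by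
    have h5 : adjoin A (Set.range τ) ⊔ extendScalars h = adjoin A (Set.range τ ∪ (B : Set W)) := by
      rw [adjoin_union]
      congr 1
      exact (adjoin_self A (extendScalars h)).symm
    rw [h5, res_adjoin, adjoin_union, adjoin_self, ← sup_assoc, sup_right_comm,
      sup_eq_right.2 h]
  rw [h4] at hr'
  exact hr'

end

end Pool.Agent.X328.FD
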