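import Pool.Agent.X328.FD.Transfer
import Pool.Agent.X328.FD.Const

/-! # Counting in a subfield; degrees of forms -/

set_option autoImplicit false

namespace Pool.Agent.X328.FD

open IntermediateField Module

noncomputable section

theorem alg_comap {k M Ω : Type} [Field k] [Field M] [Field Ω] [Algebra k M] [Algebra k Ω]
    (φ : M →ₐ[k] Ω) (S : Set M) {z : M} (hz : IsAlgebraic (adjoin k (φ '' S)) (φ z)) :
    IsAlgebraic (adjoin k S) z := by
  have hmem : ∀ x : adjoin k S, φ x ∈ adjoin k (φ '' S) := by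
    intro x
    rw [← IntermediateField.adjoin_map]
    exact ⟨x.1, x.2, rfl⟩
  let f : adjoin k S →+* adjoin k (φ '' S) :=
    (φ.toRingHom.comp (algebraMap (adjoin k S) M)).codRestrict (adjoin k (φ '' S)) hmem
  have hf : Function.Surjective f := by
    rintro ⟨y, hy⟩
    rw [← IntermediateField.adjoin_map] at hy
    obtain ⟨x, hx, rfl⟩ := hy
    exact ⟨⟨x, hx⟩, rfl⟩
  exact hz.of_ringHom_of_comp_eq f φ hf φ.injective rfl

variable {k W : Type} [Field k] [Field W] [Algebra k W]

theorem indep_count_sub {ι ι' : Type} [Finite ι] (M : IntermediateField k W) {x : ι → W}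
    (hx : ∀ i, x i ∈ M) (halg : ∀ z ∈ M, IsAlgebraic (adjoin k (Set.range x)) z) {y : ι' → W}
    (hyM : ∀ i, y i ∈ M)
    (hy : AlgebraicIndependent k y) (hc : Cardinal.mk ι ≤ Cardinal.mk ι') :
    AlgebraicIndependent k x := by
  let x' : ι → M := fun i => ⟨x i, hx i⟩
  let y' : ι' → M := fun i => ⟨y i, hyM i⟩
  have hy' : AlgebraicIndependent k y' := AlgebraicIndependent.of_comp M.val hy
  have h1 : AlgebraicIndependent k x' := by
    refine indep_count (fun z => ?_) hy' hc
    refine alg_comap M.val (Set.range x') ?_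
    have h2 : M.val '' Set.range x' = Set.range x := by
      rw [← Set.range_comp]
      rfl
    rw [h2]
    exact halg z.1 z.2
  exact h1.map' (f := M.val) M.val.injective

theorem not_dvd_of_deg {σ R : Type} [Field R] {F H : MvPolynomial σ R} {d d' : ℕ}
    (hF : F.IsHomogeneous d) (hH : H.IsHomogeneous d') (hH0 : H ≠ 0) (h : d' < d) :
    ¬ F ∣ H := by
  rintro ⟨Q, hQ⟩
  have hF0 : F ≠ 0 := by
    rintro rfl
    exact hH0 (by rw [hQ, zero_mul])
  have hQ0 : Q ≠ 0 := by
    rintro rfl
    exact hH0 (by rw [hQ, mul_zero])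
  have h1 := hF.totalDegree hF0
  have h2 := hH.totalDegree hH0
  rw [hQ, MvPolynomial.totalDegree_mul_of_isDomain hF0 hQ0] at h2
  omega

end

end Pool.Agent.X328.FD
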