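import Pool.Agent.X328.FD.Core

/-! # From `Ω` to the function field -/

set_option autoImplicit false

namespace Pool.Agent.X328.FD

open MvPolynomial Pool.Agent.Y201.LI Module FF

noncomputable section

theorem eval_map' {M Ω : Type} [Field M] [Field Ω] (φ : M →+* Ω) {m : ℕ} (t : Fin m → M)
    (p : MvPolynomial (Fin m) M) : eval (fun l => φ (t l)) (map φ p) = φ (eval t p) := by
  induction p using MvPolynomial.induction_on with
  | C a => simp
  | add p q hp hq => simp only [map_add, hp, hq]
  | mul_X p i hp => simp only [map_mul, hp, map_X, eval_X]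

theorem map_aeval' {M Ω : Type} [Field M] [Field Ω] (φ : M →+* Ω) {m r : ℕ}
    (G : Fin r → MvPolynomial (Fin m) M) (H : MvPolynomial (Fin r) M) :
    map φ (aeval G H) = aeval (fun i => map φ (G i)) (map φ H) := by
  induction H using MvPolynomial.induction_on with
  | C a => simp [algebraMap_eq]
  | add p q hp hq => simp only [map_add, hp, hq]
  | mul_X p i hp => simp only [map_mul, hp, map_X, aeval_X]

/-- the relation at the generic point -/
theorem point_rel {M : Type} [Field M] {r d m : ℕ} (G : Fin (r + 1) → MvPolynomial (Fin m) M)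
    {F : MvPolynomial (Fin (r + 1)) M} (hFh : F.IsHomogeneous d) (hF : aeval G F = 0)
    (t : Fin m → M) (hx0 : eval t (G 0) ≠ 0) (yy : Fin (r + 1) → M)
    (hxy : ∀ i, eval t (G i) = eval t (G 0) * yy i) : aeval yy F = 0 := by
  have h1 := comp_aeval_apply G (aeval t : MvPolynomial (Fin m) M →ₐ[M] M) F
  rw [hF, map_zero] at h1
  have h2 : (fun i => (aeval t : MvPolynomial (Fin m) M →ₐ[M] M) (G i)) =
      fun i => eval t (G 0) * yy i := by
    funext i
    rw [← hxy i, aeval_eq_eval]
  rw [h2, aeval_smul_form _ _ hFh] at h1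
  exact (mul_eq_zero.1 h1.symm).resolve_left (pow_ne_zero _ hx0)

/-- algebraic elements and embeddings -/
theorem alg_map {k M Ω : Type} [Field k] [Field M] [Field Ω] [Algebra k M] [Algebra k Ω]
    (φ : M →ₐ[k] Ω) (S : Set M) {z : M} (hz : IsAlgebraic (IntermediateField.adjoin k S) z) :
    IsAlgebraic (IntermediateField.adjoin k (φ '' S)) (φ z) := by
  have hmem : ∀ x : IntermediateField.adjoin k S, φ x ∈ IntermediateField.adjoin k (φ '' S) := by
    intro x
    rw [← IntermediateField.adjoin_map]
    exact ⟨x.1, x.2, rfl⟩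
  let f : IntermediateField.adjoin k S →+* IntermediateField.adjoin k (φ '' S) :=
    (φ.toRingHom.comp (algebraMap (IntermediateField.adjoin k S) M)).codRestrict
      (IntermediateField.adjoin k (φ '' S)) hmem
  exact hz.ringHom_of_comp_eq f φ f.injective rfl

variable {k N M Ω ι : Type} [Field k] [CharZero k] [Field N] [Field M] [Field Ω] [Algebra k N]
  [Algebra N M] [Algebra k M] [IsScalarTower k N M] [Algebra M Ω] [Algebra N Ω] [Algebra k Ω]
  [IsScalarTower N M Ω] [IsScalarTower k M Ω] [IsScalarTower k N Ω] [Finite ι]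

theorem transfer_aux {n e c m : ℕ} (he : 1 ≤ e)
    (a : Fin (n + 3) → N) (Y : Fin (n + 2) → N) (u : ι → N)
    (hind : AlgebraicIndependent k (Sum.elim (Sum.elim (fun i : Fin (n + 2) => a i.succ) Y) u))
    (htop : IntermediateField.adjoin k (Set.range a ∪ Set.range Y ∪ Set.range u) = ⊤)
    [FiniteDimensional N M]
    {f g : MvPolynomial (Fin (n + 3)) k} (hf : f.IsHomogeneous (c + e))
    (hg : g.IsHomogeneous c) (hf0 : f ≠ 0) (hg0 : g ≠ 0)
    (L : IntermediateField k M)
    (hL : ∀ z ∈ L, IsAlgebraic (IntermediateField.adjoin k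
      (Set.range fun i => algebraMap N M (a i))) z)
    (G : Fin (n + 3) → MvPolynomial (Fin m) M) (hGL : ∀ i α, (G i).coeff α ∈ L)
    (hF : aeval G (map (algebraMap k M) f + map (algebraMap k M) g *
      ∑ i, C (algebraMap N M (a i)) * X i ^ e) = 0)
    (t : Fin m → M) (hx0 : eval t (G 0) ≠ 0)
    (hx : ∀ i : Fin (n + 2), eval t (G i.succ) = algebraMap N M (Y i) * eval t (G 0))
    (τ : Ω) (hτ : Transcendental M τ) (hτtop : IntermediateField.adjoin M {τ} = ⊤) :
    e ∣ finrank N M := by
  have hcN : CharZero N := charZero_of_injective_algebraMap (algebraMap k N).injective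
  -- notation
  set aO : Fin (n + 3) → Ω := fun i => algebraMap N Ω (a i) with haO
  set YO : Fin (n + 2) → Ω := fun i => algebraMap N Ω (Y i) with hYO
  set uO : ι → Ω := fun i => algebraMap N Ω (u i) with huO
  set bO : Fin (n + 2) → Ω := fun i => τ * aO i.succ with hbO
  set γ : Ω := τ * aO 0 + ∑ i, bO i * YO i ^ e with hγdef
  have hτ0 : τ ≠ 0 := by
    rintro rfl
    exact hτ isAlgebraic_zero
  let τ' : Unit → Ω := fun _ => τ
  have hτ' : AlgebraicIndependent M τ' := by
    rw [algebraicIndependent_unique_type_iff]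
    exact hτ
  have hrt : Set.range τ' = {τ} := Set.range_const
  obtain ⟨hfdN, hdegN⟩ := Pool.Agent.Y220.LI.ext N M Ω Unit τ' hτ' (by rw [hrt]; exact hτtop)
  rw [hrt] at hfdN hdegN
  -- the field `N(τ)` over `k`
  set S : IntermediateField k Ω := (IntermediateField.adjoin N {τ}).restrictScalars k with hS
  have hNS : ∀ x : N, algebraMap N Ω x ∈ S := fun x => (IntermediateField.adjoin N {τ}).algebraMap_mem x
  have hτS : τ ∈ S := IntermediateField.subset_adjoin N {τ} rfl
  -- the relation
  set fN : N := aeval (Fin.cons 1 Y : Fin (n + 3) → N) f with hfN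
  set gN : N := aeval (Fin.cons 1 Y : Fin (n + 3) → N) g with hgN
  have hYi : AlgebraicIndependent k Y := hind.comp (fun i => Sum.inl (Sum.inr i)) (by
    intro i j h
    simpa using h)
  have hfN0 : fN ≠ 0 := form_ne hYi hf hf0
  have hrelN : fN + gN * (a 0 + ∑ i : Fin (n + 2), a i.succ * Y i ^ e) = 0 := by
    have hFh : (map (algebraMap k M) f + map (algebraMap k M) g *
      ∑ i, C (algebraMap N M (a i)) * X i ^ e).IsHomogeneous (c + e) :=
      (hf.map _).add ((hg.map _).mul (sum_form fun i => algebraMap N M (a i)))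
    have h1 := point_rel G hFh hF t hx0
      (fun i => algebraMap N M ((Fin.cons 1 Y : Fin (n + 3) → N) i)) (fun i => by
        refine Fin.cases ?_ (fun j => ?_) i
        · rw [Fin.cons_zero, map_one, mul_one]
        · rw [Fin.cons_succ, hx, mul_comm])
    have hmapN : ∀ h : MvPolynomial (Fin (n + 3)) k,
        aeval (fun i => algebraMap N M ((Fin.cons 1 Y : Fin (n + 3) → N) i)) h =
          algebraMap N M (aeval (Fin.cons 1 Y : Fin (n + 3) → N) h) := by
      intro h
      exact (comp_aeval_apply (Fin.cons 1 Y : Fin (n + 3) → N)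
        (IsScalarTower.toAlgHom k N M) h).symm
    rw [map_add, map_mul, aeval_map_algebraMap, aeval_map_algebraMap, hmapN, hmapN,
      map_sum] at h1
    simp only [map_mul, aeval_C, map_pow, aeval_X] at h1
    rw [Fin.sum_univ_succ] at h1
    simp only [Fin.cons_zero, Fin.cons_succ, map_one, one_pow, mul_one,
      Algebra.algebraMap_self, RingHom.id_apply] at h1
    apply (algebraMap N M).injective
    rw [map_zero, ← h1, map_add, map_mul, map_add, map_sum]
    simp only [map_mul, map_pow, hfN, hgN]
  have hrel : τ * algebraMap N Ω fN + algebraMap N Ω gN * γ = 0 := by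
    have h1 := congrArg (algebraMap N Ω) hrelN
    rw [map_zero, map_add, map_mul, map_add, map_sum] at h1
    have h2 : γ = τ * (algebraMap N Ω (a 0) +
        ∑ i : Fin (n + 2), algebraMap N Ω (a i.succ * Y i ^ e)) := by
      rw [hγdef, mul_add, Finset.mul_sum]
      congr 1
      refine Finset.sum_congr rfl fun i _ => ?_
      rw [hbO, map_mul, map_pow, hYO, haO]
      ring
    rw [h2]
    linear_combination τ * h1
  -- the new transcendence basis
  set x1 : Unit ⊕ ((Fin (n + 2) ⊕ Fin (n + 2)) ⊕ ι) → Ω :=
    Sum.elim (fun _ => γ) (Sum.elim (Sum.elim bO YO) uO) with hx1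
  have hbS' : ∀ i, bO i ∈ IntermediateField.adjoin k (Set.range x1) := fun i =>
    IntermediateField.subset_adjoin _ _ ⟨Sum.inr (Sum.inl (Sum.inl i)), rfl⟩
  have hYS' : ∀ i, YO i ∈ IntermediateField.adjoin k (Set.range x1) := fun i =>
    IntermediateField.subset_adjoin _ _ ⟨Sum.inr (Sum.inl (Sum.inr i)), rfl⟩
  have huS' : ∀ i, uO i ∈ IntermediateField.adjoin k (Set.range x1) := fun i =>
    IntermediateField.subset_adjoin _ _ ⟨Sum.inr (Sum.inr i), rfl⟩
  have hγS' : γ ∈ IntermediateField.adjoin k (Set.range x1) :=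
    IntermediateField.subset_adjoin _ _ ⟨Sum.inl (), rfl⟩
  have hform : ∀ h : MvPolynomial (Fin (n + 3)) k,
      algebraMap N Ω (aeval (Fin.cons 1 Y : Fin (n + 3) → N) h) ∈
        IntermediateField.adjoin k (Set.range x1) := by
    intro h
    have h1 := comp_aeval_apply (Fin.cons 1 Y : Fin (n + 3) → N) (IsScalarTower.toAlgHom k N Ω) h
    have h2 : algebraMap N Ω (aeval (Fin.cons 1 Y : Fin (n + 3) → N) h) =
        aeval (fun i => IsScalarTower.toAlgHom k N Ω ((Fin.cons 1 Y : Fin (n + 3) → N) i)) h := h1
    rw [h2, aeval_def, eval₂_eq]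
    refine sum_mem fun α _ => mul_mem (IntermediateField.algebraMap_mem _ _)
      (prod_mem fun i _ => pow_mem ?_ _)
    refine Fin.cases ?_ (fun j => ?_) i
    · rw [Fin.cons_zero, map_one]
      exact one_mem _
    · rw [Fin.cons_succ]
      exact hYS' j
  have hτS' : τ ∈ IntermediateField.adjoin k (Set.range x1) := by
    have h0 : algebraMap N Ω fN ≠ 0 := by
      rw [Ne, map_eq_zero]
      exact hfN0
    have h1 : τ = -(algebraMap N Ω gN * γ) / algebraMap N Ω fN := by
      rw [eq_div_iff h0]
      linear_combination hrel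
    rw [h1]
    exact div_mem (neg_mem (mul_mem (hform g) hγS')) (hform f)
  have haS' : ∀ i, aO i ∈ IntermediateField.adjoin k (Set.range x1) := by
    intro i
    refine Fin.cases ?_ (fun j => ?_) i
    · have h1 : aO 0 = (γ - ∑ i, bO i * YO i ^ e) / τ := by
        rw [eq_div_iff hτ0, hγdef]
        ring
      rw [h1]
      exact div_mem (sub_mem hγS' (sum_mem fun i _ => mul_mem (hbS' i) (pow_mem (hYS' i) e)))
        hτS'
    · have h1 : aO j.succ = bO j / τ := by
        rw [eq_div_iff hτ0, hbO]
        ring
      rw [h1]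
      exact div_mem (hbS' j) hτS'
  have hSeq : S = IntermediateField.adjoin k (Set.range x1) := by
    apply le_antisymm
    · intro z hz
      have hN : ∀ x : N, algebraMap N Ω x ∈ IntermediateField.adjoin k (Set.range x1) := by
        intro x
        have h1 : x ∈ IntermediateField.adjoin k (Set.range a ∪ Set.range Y ∪ Set.range u) := by
          rw [htop]
          trivial
        have h2 : algebraMap N Ω x ∈ (IntermediateField.adjoin k
            (Set.range a ∪ Set.range Y ∪ Set.range u)).map (IsScalarTower.toAlgHom k N Ω) :=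
          ⟨x, h1, rfl⟩
        rw [IntermediateField.adjoin_map] at h2
        refine (IntermediateField.adjoin_le_iff.2 ?_ : _ ≤ _) h2
        rintro _ ⟨y, ((⟨i, rfl⟩ | ⟨i, rfl⟩) | ⟨i, rfl⟩), rfl⟩
        · exact haS' i
        · exact hYS' i
        · exact huS' i
      have hz' : z ∈ IntermediateField.adjoin N {τ} := hz
      clear hz
      induction hz' using IntermediateField.adjoin_induction with
      | mem y hy =>
        rw [Set.mem_singleton_iff] at hy
        rw [hy]
        exact hτS'
      | algebraMap y => exact hN y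
      | add y z _ _ hy hz => exact add_mem hy hz
      | inv y _ hy => exact inv_mem hy
      | mul y z _ _ hy hz => exact mul_mem hy hz
    · have hbS : ∀ i, bO i ∈ S := fun i => mul_mem hτS (hNS _)
      rw [IntermediateField.adjoin_le_iff]
      rintro _ ⟨(i | ((i | i) | i)), rfl⟩
      · exact add_mem (mul_mem hτS (hNS _))
          (sum_mem fun i _ => mul_mem (hbS i) (pow_mem (hNS _) e))
      · exact hbS i
      · exact hNS _
      · exact hNS _
  have hind1 : AlgebraicIndependent k x1 := by
    have hτN : AlgebraicIndependent N τ' :=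
      hτ'.restrictScalars (algebraMap N M).injective
    have h1 : AlgebraicIndependent k (Sum.elim τ' (algebraMap N Ω ∘
        (Sum.elim (Sum.elim (fun i : Fin (n + 2) => a i.succ) Y) u))) := hind.sumElim_comp hτN
    refine indep_count (fun z => ?_) h1 le_rfl
    rw [← hSeq]
    have h2 : IsAlgebraic (IntermediateField.adjoin N {τ}) z :=
      Algebra.IsAlgebraic.isAlgebraic z
    exact h2
  -- the fields `k(Y)` and `k(Y, b, u)`
  let B : IntermediateField k Ω := IntermediateField.adjoin k (Set.range YO)
  let K : IntermediateField B Ω := IntermediateField.adjoin B (Set.range bO ∪ Set.range uO)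
  have _ : IsScalarTower k B K := inferInstance
  have _ : IsScalarTower k K Ω := IsScalarTower.of_algebraMap_eq' rfl
  let YB : Fin (n + 2) → B := fun i => ⟨YO i, IntermediateField.subset_adjoin _ _ ⟨i, rfl⟩⟩
  let bK : Fin (n + 2) → K := fun i =>
    ⟨bO i, IntermediateField.subset_adjoin _ _ (Or.inl ⟨i, rfl⟩)⟩
  let uK : ι → K := fun i => ⟨uO i, IntermediateField.subset_adjoin _ _ (Or.inr ⟨i, rfl⟩)⟩
  have hYB : AlgebraicIndependent k YB := by
    refine AlgebraicIndependent.of_comp B.val ?_
    exact hind1.comp (fun i => Sum.inr (Sum.inl (Sum.inr i))) (by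
      intro i j h
      simpa using h)
  have hYBtop : IntermediateField.adjoin k (Set.range YB) = ⊤ := by
    apply adjoin_sub_top
    rw [← Set.range_comp]
    rfl
  have hbuO : AlgebraicIndependent B (Sum.elim bO uO) := by
    apply indep_over
    have h1 := hind1.comp (Sum.elim (Sum.elim (fun i => Sum.inr (Sum.inl (Sum.inl i)))
      fun i => Sum.inr (Sum.inr i)) fun i => Sum.inr (Sum.inl (Sum.inr i))) (by
        rintro ((i | i) | i) ((j | j) | j) h <;>
            simp only [Sum.elim_inl, Sum.elim_inr, Sum.inl.injEq, Sum.inr.injEq,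
              reduceCtorEq] at h <;> rw [h])
    convert h1 using 1
    funext i
    rcases i with (i | i) | i <;> rfl
  have hbuK : AlgebraicIndependent B (Sum.elim bK uK) := by
    refine AlgebraicIndependent.of_comp K.val ?_
    convert hbuO using 1
    funext i
    rcases i with i | i <;> rfl
  have hbuKtop : IntermediateField.adjoin B (Set.range bK ∪ Set.range uK) = ⊤ := by
    apply adjoin_sub_top
    rw [Set.image_union, ← Set.range_comp, ← Set.range_comp]
    rfl
  have hKres : K.restrictScalars k = IntermediateField.adjoin k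
      (Set.range (Sum.elim (Sum.elim bO YO) uO)) := by
    have h1 := res_adjoin (k := k) B (Set.range bO ∪ Set.range uO)
    have h2 : K.restrictScalars k = (IntermediateField.adjoin B
      (Set.range bO ∪ Set.range uO)).restrictScalars k := rfl
    rw [h2, h1, ← IntermediateField.adjoin_union, Set.Sum.elim_range, Set.Sum.elim_range,
      ← Set.union_assoc, Set.union_comm (Set.range YO)]
  have hγK : Transcendental K γ := by
    intro h
    have h1 : IsAlgebraic (K.restrictScalars k) γ := h
    rw [hKres, ← alg_ring_iff] at h1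
    refine hind1.transcendental_adjoin (s := {Sum.inl ()}ᶜ) (i := Sum.inl ()) (by simp) ?_
    have h2 : x1 '' {Sum.inl ()}ᶜ = Set.range (Sum.elim (Sum.elim bO YO) uO) := by
      ext z
      constructor
      · rintro ⟨(i | i), hi, rfl⟩
        · exact absurd rfl hi
        · exact ⟨i, rfl⟩
      · rintro ⟨i, rfl⟩
        exact ⟨Sum.inr i, by simp, rfl⟩
    rw [h2]
    exact h1
  have hTS : (IntermediateField.adjoin K {γ}).restrictScalars k = S := by
    apply le_antisymm
    · intro z hz
      have hz' : z ∈ IntermediateField.adjoin K {γ} := hz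
      clear hz
      induction hz' using IntermediateField.adjoin_induction with
      | mem y hy =>
        rw [Set.mem_singleton_iff] at hy
        rw [hy, hSeq]
        exact hγS'
      | algebraMap y =>
        have h1 : (y : Ω) ∈ K.restrictScalars k := y.2
        rw [hKres] at h1
        rw [hSeq]
        refine IntermediateField.adjoin.mono _ _ _ ?_ h1
        rintro _ ⟨i, rfl⟩
        exact ⟨Sum.inr i, rfl⟩
      | add y z _ _ hy hz => exact add_mem hy hz
      | inv y _ hy => exact inv_mem hy
      | mul y z _ _ hy hz => exact mul_mem hy hz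
    · rw [hSeq, IntermediateField.adjoin_le_iff]
      rintro _ ⟨(i | i), rfl⟩
      · exact IntermediateField.subset_adjoin K {γ} rfl
      · have h1 : (Sum.elim (Sum.elim bO YO) uO) i ∈ K.restrictScalars k := by
          rw [hKres]
          exact IntermediateField.subset_adjoin _ _ ⟨i, rfl⟩
        exact (IntermediateField.adjoin K {γ}).algebraMap_mem
          (⟨(Sum.elim (Sum.elim bO YO) uO) i, h1⟩ : K)
  have hdeg : finrank (IntermediateField.adjoin K {γ}) Ω = finrank N M := by
    have h1 : finrank (IntermediateField.adjoin K {γ}) Ω =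
        finrank ((IntermediateField.adjoin K {γ}).restrictScalars k) Ω := rfl
    have h2 : finrank (IntermediateField.adjoin N {τ}) Ω = finrank S Ω := rfl
    rw [h1, hTS, ← h2, hdegN]
  have hfin : FiniteDimensional (IntermediateField.adjoin K {γ}) Ω :=
    FiniteDimensional.of_finrank_pos (by rw [hdeg]; exact finrank_pos)
  rw [← hdeg]
  -- the constants
  have hmapΩ : (algebraMap M Ω).comp (algebraMap k M) = algebraMap k Ω :=
    (IsScalarTower.algebraMap_eq k M Ω).symm
  have hNMΩ : ∀ x : N, algebraMap M Ω (algebraMap N M x) = algebraMap N Ω x := fun x =>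
    (IsScalarTower.algebraMap_apply N M Ω x).symm
  refine core (k := k) (B := B) (K := K) (Ω := Ω) he YB hYB hYBtop bK uK hbuK hbuKtop hf hg hf0
    hg0 aO hτ0 (fun i => rfl) ?_ (L.map (IsScalarTower.toAlgHom k M Ω)) ?_
    (fun i => map (algebraMap M Ω) (G i)) ?_ ?_ (fun l => algebraMap M Ω (t l)) ?_ ?_ hγK hfin
  · rfl
  · rintro _ ⟨z, hz, rfl⟩
    have h1 := alg_map (IsScalarTower.toAlgHom k M Ω) _ (hL z hz)
    have h2 : (IsScalarTower.toAlgHom k M Ω) '' (Set.range fun i => algebraMap N M (a i)) =
        Set.range aO := by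
      rw [← Set.range_comp]
      congr 1
      funext i
      exact hNMΩ _
    rw [h2] at h1
    exact h1
  · intro i α
    rw [coeff_map]
    exact ⟨_, hGL i α, rfl⟩
  · have h1 := congrArg (map (algebraMap M Ω)) hF
    rw [map_zero] at h1
    rw [map_aeval'] at h1
    rw [← h1]
    congr 1
    simp only [map_add, map_mul, map_map, hmapΩ, map_sum, map_C, map_pow, map_X, hNMΩ, haO]
  · rw [eval_map', Ne, map_eq_zero]
    exact hx0
  · intro i
    rw [eval_map', eval_map', hx i, map_mul, hNMΩ]
    rfl

/-- **The divisibility for the function fields**: `M` is finite over `N = k(a, Y, u)`, and `(1, Y)`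
is the value at `t` of polynomials `G` with coefficients in a field `L ⊂ M` algebraic over `k(a)`
which satisfy the equation `f + g ∑ a_i X_i ^ e = 0` -/
theorem transfer {k N M ι : Type} [Field k] [CharZero k] [Field N] [Field M] [Algebra k N]
    [Algebra N M] [Algebra k M] [IsScalarTower k N M] [Finite ι] {n e c m : ℕ} (he : 1 ≤ e)
    (a : Fin (n + 3) → N) (Y : Fin (n + 2) → N) (u : ι → N)
    (hind : AlgebraicIndependent k (Sum.elim (Sum.elim (fun i : Fin (n + 2) => a i.succ) Y) u))
    (htop : IntermediateField.adjoin k (Set.range a ∪ Set.range Y ∪ Set.range u) = ⊤)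
    [FiniteDimensional N M]
    {f g : MvPolynomial (Fin (n + 3)) k} (hf : f.IsHomogeneous (c + e))
    (hg : g.IsHomogeneous c) (hf0 : f ≠ 0) (hg0 : g ≠ 0)
    (L : IntermediateField k M)
    (hL : ∀ z ∈ L, IsAlgebraic (IntermediateField.adjoin k
      (Set.range fun i => algebraMap N M (a i))) z)
    (G : Fin (n + 3) → MvPolynomial (Fin m) M) (hGL : ∀ i α, (G i).coeff α ∈ L)
    (hF : aeval G (map (algebraMap k M) f + map (algebraMap k M) g *
      ∑ i, C (algebraMap N M (a i)) * X i ^ e) = 0)
    (t : Fin m → M) (hx0 : eval t (G 0) ≠ 0)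
    (hx : ∀ i : Fin (n + 2), eval t (G i.succ) = algebraMap N M (Y i) * eval t (G 0)) :
    e ∣ finrank N M :=
  transfer_aux (Ω := RatFunc M) he a Y u hind htop hf hg hf0 hg0 L hL G hGL hF t hx0 hx
    RatFunc.X RatFunc.transcendental_X RatFunc.adjoin_X

end

end Pool.Agent.X328.FD
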